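import Pool.Agent.Run7.h909.SQ.Num

/-!
# Cocompact actions with cyclic stabilizers
-/

set_option autoImplicit false

namespace Run7.h909.SQ

open SimpleGraph Run7.h909.TD
open Pool.Agent.Y110.FJ (ClosedE)
open Pool.Agent.Y462.SS (Closed)
open Pool.Agent.R684.FP (FbC)
open Run7.h909.TT (Orb QT QF Cor Sq Kn Kn_dvd mem_Kn Ob qb orb_qb actQ fin_mod)

section

variable {H V : Type} [Group H] [MulAction H V] {T : SimpleGraph V} {F : Set (ℤ → V)}
  {f : H →* Multiplicative ℤ}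

/-- elements with divisible values have good quotients -/
def Gd (H : Type) [Group H] {V : Type} [MulAction H V] (T : SimpleGraph V)
    (F : Set (ℤ → V)) (f : H →* Multiplicative ℤ) : Prop :=
  ∃ m : ℕ, 0 < m ∧ ∀ k : H, (m : ℤ) ∣ vl f k →
    (∀ x y, T.Adj x y → k • x ≠ y) ∧ (∀ φ ∈ F, k • φ 0 ≠ φ 2) ∧
    (∀ x y, T.Adj x y → T.Adj x (k • y) → k • x = x ∨ k • y = y)

theorem Cc0.dat (D : Cc0 H T F f) (hg : Gd H T F f) : ∃ n : ℕ, 0 < n ∧
    Dat (Kn V f n) T F (qb V (Kn V f n)) := by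
  obtain ⟨m, hm, hg⟩ := hg
  obtain ⟨n, hn, hmn, h1, -, h2, h3⟩ := D.exn m hm
  refine ⟨n, hn, ?_⟩
  have hA : Ac (Kn V f n) T F := ⟨fun k x y h => D.ac.adj k x y h, fun k φ h => D.ac.face k φ h⟩
  have hd : ∀ k : Kn V f n, (m : ℤ) ∣ vl f (k : H) := fun k =>
    dvd_trans (by exact_mod_cast hmn) (Kn_dvd k.2)
  have hc : Cor (Kn V f n) F := by
    intro φ hφ ψ hψ z a0 a1 a2 a3
    have b1 := D.vh.adj01 hφ
    have b2 := D.vh.adj0m hφ
    by_cases h3 : Tv H (φ 0) (φ 1)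
    · by_cases h4 : Tv H (φ 0) (φ (-1))
      · have h5 : (z : H) = 1 := h2 φ hφ h3 h4 ψ hψ a0 a1 z a2 a3 (Kn_dvd z.2)
        have h6 : z = 1 := Subtype.ext h5
        refine ⟨1, one_smul _ _, one_smul _ _, ?_⟩
        rw [← a3, h6]
      · refine ⟨1, one_smul _ _, one_smul _ _, ?_⟩
        rw [one_smul, ← a3]
        exact (h1 _ _ b2 h4 z a2 (Kn_dvd z.2)).symm
    · exact ⟨z, a2, h1 _ _ b1 h3 z a2 (Kn_dvd z.2), a3⟩
  have hgen : Subgroup.closure {k : Kn V f n | ∃ x : V, k • x = x} = ⊤ := by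
    rw [eq_top_iff]
    have h3 := Subgroup.closure_closure_coe_preimage
      (k := {h : H | (n : ℤ) ∣ vl f h ∧ ∃ x : V, h • x = x})
    have h4 : (⊤ : Subgroup (Kn V f n)) = Subgroup.closure
      ((fun k : Kn V f n => (k : H)) ⁻¹' {h : H | (n : ℤ) ∣ vl f h ∧ ∃ x : V, h • x = x}) :=
      h3.symm
    rw [h4]
    refine Subgroup.closure_mono ?_
    rintro k ⟨-, x, hx⟩
    exact ⟨x, hx⟩
  have hN : Nic (Kn V f n) T F := by
    constructor
    · intro k x y hxy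
      exact (hg k (hd k)).1 x y hxy
    · intro k φ hφ
      exact (hg k (hd k)).2.1 φ hφ
    · intro k x y hxy hk
      exact (hg k (hd k)).2.2 x y hxy hk
    · exact hc
    · intro φ hφ ψ hψ χ hχ z a1 a2 a3 a4 a5 a6
      exact h3 φ hφ ψ hψ χ hχ z a1 a2 a3 a4 a5 a6 (Kn_dvd z.2)
  exact {
    vh := D.vh
    ac := hA
    hq := orb_qb _
    nic := hN
    sc' := sc_quot D.vh hA (orb_qb _) hN D.sc hgen
    fx := by
      rintro x y hxy ⟨k, hk, h3, h4⟩ z hz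
      exact h1 x y hxy (fun ht => hk (Subtype.ext (ht k h3 h4))) z hz (Kn_dvd z.2) }

theorem Cc0.free (D : Cc0 H T F f) (hg : Gd H T F f) {n : ℕ}
    (E : Dat (Kn V f n) T F (qb V (Kn V f n))) :
    IsFreeGroup ↥(Kn V f n ⊓ f.ker) := by
  obtain ⟨o⟩ := D.sc.1.nonempty
  refine Pool.Agent.H40R2.Zd.free_of_tree _ (E.tree D.sc (qb V _ o)) ?_ ?_ ?_
  · intro γ u v h
    exact E.tr_adj _ (⟨γ, γ.2.1⟩ : Kn V f n) h
  · intro γ v hv
    exact Subtype.ext (D.inj γ v hv γ.2.2)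
  · rintro γ u v h ⟨h1, -⟩
    exact E.nic.ne (⟨γ, γ.2.1⟩ : Kn V f n) u v h.1 h1

theorem Cc0.quot {C : ∀ (G : Type) [Group G], Prop} (hcat : CatC C) (D : Cc0 H T F f) {n : ℕ}
    (hn : 0 < n) (E : Dat (Kn V f n) T F (qb V (Kn V f n))) :
    C (H ⧸ Kn V f n) := by
  classical
  letI := actQ (V := V) (Kn V f n)
  obtain ⟨o⟩ := D.sc.1.nonempty
  have hsm : ∀ (h : H) (x : V), (QuotientGroup.mk h : H ⧸ Kn V f n) • qb V (Kn V f n) x =
      qb V (Kn V f n) (h • x) := fun h x => rfl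
  have hq := orb_qb (V := V) (Kn V f n)
  obtain ⟨P, hP, hP'⟩ := D.fe
  refine hcat (H ⧸ Kn V f n) (Ob V (Kn V f n)) (QT T (qb V (Kn V f n))) (QF F (qb V (Kn V f n)))
    (fun _ _ => 1) (fun _ => Real.pi / 2) E.vh'.cx E.sc' ⟨?_, ?_⟩ ⟨fun _ _ _ _ => rfl,
    fun _ _ _ => rfl⟩ ?_ ?_ ?_
  · intro g a b hab
    obtain ⟨h, rfl⟩ := QuotientGroup.mk_surjective g
    obtain ⟨x, y, h1, rfl, rfl⟩ := (QT_adj E.nic E.hq).1 hab
    rw [hsm, hsm]
    exact (QT_adj E.nic E.hq).2 ⟨_, _, D.ac.adj h x y h1, rfl, rfl⟩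
  · rintro g _ ⟨φ, hφ, rfl⟩
    obtain ⟨h, rfl⟩ := QuotientGroup.mk_surjective g
    exact ⟨_, D.ac.face h φ hφ, rfl⟩
  · intro a
    obtain ⟨x, rfl⟩ := hq.surj a
    have hone : ∀ e : V × V, {b : Ob V (Kn V f n) | ∃ y, T.Adj x y ∧ qb V (Kn V f n) y = b ∧
        ∃ g : H, g • x = e.1 ∧ g • y = e.2}.Finite := by
      intro e
      by_cases hex : ∃ y0, ∃ g0 : H, g0 • x = e.1 ∧ g0 • y0 = e.2
      · obtain ⟨y0, g0, h1, h2⟩ := hex
        refine (fin_mod (fun s : {s : H // s • x = x} => qb V (Kn V f n) (s.1 • y0))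
          (fun s => vl f s.1) n hn ?_).subset ?_
        · rintro ⟨s, hs⟩ ⟨s', hs'⟩ hd
          refine (hq.eq _ _).2 ⟨⟨s' * s⁻¹, mem_Kn (x := x) (mul_fix hs' (inv_fix hs)) ?_⟩, ?_⟩
          · have hd' : (n : ℤ) ∣ vl f s - vl f s' := hd
            rw [vl_mul, vl_inv]
            have := (dvd_neg).2 hd'
            rw [neg_sub] at this
            exact this
          · show (s' * s⁻¹) • s • y0 = s' • y0
            rw [mul_smul, inv_smul_smul]
        · rintro b ⟨y, -, rfl, g, h3, h4⟩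
          refine ⟨⟨g⁻¹ * g0, ?_⟩, ?_⟩
          · rw [mul_smul, h1, ← h3, inv_smul_smul]
          · show qb V (Kn V f n) ((g⁻¹ * g0) • y0) = qb V (Kn V f n) y
            rw [mul_smul, h2, ← h4, inv_smul_smul]
      · refine Set.Finite.subset Set.finite_empty ?_
        rintro b ⟨y, -, -, g, h3, h4⟩
        exact hex ⟨y, g, h3, h4⟩
    refine (Set.Finite.biUnion hP fun e _ => hone e).subset ?_
    intro b hb
    obtain ⟨x1, y1, h1, h2, rfl⟩ := (QT_adj E.nic E.hq).1 hb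
    obtain ⟨k, hk⟩ := (hq.eq _ _).1 h2
    have h3 := D.ac.adj k _ _ h1
    have hk' : (k : H) • x1 = x := hk
    rw [hk'] at h3
    obtain ⟨g, hg⟩ := hP' _ _ h3
    simp only [Set.mem_iUnion]
    exact ⟨_, hg, (k : H) • y1, h3, (((hq.eq _ _).2 ⟨k, rfl⟩)).symm, g, rfl, rfl⟩
  · intro a
    obtain ⟨x, rfl⟩ := hq.surj a
    have hfin : (Set.range fun s : {s : H // s • x = x} =>
        (QuotientGroup.mk s.1 : H ⧸ Kn V f n)).Finite := by
      refine fin_mod _ (fun s => vl f s.1) n hn ?_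
      rintro ⟨s, hs⟩ ⟨s', hs'⟩ hd
      refine (QuotientGroup.eq).2 (mem_Kn (x := x) (mul_fix (inv_fix hs) hs') ?_)
      have hd' : (n : ℤ) ∣ vl f s - vl f s' := hd
      rw [vl_mul, vl_inv]
      have := (dvd_neg).2 hd'
      have e : -(vl f s - vl f s') = -vl f s + vl f s' := by ring
      rw [e] at this
      exact this
    refine Set.Finite.to_subtype (s := ((MulAction.stabilizer (H ⧸ Kn V f n)
      (qb V (Kn V f n) x) : Subgroup (H ⧸ Kn V f n)) : Set (H ⧸ Kn V f n))) (hfin.subset ?_)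
    intro g hg
    obtain ⟨h, rfl⟩ := QuotientGroup.mk_surjective g
    have hg' : qb V (Kn V f n) (h • x) = qb V (Kn V f n) x := hg
    obtain ⟨k, hk⟩ := (hq.eq _ _).1 hg'
    refine ⟨⟨k * h, ?_⟩, ?_⟩
    · rw [mul_smul]
      exact hk
    · show (QuotientGroup.mk ((k : H) * h) : H ⧸ Kn V f n) = QuotientGroup.mk h
      refine (QuotientGroup.eq).2 ?_
      have : ((k : H) * h)⁻¹ * h = h⁻¹ * (k : H)⁻¹ * h⁻¹⁻¹ := by group
      rw [this]
      exact Subgroup.Normal.conj_mem inferInstance _ (Subgroup.inv_mem _ k.2) h⁻¹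
  · refine ⟨qb V (Kn V f n) '' (Prod.fst '' P ∪ {o}), ((hP.image _).union
      (Set.finite_singleton o)).image _, ?_⟩
    intro a
    obtain ⟨x, rfl⟩ := hq.surj a
    by_cases hx : x = o
    · exact ⟨1, x, Or.inr hx, (one_smul _ _).symm⟩
    · have hr := D.sc.1.preconnected x o
      rw [reachable_iff_reflTransGen] at hr
      rcases hr.cases_head with h1 | ⟨y, hxy, -⟩
      · exact absurd h1 hx
      · obtain ⟨g, hg⟩ := hP' x y hxy
        exact ⟨QuotientGroup.mk g, g • x, Or.inl ⟨_, hg, rfl⟩, rfl⟩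

theorem Cc0.mem {C : ∀ (G : Type) [Group G], Prop} (hC : ClosedE C) (hF : FbC C) (hcat : CatC C)
    (D : Cc0 H T F f) (hg : Gd H T F f) : C H := by
  obtain ⟨n, hn, E⟩ := D.dat hg
  have hfree := D.free hg E
  refine Pool.Agent.R684.FP.free_ext hC hF (Kn V f n ⊓ f.ker) ?_
  refine hC.base.of_injective _ ((H ⧸ Kn V f n) × Multiplicative ℤ)
    (QuotientGroup.lift (Kn V f n ⊓ f.ker) ((QuotientGroup.mk' (Kn V f n)).prod f) ?_) ?_
    (hC.base.prod _ _ (D.quot hcat hn E) hC.base.int)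
  · rintro h ⟨h1, h2⟩
    exact Prod.ext ((QuotientGroup.eq_one_iff _).2 h1) h2
  · rw [injective_iff_map_eq_one]
    intro a ha
    obtain ⟨h, rfl⟩ := QuotientGroup.mk_surjective a
    have h1 : (QuotientGroup.mk h : H ⧸ Kn V f n) = 1 := congrArg Prod.fst ha
    have h2 : f h = 1 := congrArg Prod.snd ha
    exact (QuotientGroup.eq_one_iff _).2 ⟨(QuotientGroup.eq_one_iff _).1 h1, h2⟩

end

end Run7.h909.SQ
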