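import Pool.Agent.Run7.h909.SQ.Fin

/-!
# Colimits of groups over triangle-free graphs: the square complex
-/

set_option autoImplicit false

namespace Run7.h909.SQ

open SimpleGraph Run7.h909.TD
open Run7.h909.TT (per4_eq)

section

variable {K W : Type} [Group K] {Γ : SimpleGraph W} {A : W → Subgroup K} {D : Subgroup K}

/-- a left coset -/
def cs (k : K) (B : Subgroup K) : Set K := {x | k⁻¹ * x ∈ B}

theorem cs_self (k : K) (B : Subgroup K) : k ∈ cs k B := by
  show k⁻¹ * k ∈ B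
  rw [inv_mul_cancel]
  exact B.one_mem

theorem cs_eq {k k' : K} {B : Subgroup K} (h : k' ∈ cs k B) : cs k' B = cs k B := by
  have h' : k⁻¹ * k' ∈ B := h
  ext x
  constructor
  · intro hx
    have hx' : k'⁻¹ * x ∈ B := hx
    have := B.mul_mem h' hx'
    show k⁻¹ * x ∈ B
    have e : k⁻¹ * k' * (k'⁻¹ * x) = k⁻¹ * x := by group
    rwa [e] at this
  · intro hx
    have hx' : k⁻¹ * x ∈ B := hx
    have := B.mul_mem (B.inv_mem h') hx'
    show k'⁻¹ * x ∈ B
    have e : (k⁻¹ * k')⁻¹ * (k⁻¹ * x) = k'⁻¹ * x := by group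
    rwa [e] at this

theorem cs_mem {k k' : K} {B : Subgroup K} (h : cs k' B = cs k B) : k⁻¹ * k' ∈ B := by
  have : k' ∈ cs k B := by rw [← h]; exact cs_self k' B
  exact this

theorem cs_image (g k : K) (B : Subgroup K) : (fun x => g * x) '' cs k B = cs (g * k) B := by
  ext x
  constructor
  · rintro ⟨y, hy, rfl⟩
    show (g * k)⁻¹ * (g * y) ∈ B
    have e : (g * k)⁻¹ * (g * y) = k⁻¹ * y := by group
    rw [e]
    exact hy
  · intro hx
    have hx' : (g * k)⁻¹ * x ∈ B := hx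
    refine ⟨g⁻¹ * x, ?_, by simp⟩
    show k⁻¹ * (g⁻¹ * x) ∈ B
    have e : (g * k)⁻¹ * x = k⁻¹ * (g⁻¹ * x) := by group
    rwa [e] at hx'

/-- the group of an edge -/
def Eg (A : W → Subgroup K) : Sym2 W → Subgroup K :=
  Sym2.lift ⟨fun v w => A v ⊔ A w, fun v w => sup_comm _ _⟩

theorem Eg_mk (v w : W) : Eg A s(v, w) = A v ⊔ A w := rfl

/-- the type of the cells -/
abbrev X (K W : Type) : Type := Set K ⊕ ((W × Set K) ⊕ (Sym2 W × Set K))

/-- the cells -/
def GoodX (Γ : SimpleGraph W) (A : W → Subgroup K) (D : Subgroup K) : X K W → Prop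
  | Sum.inl c => ∃ k, c = cs k D
  | Sum.inr (Sum.inl p) => ∃ k, p.2 = cs k (A p.1)
  | Sum.inr (Sum.inr p) => p.1 ∈ Γ.edgeSet ∧ ∃ k, p.2 = cs k (Eg A p.1)

/-- incidence -/
def IncX : X K W → X K W → Prop
  | Sum.inl c, Sum.inr (Sum.inl p) => ∃ k, k ∈ c ∧ k ∈ p.2
  | Sum.inr (Sum.inl p), Sum.inr (Sum.inr r) => p.1 ∈ r.1 ∧ ∃ k, k ∈ p.2 ∧ k ∈ r.2
  | _, _ => False

/-- a small square -/
def bx (A : W → Subgroup K) (D : Subgroup K) (k : K) (v w : W) (i : ℤ) : X K W :=
  if i % 4 = 0 then Sum.inl (cs k D) else if i % 4 = 1 then Sum.inr (Sum.inl (v, cs k (A v))) else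
    if i % 4 = 2 then Sum.inr (Sum.inr (s(v, w), cs k (Eg A s(v, w)))) else
      Sum.inr (Sum.inl (w, cs k (A w)))

theorem bx0 (k : K) (v w : W) {i : ℤ} (h : i % 4 = 0) : bx A D k v w i = Sum.inl (cs k D) := by
  rw [bx, if_pos h]

theorem bx1 (k : K) (v w : W) {i : ℤ} (h : i % 4 = 1) :
    bx A D k v w i = Sum.inr (Sum.inl (v, cs k (A v))) := by
  rw [bx, if_neg (by omega), if_pos h]

theorem bx2 (k : K) (v w : W) {i : ℤ} (h : i % 4 = 2) :
    bx A D k v w i = Sum.inr (Sum.inr (s(v, w), cs k (Eg A s(v, w)))) := by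
  rw [bx, if_neg (by omega), if_neg (by omega), if_pos h]

theorem bx3 (k : K) (v w : W) {i : ℤ} (h : i % 4 = 3) :
    bx A D k v w i = Sum.inr (Sum.inl (w, cs k (A w))) := by
  rw [bx, if_neg (by omega), if_neg (by omega), if_neg (by omega)]

theorem bx_neg (k : K) (v w : W) (i : ℤ) : bx A D k v w (-i) = bx A D k w v i := by
  rcases mod4' i with h | h | h | h
  · rw [bx0 _ _ _ h, bx0 _ _ _ (i := -i) (by omega)]
  · rw [bx1 _ _ _ h, bx3 _ _ _ (i := -i) (by omega)]
  · rw [bx2 _ _ _ h, bx2 _ _ _ (i := -i) (by omega), Sym2.eq_swap]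
  · rw [bx3 _ _ _ h, bx1 _ _ _ (i := -i) (by omega)]

theorem bx_mod (k : K) (v w : W) {i j : ℤ} (h : (4 : ℤ) ∣ i - j) :
    bx A D k v w i = bx A D k v w j := by
  unfold bx
  have : i % 4 = j % 4 := by omega
  rw [this]

/-- the vertices -/
def Xv (Γ : SimpleGraph W) (A : W → Subgroup K) (D : Subgroup K) : Type :=
  {a : X K W // GoodX Γ A D a}

/-- the graph -/
def XG (Γ : SimpleGraph W) (A : W → Subgroup K) (D : Subgroup K) : SimpleGraph (Xv Γ A D) where
  Adj a b := IncX a.1 b.1 ∨ IncX b.1 a.1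
  symm := ⟨fun _ _ h => h.symm⟩
  loopless := ⟨fun a h => by
    obtain ⟨a, ha⟩ := a
    rcases a with x | p | c
    · exact h.elim id id
    · exact h.elim id id
    · exact h.elim id id⟩

/-- the squares -/
def XF (Γ : SimpleGraph W) (A : W → Subgroup K) (D : Subgroup K) : Set (ℤ → Xv Γ A D) :=
  {ψ | ∃ k v w, Γ.Adj v w ∧ ∃ m : ℤ, ∀ i, (ψ i).1 = bx A D k v w (i + m)}

theorem inj1 {p q : W × Set K} (h : (Sum.inr (Sum.inl p) : X K W) = Sum.inr (Sum.inl q)) :
    p = q := Sum.inl_injective (Sum.inr_injective h)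

theorem inj2 {p q : Sym2 W × Set K} (h : (Sum.inr (Sum.inr p) : X K W) = Sum.inr (Sum.inr q)) :
    p = q := Sum.inr_injective (Sum.inr_injective h)

theorem sym_right {x y z : W} (h : s(x, y) = s(z, y)) : x = z := by
  rw [Sym2.eq_swap, Sym2.eq_swap (a := z)] at h
  exact sym_left h

theorem bx_eq (hD : ∀ v, D ≤ A v) {k k' : K} (h : k'⁻¹ * k ∈ D) (v w : W) (i : ℤ) :
    bx A D k v w i = bx A D k' v w i := by
  have e0 : cs k D = cs k' D := cs_eq (k := k') (k' := k) h
  have e1 : cs k (A v) = cs k' (A v) := cs_eq (k := k') (k' := k) (hD v h)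
  have e3 : cs k (A w) = cs k' (A w) := cs_eq (k := k') (k' := k) (hD w h)
  have e2 : cs k (Eg A s(v, w)) = cs k' (Eg A s(v, w)) :=
    cs_eq (k := k') (k' := k) (Subgroup.mem_sup_left (hD v h))
  rcases mod4' i with a | a | a | a
  · rw [bx0 _ _ _ a, bx0 _ _ _ a, e0]
  · rw [bx1 _ _ _ a, bx1 _ _ _ a, e1]
  · rw [bx2 _ _ _ a, bx2 _ _ _ a, e2]
  · rw [bx3 _ _ _ a, bx3 _ _ _ a, e3]

theorem cubX (htri : ∀ u v w, Γ.Adj u v → Γ.Adj v w → Γ.Adj w u → False)
    (hD : ∀ v, D ≤ A v) (hint : ∀ v w, Γ.Adj v w → A v ⊓ A w = D) :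
    Cub (XG Γ A D) (XF Γ A D) := by
  constructor
  · rintro ψ ⟨k, v, w, hvw, m, hm⟩ i
    show IncX (ψ i).1 (ψ (i + 1)).1 ∨ IncX (ψ (i + 1)).1 (ψ i).1
    rw [hm, hm]
    rcases mod4' (i + m) with h1 | h1 | h1 | h1
    · rw [bx0 _ _ _ h1, bx1 _ _ _ (i := i + 1 + m) (by omega)]
      exact Or.inl ⟨k, cs_self _ _, cs_self _ _⟩
    · rw [bx1 _ _ _ h1, bx2 _ _ _ (i := i + 1 + m) (by omega)]
      exact Or.inl ⟨by simp, k, cs_self _ _, cs_self _ _⟩
    · rw [bx2 _ _ _ h1, bx3 _ _ _ (i := i + 1 + m) (by omega)]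
      exact Or.inr ⟨by simp, k, cs_self _ _, cs_self _ _⟩
    · rw [bx3 _ _ _ h1, bx0 _ _ _ (i := i + 1 + m) (by omega)]
      exact Or.inr ⟨k, cs_self _ _, cs_self _ _⟩
  · rintro ψ ⟨k, v, w, hvw, m, hm⟩ i j
    constructor
    · intro hij
      have h1 : bx A D k v w (i + m) = bx A D k v w (j + m) := by rw [← hm, ← hm, hij]
      rcases mod4' (i + m) with h2 | h2 | h2 | h2 <;> rcases mod4' (j + m) with h3 | h3 | h3 | h3
      · omega
      · rw [bx0 _ _ _ h2, bx1 _ _ _ h3] at h1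
        cases h1
      · rw [bx0 _ _ _ h2, bx2 _ _ _ h3] at h1
        cases h1
      · rw [bx0 _ _ _ h2, bx3 _ _ _ h3] at h1
        cases h1
      · rw [bx1 _ _ _ h2, bx0 _ _ _ h3] at h1
        cases h1
      · omega
      · rw [bx1 _ _ _ h2, bx2 _ _ _ h3] at h1
        cases h1
      · rw [bx1 _ _ _ h2, bx3 _ _ _ h3] at h1
        exact absurd (congrArg Prod.fst (inj1 h1)) hvw.ne
      · rw [bx2 _ _ _ h2, bx0 _ _ _ h3] at h1
        cases h1
      · rw [bx2 _ _ _ h2, bx1 _ _ _ h3] at h1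
        cases h1
      · omega
      · rw [bx2 _ _ _ h2, bx3 _ _ _ h3] at h1
        cases h1
      · rw [bx3 _ _ _ h2, bx0 _ _ _ h3] at h1
        cases h1
      · rw [bx3 _ _ _ h2, bx1 _ _ _ h3] at h1
        exact absurd (congrArg Prod.fst (inj1 h1)).symm hvw.ne
      · rw [bx3 _ _ _ h2, bx2 _ _ _ h3] at h1
        cases h1
      · omega
    · intro hij
      refine Subtype.ext ?_
      rw [hm, hm]
      exact bx_mod k v w (by omega)
  · rintro ψ ⟨k, v, w, hvw, m, hm⟩ r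
    exact ⟨k, v, w, hvw, r + m, fun i => by rw [hm, add_assoc]⟩
  · rintro ψ ⟨k, v, w, hvw, m, hm⟩
    refine ⟨k, w, v, hvw.symm, -m, fun i => ?_⟩
    rw [hm, ← bx_neg]
    congr 1
    ring
  · rintro ψ ⟨k, v, w, hvw, m, hm⟩ ψ' ⟨k', v', w', hvw', m', hm'⟩ h0 h1 h2
    have e0 : bx A D k v w (0 + m) = bx A D k' v' w' (0 + m') := by rw [← hm, ← hm', h0]
    have e1 : bx A D k v w (1 + m) = bx A D k' v' w' (1 + m') := by rw [← hm, ← hm', h1]
    have e2 : bx A D k v w (-1 + m) = bx A D k' v' w' (-1 + m') := by rw [← hm, ← hm', h2]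
    have key : k'⁻¹ * k ∈ D → v = v' → w = w' → (4 : ℤ) ∣ m - m' → ψ = ψ' := by
      rintro hkD rfl rfl hkk
      funext i
      refine Subtype.ext ?_
      rw [hm, hm', bx_eq hD hkD]
      exact bx_mod k' v w (by omega)
    clear hm hm' h0 h1 h2
    rcases mod4' m with a | a | a | a <;> rcases mod4' m' with b | b | b | b
    · rw [bx0 _ _ _ (i := 0 + m) (by omega), bx0 _ _ _ (i := 0 + m') (by omega)] at e0
      rw [bx1 _ _ _ (i := 1 + m) (by omega), bx1 _ _ _ (i := 1 + m') (by omega)] at e1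
      rw [bx3 _ _ _ (i := -1 + m) (by omega), bx3 _ _ _ (i := -1 + m') (by omega)] at e2
      exact key (cs_mem (Sum.inl_injective e0)) (congrArg Prod.fst (inj1 e1))
        (congrArg Prod.fst (inj1 e2)) (by omega)
    · rw [bx0 _ _ _ (i := 0 + m) (by omega), bx1 _ _ _ (i := 0 + m') (by omega)] at e0
      cases e0
    · rw [bx0 _ _ _ (i := 0 + m) (by omega), bx2 _ _ _ (i := 0 + m') (by omega)] at e0
      cases e0
    · rw [bx0 _ _ _ (i := 0 + m) (by omega), bx3 _ _ _ (i := 0 + m') (by omega)] at e0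
      cases e0
    · rw [bx1 _ _ _ (i := 0 + m) (by omega), bx0 _ _ _ (i := 0 + m') (by omega)] at e0
      cases e0
    · rw [bx1 _ _ _ (i := 0 + m) (by omega), bx1 _ _ _ (i := 0 + m') (by omega)] at e0
      rw [bx2 _ _ _ (i := 1 + m) (by omega), bx2 _ _ _ (i := 1 + m') (by omega)] at e1
      rw [bx0 _ _ _ (i := -1 + m) (by omega), bx0 _ _ _ (i := -1 + m') (by omega)] at e2
      have f0 := congrArg Prod.fst (inj1 e0)
      have f1 := congrArg Prod.fst (inj2 e1)
      have f0' : v = v' := f0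
      subst f0'
      exact key (cs_mem (Sum.inl_injective e2)) rfl (sym_left f1) (by omega)
    · rw [bx1 _ _ _ (i := 0 + m) (by omega), bx2 _ _ _ (i := 0 + m') (by omega)] at e0
      cases e0
    · rw [bx2 _ _ _ (i := 1 + m) (by omega), bx0 _ _ _ (i := 1 + m') (by omega)] at e1
      cases e1
    · rw [bx2 _ _ _ (i := 0 + m) (by omega), bx0 _ _ _ (i := 0 + m') (by omega)] at e0
      cases e0
    · rw [bx2 _ _ _ (i := 0 + m) (by omega), bx1 _ _ _ (i := 0 + m') (by omega)] at e0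
      cases e0
    · rw [bx3 _ _ _ (i := 1 + m) (by omega), bx3 _ _ _ (i := 1 + m') (by omega)] at e1
      rw [bx1 _ _ _ (i := -1 + m) (by omega), bx1 _ _ _ (i := -1 + m') (by omega)] at e2
      have f1 : w = w' := congrArg Prod.fst (inj1 e1)
      have f2 : v = v' := congrArg Prod.fst (inj1 e2)
      subst f1
      subst f2
      have g1 : cs k (A w) = cs k' (A w) := congrArg Prod.snd (inj1 e1)
      have g2 : cs k (A v) = cs k' (A v) := congrArg Prod.snd (inj1 e2)
      have g3 : k'⁻¹ * k ∈ A v ⊓ A w := ⟨cs_mem g2, cs_mem g1⟩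
      rw [hint v w hvw] at g3
      exact key g3 rfl rfl (by omega)
    · rw [bx2 _ _ _ (i := 0 + m) (by omega), bx3 _ _ _ (i := 0 + m') (by omega)] at e0
      cases e0
    · rw [bx3 _ _ _ (i := 0 + m) (by omega), bx0 _ _ _ (i := 0 + m') (by omega)] at e0
      cases e0
    · rw [bx0 _ _ _ (i := 1 + m) (by omega), bx2 _ _ _ (i := 1 + m') (by omega)] at e1
      cases e1
    · rw [bx3 _ _ _ (i := 0 + m) (by omega), bx2 _ _ _ (i := 0 + m') (by omega)] at e0
      cases e0
    · rw [bx3 _ _ _ (i := 0 + m) (by omega), bx3 _ _ _ (i := 0 + m') (by omega)] at e0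
      rw [bx0 _ _ _ (i := 1 + m) (by omega), bx0 _ _ _ (i := 1 + m') (by omega)] at e1
      rw [bx2 _ _ _ (i := -1 + m) (by omega), bx2 _ _ _ (i := -1 + m') (by omega)] at e2
      have f0 : w = w' := congrArg Prod.fst (inj1 e0)
      have f1 := congrArg Prod.fst (inj2 e2)
      subst f0
      exact key (cs_mem (Sum.inl_injective e1)) (sym_right f1) rfl (by omega)
  · rintro ψ1 ⟨k1, v1, w1, a1, m1, hm1⟩ ψ2 ⟨k2, v2, w2, a2, m2, hm2⟩ ψ3
      ⟨k3, v3, w3, a3, m3, hm3⟩ h1 h2 h3 h4 h5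
    have e1 : bx A D k1 v1 w1 (0 + m1) = bx A D k2 v2 w2 (0 + m2) := by rw [← hm1, ← hm2, h1]
    have e2 : bx A D k2 v2 w2 (0 + m2) = bx A D k3 v3 w3 (0 + m3) := by rw [← hm2, ← hm3, h2]
    have e3 : bx A D k1 v1 w1 (1 + m1) = bx A D k2 v2 w2 (-1 + m2) := by rw [← hm1, ← hm2, h3]
    have e4 : bx A D k2 v2 w2 (1 + m2) = bx A D k3 v3 w3 (-1 + m3) := by rw [← hm2, ← hm3, h4]
    have e5 : bx A D k3 v3 w3 (1 + m3) = bx A D k1 v1 w1 (-1 + m1) := by rw [← hm3, ← hm1, h5]
    clear h1 h2 h3 h4 h5 hm1 hm2 hm3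
    rcases mod4' m1 with a | a | a | a
    · rw [bx0 k1 v1 w1 (i := 0 + m1) (by omega)] at e1
      rw [bx1 k1 v1 w1 (i := 1 + m1) (by omega)] at e3
      rw [bx3 k1 v1 w1 (i := -1 + m1) (by omega)] at e5
      rcases mod4' m2 with b | b | b | b
      · rw [bx0 k2 v2 w2 (i := 0 + m2) (by omega)] at e1 e2
        rw [bx3 k2 v2 w2 (i := -1 + m2) (by omega)] at e3
        rw [bx1 k2 v2 w2 (i := 1 + m2) (by omega)] at e4
        rcases mod4' m3 with c | c | c | c
        · rw [bx3 k3 v3 w3 (i := -1 + m3) (by omega)] at e4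
          rw [bx1 k3 v3 w3 (i := 1 + m3) (by omega)] at e5
          have f3 : v1 = w2 := congrArg Prod.fst (inj1 e3)
          have f4 : v2 = w3 := congrArg Prod.fst (inj1 e4)
          have f5 : v3 = w1 := congrArg Prod.fst (inj1 e5)
          subst f3 f4 f5
          exact htri _ _ _ a1 a3 a2
        · rw [bx1 k3 v3 w3 (i := 0 + m3) (by omega)] at e2
          cases e2
        · rw [bx2 k3 v3 w3 (i := 0 + m3) (by omega)] at e2
          cases e2
        · rw [bx3 k3 v3 w3 (i := 0 + m3) (by omega)] at e2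
          cases e2
      · rw [bx1 k2 v2 w2 (i := 0 + m2) (by omega)] at e1
        cases e1
      · rw [bx2 k2 v2 w2 (i := 0 + m2) (by omega)] at e1
        cases e1
      · rw [bx3 k2 v2 w2 (i := 0 + m2) (by omega)] at e1
        cases e1
    · rw [bx1 k1 v1 w1 (i := 0 + m1) (by omega)] at e1
      rw [bx2 k1 v1 w1 (i := 1 + m1) (by omega)] at e3
      rw [bx0 k1 v1 w1 (i := -1 + m1) (by omega)] at e5
      rcases mod4' m2 with b | b | b | b
      · rw [bx0 k2 v2 w2 (i := 0 + m2) (by omega)] at e1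
        cases e1
      · rw [bx0 k2 v2 w2 (i := -1 + m2) (by omega)] at e3
        cases e3
      · rw [bx2 k2 v2 w2 (i := 0 + m2) (by omega)] at e1
        cases e1
      · rw [bx3 k2 v2 w2 (i := 0 + m2) (by omega)] at e2
        rw [bx0 k2 v2 w2 (i := 1 + m2) (by omega)] at e4
        rcases mod4' m3 with c | c | c | c
        · rw [bx0 k3 v3 w3 (i := 0 + m3) (by omega)] at e2
          cases e2
        · rw [bx2 k3 v3 w3 (i := 1 + m3) (by omega)] at e5
          cases e5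
        · rw [bx2 k3 v3 w3 (i := 0 + m3) (by omega)] at e2
          cases e2
        · rw [bx2 k3 v3 w3 (i := -1 + m3) (by omega)] at e4
          cases e4
    · rw [bx2 k1 v1 w1 (i := 0 + m1) (by omega)] at e1
      rw [bx3 k1 v1 w1 (i := 1 + m1) (by omega)] at e3
      rw [bx1 k1 v1 w1 (i := -1 + m1) (by omega)] at e5
      rcases mod4' m2 with b | b | b | b
      · rw [bx0 k2 v2 w2 (i := 0 + m2) (by omega)] at e1
        cases e1
      · rw [bx1 k2 v2 w2 (i := 0 + m2) (by omega)] at e1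
        cases e1
      · rw [bx2 k2 v2 w2 (i := 0 + m2) (by omega)] at e1 e2
        rw [bx1 k2 v2 w2 (i := -1 + m2) (by omega)] at e3
        rw [bx3 k2 v2 w2 (i := 1 + m2) (by omega)] at e4
        rcases mod4' m3 with c | c | c | c
        · rw [bx0 k3 v3 w3 (i := 0 + m3) (by omega)] at e2
          cases e2
        · rw [bx1 k3 v3 w3 (i := 0 + m3) (by omega)] at e2
          cases e2
        · rw [bx2 k3 v3 w3 (i := 0 + m3) (by omega)] at e2
          rw [bx1 k3 v3 w3 (i := -1 + m3) (by omega)] at e4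
          rw [bx3 k3 v3 w3 (i := 1 + m3) (by omega)] at e5
          have f1 : s(v1, w1) = s(v2, w2) := congrArg Prod.fst (inj2 e1)
          have f2 : s(v2, w2) = s(v3, w3) := congrArg Prod.fst (inj2 e2)
          have f3 : w1 = v2 := congrArg Prod.fst (inj1 e3)
          have f4 : w2 = v3 := congrArg Prod.fst (inj1 e4)
          have f5 : w3 = v1 := congrArg Prod.fst (inj1 e5)
          subst f3 f4 f5
          have g1 : w3 = w2 := by
            rw [Sym2.eq_swap] at f1
            exact sym_left f1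
          exact a3.ne g1.symm
        · rw [bx3 k3 v3 w3 (i := 0 + m3) (by omega)] at e2
          cases e2
      · rw [bx3 k2 v2 w2 (i := 0 + m2) (by omega)] at e1
        cases e1
    · rw [bx3 k1 v1 w1 (i := 0 + m1) (by omega)] at e1
      rw [bx0 k1 v1 w1 (i := 1 + m1) (by omega)] at e3
      rw [bx2 k1 v1 w1 (i := -1 + m1) (by omega)] at e5
      rcases mod4' m2 with b | b | b | b
      · rw [bx0 k2 v2 w2 (i := 0 + m2) (by omega)] at e1
        cases e1
      · rw [bx1 k2 v2 w2 (i := 0 + m2) (by omega)] at e2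
        rw [bx2 k2 v2 w2 (i := 1 + m2) (by omega)] at e4
        rcases mod4' m3 with c | c | c | c
        · rw [bx0 k3 v3 w3 (i := 0 + m3) (by omega)] at e2
          cases e2
        · rw [bx0 k3 v3 w3 (i := -1 + m3) (by omega)] at e4
          cases e4
        · rw [bx2 k3 v3 w3 (i := 0 + m3) (by omega)] at e2
          cases e2
        · rw [bx0 k3 v3 w3 (i := 1 + m3) (by omega)] at e5
          cases e5
      · rw [bx2 k2 v2 w2 (i := 0 + m2) (by omega)] at e1
        cases e1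
      · rw [bx2 k2 v2 w2 (i := -1 + m2) (by omega)] at e3
        cases e3

/-! ### the action -/

/-- the action on cells -/
def ux (g : K) : X K W → X K W :=
  Sum.map (fun c => (fun x => g * x) '' c) (Sum.map (fun p => (p.1, (fun x => g * x) '' p.2))
    fun p => (p.1, (fun x => g * x) '' p.2))

theorem ux0 (g k : K) : ux g (Sum.inl (cs k D) : X K W) = Sum.inl (cs (g * k) D) := by
  show (Sum.inl ((fun x => g * x) '' cs k D) : X K W) = _
  rw [cs_image]

theorem ux1 (g k : K) (v : W) : ux g (Sum.inr (Sum.inl (v, cs k (A v))) : X K W) =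
    Sum.inr (Sum.inl (v, cs (g * k) (A v))) := by
  show (Sum.inr (Sum.inl (v, (fun x => g * x) '' cs k (A v))) : X K W) = _
  rw [cs_image]

theorem ux2 (g k : K) (e : Sym2 W) (B : Subgroup K) :
    ux g (Sum.inr (Sum.inr (e, cs k B)) : X K W) =
    Sum.inr (Sum.inr (e, cs (g * k) B)) := by
  show (Sum.inr (Sum.inr (e, (fun x => g * x) '' cs k B)) : X K W) = _
  rw [cs_image]

theorem ux_bx (g k : K) (v w : W) (i : ℤ) : ux g (bx A D k v w i) = bx A D (g * k) v w i := by
  rcases mod4' i with h | h | h | h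
  · rw [bx0 _ _ _ h, bx0 _ _ _ h, ux0]
  · rw [bx1 _ _ _ h, bx1 _ _ _ h, ux1]
  · rw [bx2 _ _ _ h, bx2 _ _ _ h, ux2]
  · rw [bx3 _ _ _ h, bx3 _ _ _ h, ux1]

theorem goodX_ux (g : K) {a : X K W} (ha : GoodX Γ A D a) : GoodX Γ A D (ux g a) := by
  rcases a with c | ⟨v, c⟩ | ⟨e, c⟩
  · obtain ⟨k, hk⟩ := ha
    subst hk
    exact ⟨g * k, cs_image g k _⟩
  · obtain ⟨k, hk⟩ := ha
    have hk' : c = cs k (A v) := hk
    subst hk'
    exact ⟨g * k, cs_image g k _⟩
  · obtain ⟨he, k, hk⟩ := ha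
    have hk' : c = cs k (Eg A e) := hk
    subst hk'
    exact ⟨he, g * k, cs_image g k _⟩

theorem ux_one (a : X K W) : ux (1 : K) a = a := by
  have h : (fun x : K => (1 : K) * x) = id := by funext x; simp
  rcases a with x | ⟨v, c⟩ | ⟨e, c⟩
  · show Sum.inl ((fun x => 1 * x) '' x) = _
    rw [h, Set.image_id]
  · show Sum.inr (Sum.inl (v, (fun x => 1 * x) '' c)) = _
    rw [h, Set.image_id]
  · show Sum.inr (Sum.inr (e, (fun x => 1 * x) '' c)) = _
    rw [h, Set.image_id]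

theorem ux_mul (g h : K) (a : X K W) : ux (g * h) a = ux g (ux h a) := by
  have h' : (fun x : K => (g * h) * x) = (fun x => g * x) ∘ fun x => h * x := by
    funext x
    simp [mul_assoc]
  rcases a with x | ⟨v, c⟩ | ⟨e, c⟩
  · show Sum.inl ((fun x => g * h * x) '' x) =
      Sum.inl ((fun x => g * x) '' ((fun x => h * x) '' x))
    rw [h', Set.image_comp]
  · show Sum.inr (Sum.inl (v, (fun x => g * h * x) '' c)) =
      Sum.inr (Sum.inl (v, (fun x => g * x) '' ((fun x => h * x) '' c)))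
    rw [h', Set.image_comp]
  · show Sum.inr (Sum.inr (e, (fun x => g * h * x) '' c)) =
      Sum.inr (Sum.inr (e, (fun x => g * x) '' ((fun x => h * x) '' c)))
    rw [h', Set.image_comp]

instance xAct : MulAction K (Xv Γ A D) where
  smul g a := ⟨ux g a.1, goodX_ux g a.2⟩
  one_smul a := Subtype.ext (ux_one a.1)
  mul_smul g h a := Subtype.ext (ux_mul g h a.1)

theorem smulX (g : K) (a : Xv Γ A D) : (g • a).1 = ux g a.1 := rfl

theorem incX_ux (g : K) {a b : X K W} (hab : IncX a b) : IncX (ux g a) (ux g b) := by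
  rcases a with x | p | c
  · rcases b with y | p' | c'
    · exact hab.elim
    · obtain ⟨k, h2, h3⟩ := hab
      exact ⟨g * k, ⟨k, h2, rfl⟩, ⟨k, h3, rfl⟩⟩
    · exact hab.elim
  · rcases b with y | p' | c'
    · exact hab.elim
    · exact hab.elim
    · obtain ⟨h1, k, h2, h3⟩ := hab
      exact ⟨h1, g * k, ⟨k, h2, rfl⟩, ⟨k, h3, rfl⟩⟩
  · rcases b with y | p' | c'
    · exact hab.elim
    · exact hab.elim
    · exact hab.elim

theorem acX : Ac K (XG Γ A D) (XF Γ A D) := by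
  constructor
  · intro g a b hab
    exact hab.imp (incX_ux g) (incX_ux g)
  · rintro g ψ ⟨k, v, w, hvw, m, hm⟩
    refine ⟨g * k, v, w, hvw, m, fun i => ?_⟩
    rw [smulX, hm, ux_bx]

theorem tydX : Tyd K (XG Γ A D) (XF Γ A D) := by
  constructor
  · intro h a b hab he
    have he' : ux h a.1 = b.1 := congrArg Subtype.val he
    have key : ∀ a b : X K W, ux h a = b → (IncX a b → False) ∧ (IncX b a → False) := by
      rintro (x | p | c) b rfl
      · exact ⟨id, id⟩
      · exact ⟨id, id⟩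
      · exact ⟨id, id⟩
    exact hab.elim (key _ _ he').1 (key _ _ he').2
  · rintro ψ ⟨k, v, w, hvw, m, hm⟩
    rcases mod4' m with a | a | a | a
    · left
      intro h he
      have he' : ux h (ψ 0).1 = (ψ 2).1 := congrArg Subtype.val he
      rw [hm, hm, ux_bx, bx0 _ _ _ (i := 0 + m) (by omega), bx2 _ _ _ (i := 2 + m) (by omega)] at he'
      cases he'
    · right
      intro h he
      have he' : ux h (ψ 1).1 = (ψ 3).1 := congrArg Subtype.val he
      rw [hm, hm, ux_bx, bx2 _ _ _ (i := 1 + m) (by omega), bx0 _ _ _ (i := 3 + m) (by omega)] at he'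
      cases he'
    · left
      intro h he
      have he' : ux h (ψ 0).1 = (ψ 2).1 := congrArg Subtype.val he
      rw [hm, hm, ux_bx, bx2 _ _ _ (i := 0 + m) (by omega), bx0 _ _ _ (i := 2 + m) (by omega)] at he'
      cases he'
    · right
      intro h he
      have he' : ux h (ψ 1).1 = (ψ 3).1 := congrArg Subtype.val he
      rw [hm, hm, ux_bx, bx0 _ _ _ (i := 1 + m) (by omega), bx2 _ _ _ (i := 3 + m) (by omega)] at he'
      cases he'

end

end Run7.h909.SQ
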