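import Pool.Agent.Run7.h909.SQ.Col

/-!
# Colimits of groups over triangle-free graphs: the complex is simply connected
-/

set_option autoImplicit false

namespace Run7.h909.SQ

open SimpleGraph Run7.h909.TD
open Pool.Agent.Y110.FJ (ClosedE)
open Pool.Agent.Y462.SS (Closed)
open Pool.Agent.R684.FP (FbC)
open Run7.h909.TT (per4_eq)

section

variable {K W : Type} [Group K] {Γ : SimpleGraph W} {A : W → Subgroup K} {D : Subgroup K}

/-- a group element as a vertex -/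
def x0 (Γ : SimpleGraph W) (A : W → Subgroup K) (D : Subgroup K) (k : K) : Xv Γ A D :=
  ⟨Sum.inl (cs k D), k, rfl⟩

/-- a coset of a vertex group -/
def x1 (Γ : SimpleGraph W) (A : W → Subgroup K) (D : Subgroup K) (k : K) (v : W) : Xv Γ A D :=
  ⟨Sum.inr (Sum.inl (v, cs k (A v))), k, rfl⟩

/-- a coset of an edge group -/
def x2 (A : W → Subgroup K) (D : Subgroup K) (k : K) {v w : W} (h : Γ.Adj v w) : Xv Γ A D :=
  ⟨Sum.inr (Sum.inr (s(v, w), cs k (Eg A s(v, w)))), h, k, rfl⟩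

theorem x0_eq {k k' : K} (h : k⁻¹ * k' ∈ D) : x0 Γ A D k' = x0 Γ A D k :=
  Subtype.ext (by
    show (Sum.inl (cs k' D) : X K W) = Sum.inl (cs k D)
    rw [cs_eq (k := k) (k' := k') h])

theorem x1_eq {k k' : K} {v : W} (h : k⁻¹ * k' ∈ A v) : x1 Γ A D k' v = x1 Γ A D k v :=
  Subtype.ext (by
    show (Sum.inr (Sum.inl (v, cs k' (A v))) : X K W) = Sum.inr (Sum.inl (v, cs k (A v)))
    rw [cs_eq (k := k) (k' := k') h])

theorem x2_eq {k k' : K} {v w : W} (hvw : Γ.Adj v w) (h : k⁻¹ * k' ∈ A v ⊔ A w) :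
    x2 A D k' hvw = x2 A D k hvw :=
  Subtype.ext (by
    show (Sum.inr (Sum.inr (s(v, w), cs k' (Eg A s(v, w)))) : X K W) =
      Sum.inr (Sum.inr (s(v, w), cs k (Eg A s(v, w))))
    rw [cs_eq (k := k) (k' := k') (B := Eg A s(v, w)) h])

theorem x2_symm {k : K} {v w : W} (h : Γ.Adj v w) : x2 A D k h.symm = x2 A D k h :=
  Subtype.ext (by
    show (Sum.inr (Sum.inr (s(w, v), cs k (Eg A s(w, v)))) : X K W) =
      Sum.inr (Sum.inr (s(v, w), cs k (Eg A s(v, w))))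
    rw [Sym2.eq_swap])

theorem adj01 (k : K) (v : W) : (XG Γ A D).Adj (x0 Γ A D k) (x1 Γ A D k v) :=
  Or.inl ⟨k, cs_self _ _, cs_self _ _⟩

theorem adj12 (k : K) {v w : W} (h : Γ.Adj v w) : (XG Γ A D).Adj (x1 Γ A D k v) (x2 A D k h) :=
  Or.inl ⟨by simp, k, cs_self _ _, cs_self _ _⟩

theorem Xv.ind {P : Xv Γ A D → Prop} (h0 : ∀ k, P (x0 Γ A D k)) (h1 : ∀ k v, P (x1 Γ A D k v))
    (h2 : ∀ k v w (h : Γ.Adj v w), P (x2 A D k h)) (a : Xv Γ A D) : P a := by
  obtain ⟨a, ha⟩ := a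
  rcases a with c | ⟨v, c⟩ | ⟨e, c⟩
  · obtain ⟨k, rfl⟩ := ha
    exact h0 k
  · obtain ⟨k, hk⟩ := ha
    have hk' : c = cs k (A v) := hk
    subst hk'
    exact h1 k v
  · obtain ⟨he, k, hk⟩ := ha
    have hk' : c = cs k (Eg A e) := hk
    subst hk'
    induction e using Sym2.ind with
    | _ v w => exact h2 k v w he

/-- adjacent cells -/
theorem xg_cases {a b : Xv Γ A D} (hab : (XG Γ A D).Adj a b) :
    (∃ k v, (a = x0 Γ A D k ∧ b = x1 Γ A D k v) ∨ (b = x0 Γ A D k ∧ a = x1 Γ A D k v)) ∨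
    (∃ k v w, ∃ h : Γ.Adj v w, (a = x1 Γ A D k v ∧ b = x2 A D k h) ∨
      (b = x1 Γ A D k v ∧ a = x2 A D k h)) := by
  have key : ∀ a b : Xv Γ A D, IncX a.1 b.1 →
      (∃ k v, a = x0 Γ A D k ∧ b = x1 Γ A D k v) ∨
      (∃ k v w, ∃ h : Γ.Adj v w, a = x1 Γ A D k v ∧ b = x2 A D k h) := by
    intro a b
    induction a using Xv.ind with
    | h0 k =>
      induction b using Xv.ind with
      | h0 k' => exact fun h => h.elim
      | h1 k' v =>
        intro h
        left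
        obtain ⟨l, h2, h3⟩ := h
        have h2' : l ∈ cs k D := h2
        have h3' : l ∈ cs k' (A v) := h3
        exact ⟨l, v, (x0_eq (k := k) (k' := l) h2').symm, (x1_eq (k := k') (k' := l) h3').symm⟩
      | h2 k' v w hvw => exact fun h => h.elim
    | h1 k v =>
      induction b using Xv.ind with
      | h0 k' => exact fun h => h.elim
      | h1 k' v => exact fun h => h.elim
      | h2 k' v' w' hvw =>
        intro h
        right
        obtain ⟨h1, l, h2, h3⟩ := h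
        have h1' : v ∈ s(v', w') := h1
        have h2' : l ∈ cs k (A v) := h2
        have h3' : l ∈ cs k' (A v' ⊔ A w') := h3
        have e1 : x1 Γ A D k v = x1 Γ A D l v := (x1_eq (k := k) (k' := l) h2').symm
        have e2 : x2 A D k' hvw = x2 A D l hvw := (x2_eq (k := k') (k' := l) hvw h3').symm
        rw [Sym2.mem_iff] at h1'
        rcases h1' with rfl | rfl
        · exact ⟨l, v, w', hvw, e1, e2⟩
        · exact ⟨l, v, v', hvw.symm, e1, e2.trans (x2_symm hvw).symm⟩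
    | h2 k v w hvw =>
      induction b using Xv.ind with
      | h0 k' => exact fun h => h.elim
      | h1 k' v => exact fun h => h.elim
      | h2 k' v' w' hvw => exact fun h => h.elim
  rcases hab with h1 | h1
  · rcases key a b h1 with ⟨k, v, h2, h3⟩ | ⟨k, v, w, h2, h3, h4⟩
    · exact Or.inl ⟨k, v, Or.inl ⟨h2, h3⟩⟩
    · exact Or.inr ⟨k, v, w, h2, Or.inl ⟨h3, h4⟩⟩
  · rcases key b a h1 with ⟨k, v, h2, h3⟩ | ⟨k, v, w, h2, h3, h4⟩
    · exact Or.inl ⟨k, v, Or.inr ⟨h2, h3⟩⟩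
    · exact Or.inr ⟨k, v, w, h2, Or.inr ⟨h3, h4⟩⟩

/-- `K` is the colimit of its subgroups `D`, `A v` and of the subgroups generated by `A v` and `A w` for
the edges `{v, w}` -/
structure IsCol (Γ : SimpleGraph W) (A : W → Subgroup K) (D : Subgroup K) : Prop where
  gen : ⨆ v, A v = ⊤
  lift : ∀ (L : Type) [Group L] (g : ∀ v, A v →* L),
    (∀ v w, ∀ d ∈ D, ∀ (hv : d ∈ A v) (hw : d ∈ A w), g v ⟨d, hv⟩ = g w ⟨d, hw⟩) →
    (∀ v w, Γ.Adj v w → ∃ h : ↥(A v ⊔ A w) →* L,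
      (∀ a : A v, h (Subgroup.inclusion le_sup_left a) = g v a) ∧
      ∀ a : A w, h (Subgroup.inclusion le_sup_right a) = g w a) →
    ∃ h : K →* L, ∀ (v : W) (a : A v), h a = g v a

theorem connX (hK : IsCol Γ A D) : (XG Γ A D).Connected := by
  have h1 : ∀ k : K, (XG Γ A D).Reachable (x0 Γ A D 1) (x0 Γ A D k) := by
    let S : Subgroup K := {
      carrier := {g | ∀ k, (XG Γ A D).Reachable (x0 Γ A D k) (x0 Γ A D (k * g))}
      one_mem' := fun k => by rw [mul_one]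
      mul_mem' := fun {a b} ha hb k => by
        rw [← mul_assoc]
        exact (ha k).trans (hb (k * a))
      inv_mem' := fun {a} ha k => by
        have := ha (k * a⁻¹)
        rw [inv_mul_cancel_right] at this
        exact this.symm }
    have hS : (⊤ : Subgroup K) ≤ S := by
      rw [← hK.gen]
      refine iSup_le fun v a ha k => ?_
      have e : x1 Γ A D (k * a) v = x1 Γ A D k v := x1_eq (by
        rw [inv_mul_cancel_left]
        exact ha)
      refine (adj01 k v).reachable.trans ?_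
      rw [← e]
      exact (adj01 (k * a) v).symm.reachable
    intro k
    have := hS (Subgroup.mem_top k) 1
    rwa [one_mul] at this
  have h2 : ∀ a, (XG Γ A D).Reachable (x0 Γ A D 1) a := by
    refine Xv.ind h1 ?_ ?_
    · exact fun k v => (h1 k).trans (adj01 k v).reachable
    · exact fun k v w h => ((h1 k).trans (adj01 k v).reachable).trans (adj12 k h).reachable
  have hne : Nonempty (Xv Γ A D) := ⟨x0 Γ A D 1⟩
  exact ⟨fun a b => (h2 a).symm.trans (h2 b)⟩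

section

variable {L : Type} [Group L] (c : Xv Γ A D → Xv Γ A D → L)

/-- the transport along an element of a vertex group -/
def t1 (v : W) (k a : K) : L :=
  c (x0 Γ A D k) (x1 Γ A D k v) * c (x1 Γ A D k v) (x0 Γ A D (k * a))

/-- the transport to the coset of the edge group -/
def u1 {v w : W} (h : Γ.Adj v w) (k : K) : L :=
  c (x0 Γ A D k) (x1 Γ A D k v) * c (x1 Γ A D k v) (x2 A D k h)

variable {c}

theorem cinv (hc : Coc (XG Γ A D) (XF Γ A D) c) {a b : Xv Γ A D} (h : (XG Γ A D).Adj a b) :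
    c b a = (c a b)⁻¹ := (inv_eq_of_mul_eq_one_right (hc.inv a b h)).symm

theorem t1_mul (hc : Coc (XG Γ A D) (XF Γ A D) c) {v : W} {k a b : K} (ha : a ∈ A v) :
    t1 c v k (a * b) = t1 c v k a * t1 c v (k * a) b := by
  unfold t1
  have e : x1 Γ A D (k * a) v = x1 Γ A D k v := x1_eq (by
    rw [inv_mul_cancel_left]
    exact ha)
  have h1 := adj01 (Γ := Γ) (A := A) (D := D) (k * a) v
  rw [e] at h1 ⊢
  rw [cinv hc h1, mul_assoc k a b]
  group

theorem t1_D (hc : Coc (XG Γ A D) (XF Γ A D) c) {v : W} {k a : K} (ha : a ∈ D) :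
    t1 c v k a = 1 := by
  unfold t1
  have e : x0 Γ A D (k * a) = x0 Γ A D k := x0_eq (by
    rw [inv_mul_cancel_left]
    exact ha)
  rw [e, cinv hc (adj01 k v), mul_inv_cancel]

theorem u1_symm (hcub : Cub (XG Γ A D) (XF Γ A D)) (hc : Coc (XG Γ A D) (XF Γ A D) c) {v w : W}
    (h : Γ.Adj v w) (k : K) : u1 c h.symm k = u1 c h k := by
  unfold u1
  rw [x2_symm h]
  let ψ : ℤ → Xv Γ A D := fun i => if i % 4 = 0 then x0 Γ A D k else if i % 4 = 1 then x1 Γ A D k v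
    else if i % 4 = 2 then x2 A D k h else x1 Γ A D k w
  have hψ : ψ ∈ XF Γ A D := by
    refine ⟨k, v, w, h, 0, fun i => ?_⟩
    show (if i % 4 = 0 then x0 Γ A D k else if i % 4 = 1 then x1 Γ A D k v
      else if i % 4 = 2 then x2 A D k h else x1 Γ A D k w : Xv Γ A D).1 = _
    rw [add_zero, bx]
    split_ifs
    · rfl
    · rfl
    · rfl
    · rfl
  have := hc.face ψ hψ 4 (hcub.per ψ hψ)
  rw [wrap4] at this
  have w0 : ψ 0 = x0 Γ A D k := rfl
  have w1 : ψ 1 = x1 Γ A D k v := rfl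
  have w2 : ψ 2 = x2 A D k h := rfl
  have w3 : ψ 3 = x1 Γ A D k w := rfl
  have w4 : ψ 4 = x0 Γ A D k := rfl
  rw [w0, w1, w2, w3, w4] at this
  have a1 := adj12 (A := A) (D := D) k h.symm
  rw [x2_symm h] at a1
  rw [cinv hc a1, cinv hc (adj01 k w)] at this
  have i3 : c (x0 Γ A D k) (x1 Γ A D k v) * c (x1 Γ A D k v) (x2 A D k h) *
      (c (x0 Γ A D k) (x1 Γ A D k w) * c (x1 Γ A D k w) (x2 A D k h))⁻¹ = 1 := by
    rw [← this]
    group
  exact (mul_inv_eq_one.1 i3).symm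

theorem t1_u1 (hc : Coc (XG Γ A D) (XF Γ A D) c) {v w : W} (h : Γ.Adj v w) {k a : K}
    (ha : a ∈ A v) : t1 c v k a = u1 c h k * (u1 c h (k * a))⁻¹ := by
  unfold t1 u1
  have e : x1 Γ A D (k * a) v = x1 Γ A D k v := x1_eq (by
    rw [inv_mul_cancel_left]
    exact ha)
  have e2 : x2 A D (k * a) h = x2 A D k h := x2_eq h (by
    rw [inv_mul_cancel_left]
    exact Subgroup.mem_sup_left ha)
  have h1 := adj01 (Γ := Γ) (A := A) (D := D) (k * a) v
  rw [e] at h1 ⊢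
  rw [e2, cinv hc h1]
  group

theorem u1_cob (hcub : Cub (XG Γ A D) (XF Γ A D)) (hc : Coc (XG Γ A D) (XF Γ A D) c) {f : K → L}
    (hf : ∀ k v, ∀ a ∈ A v, f (k * a) = f k * t1 c v k a) {v w : W} (h : Γ.Adj v w) {g : K}
    (hg : g ∈ A v ⊔ A w) (k : K) : f (k * g) * u1 c h (k * g) = f k * u1 c h k := by
  let S : Subgroup K := {
    carrier := {g | ∀ k, f (k * g) * u1 c h (k * g) = f k * u1 c h k}
    one_mem' := fun k => by rw [mul_one]
    mul_mem' := fun {a b} ha hb k => by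
      rw [← mul_assoc]
      exact (hb (k * a)).trans (ha k)
    inv_mem' := fun {a} ha k => by
      have := ha (k * a⁻¹)
      rw [inv_mul_cancel_right] at this
      exact this.symm }
  have hS : A v ⊔ A w ≤ S := by
    refine sup_le ?_ ?_
    · intro a ha k
      rw [hf k v a ha, t1_u1 hc h ha]
      group
    · intro a ha k
      rw [hf k w a ha, t1_u1 hc h.symm ha, u1_symm hcub hc h, u1_symm hcub hc h]
      group
  exact hS hg k

/-- the action of an element on pairs -/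
theorem exists_pot (hK : IsCol Γ A D) (hcub : Cub (XG Γ A D) (XF Γ A D))
    (hc : Coc (XG Γ A D) (XF Γ A D) c) :
    ∃ f : K → L, ∀ k v, ∀ a ∈ A v, f (k * a) = f k * t1 c v k a := by
  -- permutations of pairs
  have mk : ∀ (B : Subgroup K) (τ : K → K → L),
      (∀ k, ∀ a ∈ B, ∀ b ∈ B, τ k (a * b) = τ k a * τ (k * a) b) →
      ∃ g : B →* Equiv.Perm (K × L), ∀ (a : B) (k : K) (l : L),
        g a (k, l) = (k * (a : K)⁻¹, l * τ k (a : K)⁻¹) := by
    intro B τ hτ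
    have hτ1 : ∀ k, τ k 1 = 1 := by
      intro k
      have := hτ k 1 B.one_mem 1 B.one_mem
      rw [mul_one, mul_one] at this
      exact mul_eq_left.1 this.symm
    let m : B → K × L → K × L := fun a p => (p.1 * (a : K)⁻¹, p.2 * τ p.1 (a : K)⁻¹)
    have m1 : ∀ p, m 1 p = p := by
      intro p
      show (p.1 * ((1 : B) : K)⁻¹, p.2 * τ p.1 ((1 : B) : K)⁻¹) = p
      rw [Subgroup.coe_one, inv_one, mul_one, hτ1, mul_one]
    have m2 : ∀ a b p, m (a * b) p = m a (m b p) := by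
      intro a b p
      show (p.1 * ((a * b : B) : K)⁻¹, p.2 * τ p.1 ((a * b : B) : K)⁻¹) =
        (p.1 * (b : K)⁻¹ * (a : K)⁻¹, p.2 * τ p.1 (b : K)⁻¹ * τ (p.1 * (b : K)⁻¹) (a : K)⁻¹)
      rw [Subgroup.coe_mul, mul_inv_rev, hτ _ _ (B.inv_mem b.2) _ (B.inv_mem a.2), mul_assoc,
        mul_assoc]
    refine ⟨{
      toFun := fun a => ⟨m a, m a⁻¹, fun p => by rw [← m2, inv_mul_cancel, m1],
        fun p => by rw [← m2, mul_inv_cancel, m1]⟩
      map_one' := Equiv.ext m1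
      map_mul' := fun a b => Equiv.ext (m2 a b) }, fun a k l => rfl⟩
  have hv : ∀ v, ∃ g : A v →* Equiv.Perm (K × L), ∀ (a : A v) (k : K) (l : L),
      g a (k, l) = (k * (a : K)⁻¹, l * t1 c v k (a : K)⁻¹) := fun v =>
    mk (A v) (fun k a => t1 c v k a) fun k a ha b _ => t1_mul hc ha
  choose g hg using hv
  obtain ⟨Φ, hΦ⟩ := hK.lift (Equiv.Perm (K × L)) g (by
    intro v w d hd hv hw
    refine Equiv.ext fun p => ?_
    obtain ⟨k, l⟩ := p
    rw [hg, hg]
    show (k * d⁻¹, l * t1 c v k d⁻¹) = (k * d⁻¹, l * t1 c w k d⁻¹)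
    rw [t1_D hc (D.inv_mem hd), t1_D hc (D.inv_mem hd)]) (by
    intro v w hvw
    obtain ⟨h, hh⟩ := mk (A v ⊔ A w) (fun k a => u1 c hvw k * (u1 c hvw (k * a))⁻¹) (by
      intro k a _ b _
      show u1 c hvw k * (u1 c hvw (k * (a * b)))⁻¹ = u1 c hvw k * (u1 c hvw (k * a))⁻¹ *
        (u1 c hvw (k * a) * (u1 c hvw (k * a * b))⁻¹)
      rw [mul_assoc k a b]
      group)
    refine ⟨h, ?_, ?_⟩
    · intro a
      refine Equiv.ext fun p => ?_
      obtain ⟨k, l⟩ := p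
      rw [hh, hg]
      show (k * (a : K)⁻¹, l * (u1 c hvw k * (u1 c hvw (k * (a : K)⁻¹))⁻¹)) = _
      rw [t1_u1 hc hvw ((A v).inv_mem a.2)]
    · intro a
      refine Equiv.ext fun p => ?_
      obtain ⟨k, l⟩ := p
      rw [hh, hg]
      show (k * (a : K)⁻¹, l * (u1 c hvw k * (u1 c hvw (k * (a : K)⁻¹))⁻¹)) = _
      rw [t1_u1 hc hvw.symm ((A w).inv_mem a.2), u1_symm hcub hc hvw, u1_symm hcub hc hvw])
  have hfst : ∀ (x : K) (p : K × L), (Φ x p).1 = p.1 * x⁻¹ := by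
    let S : Subgroup K := {
      carrier := {x | ∀ p : K × L, (Φ x p).1 = p.1 * x⁻¹}
      one_mem' := fun p => by rw [map_one, inv_one, mul_one]; rfl
      mul_mem' := fun {a b} ha hb p => by
        have ha' : ∀ p : K × L, (Φ a p).1 = p.1 * a⁻¹ := ha
        have hb' : ∀ p : K × L, (Φ b p).1 = p.1 * b⁻¹ := hb
        rw [map_mul, Equiv.Perm.mul_apply, ha', hb', mul_inv_rev, mul_assoc]
      inv_mem' := fun {a} ha p => by
        have ha' : ∀ p : K × L, (Φ a p).1 = p.1 * a⁻¹ := ha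
        have := ha' (Φ a⁻¹ p)
        rw [← Equiv.Perm.mul_apply, ← map_mul, mul_inv_cancel, map_one] at this
        have h2 : p.1 = (Φ a⁻¹ p).1 * a⁻¹ := this
        rw [h2]
        group }
    have hS : (⊤ : Subgroup K) ≤ S := by
      rw [← hK.gen]
      refine iSup_le fun v a ha p => ?_
      have := hΦ v ⟨a, ha⟩
      have h1 : Φ a = g v ⟨a, ha⟩ := this
      show (Φ a p).1 = _
      rw [h1, show p = (p.1, p.2) from rfl, hg]
    intro x
    exact hS (Subgroup.mem_top x)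
  refine ⟨fun k => (Φ k⁻¹ (1, 1)).2, fun k v a ha => ?_⟩
  have h1 : Φ k⁻¹ (1, 1) = (k, (Φ k⁻¹ (1, 1)).2) := by
    refine Prod.ext ?_ rfl
    rw [hfst]
    simp
  have h2 : Φ (k * a)⁻¹ (1, 1) = Φ a⁻¹ (Φ k⁻¹ (1, 1)) := by
    rw [mul_inv_rev, map_mul, Equiv.Perm.mul_apply]
  have h3 : Φ a⁻¹ = g v ⟨a⁻¹, (A v).inv_mem ha⟩ := hΦ v ⟨a⁻¹, (A v).inv_mem ha⟩
  show (Φ (k * a)⁻¹ (1, 1)).2 = (Φ k⁻¹ (1, 1)).2 * t1 c v k a
  rw [h2, h1, h3, hg]
  show _ * t1 c v k (a⁻¹)⁻¹ = _ * t1 c v k a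
  rw [inv_inv]

/-- the values of the potential -/
def Rx (c : Xv Γ A D → Xv Γ A D → L) (f : K → L) (a : Xv Γ A D) (l : L) : Prop :=
  (∃ k, a = x0 Γ A D k ∧ l = f k) ∨
  (∃ k v, a = x1 Γ A D k v ∧ l = f k * c (x0 Γ A D k) (x1 Γ A D k v)) ∨
  (∃ k v w, ∃ h : Γ.Adj v w, a = x2 A D k h ∧ l = f k * u1 c h k)

theorem Rx_uniq [Nonempty W] (hD : ∀ v, D ≤ A v) (hcub : Cub (XG Γ A D) (XF Γ A D)) (hc : Coc (XG Γ A D) (XF Γ A D) c) {f : K → L}
    (hf : ∀ k v, ∀ a ∈ A v, f (k * a) = f k * t1 c v k a) {a : Xv Γ A D} {l l' : L}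
    (h1 : Rx c f a l) (h2 : Rx c f a l') : l = l' := by
  rcases h1 with ⟨k, rfl, rfl⟩ | ⟨k, v, rfl, rfl⟩ | ⟨k, v, w, hvw, rfl, rfl⟩
  · rcases h2 with ⟨k', e, rfl⟩ | ⟨k', v', e, rfl⟩ | ⟨k', v', w', hvw', e, rfl⟩
    · have h3 : cs k D = cs k' D := Sum.inl_injective (congrArg Subtype.val e)
      have h4 : k'⁻¹ * k ∈ D := cs_mem h3
      obtain ⟨v⟩ := ‹Nonempty W›
      have h5 := hf k' v _ (hD v h4)
      rw [mul_inv_cancel_left, t1_D hc h4, mul_one] at h5
      exact h5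
    · have := congrArg Subtype.val e
      cases this
    · have := congrArg Subtype.val e
      cases this
  · rcases h2 with ⟨k', e, rfl⟩ | ⟨k', v', e, rfl⟩ | ⟨k', v', w', hvw', e, rfl⟩
    · have := congrArg Subtype.val e
      cases this
    · have e1 := inj1 (congrArg Subtype.val e)
      have e2 : v = v' := congrArg Prod.fst e1
      subst e2
      have e3 : cs k (A v) = cs k' (A v) := congrArg Prod.snd e1
      have e4 : k'⁻¹ * k ∈ A v := cs_mem e3
      have e5 := hf k' v _ e4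
      rw [mul_inv_cancel_left] at e5
      have e6 : x1 Γ A D k v = x1 Γ A D k' v := x1_eq e4
      have h1 := adj01 (Γ := Γ) (A := A) (D := D) k v
      rw [e6] at h1 ⊢
      rw [e5, t1, mul_inv_cancel_left, cinv hc h1]
      group
    · have := inj1 (K := K) (W := W) (p := (v, cs k (A v))) (q := (v, cs k (A v))) rfl
      have := congrArg Subtype.val e
      have := Sum.inr_injective this
      cases this
  · rcases h2 with ⟨k', e, rfl⟩ | ⟨k', v', e, rfl⟩ | ⟨k', v', w', hvw', e, rfl⟩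
    · have := congrArg Subtype.val e
      cases this
    · have := congrArg Subtype.val e
      have := Sum.inr_injective this
      cases this
    · have e1 := inj2 (congrArg Subtype.val e)
      have e2 : s(v, w) = s(v', w') := congrArg Prod.fst e1
      have e3 : cs k (Eg A s(v, w)) = cs k' (Eg A s(v', w')) := congrArg Prod.snd e1
      rw [← e2] at e3
      have e4 : k'⁻¹ * k ∈ A v ⊔ A w := cs_mem e3
      have e5 := u1_cob hcub hc hf hvw e4 k'
      rw [mul_inv_cancel_left] at e5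
      rw [e5]
      rw [Sym2.eq_iff] at e2
      rcases e2 with ⟨rfl, rfl⟩ | ⟨rfl, rfl⟩
      · rfl
      · rw [u1_symm hcub hc hvw']

end

theorem scX [Nonempty W] (hD : ∀ v, D ≤ A v) (hK : IsCol Γ A D) (hcub : Cub (XG Γ A D) (XF Γ A D)) : SC (XG Γ A D) (XF Γ A D) := by
  refine ⟨connX hK, ?_⟩
  intro L _ c hc
  obtain ⟨f, hf⟩ := exists_pot hK hcub hc
  have hex : ∀ a, ∃ l, Rx c f a l := by
    refine Xv.ind ?_ ?_ ?_
    · exact fun k => ⟨_, Or.inl ⟨k, rfl, rfl⟩⟩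
    · exact fun k v => ⟨_, Or.inr (Or.inl ⟨k, v, rfl, rfl⟩)⟩
    · exact fun k v w h => ⟨_, Or.inr (Or.inr ⟨k, v, w, h, rfl, rfl⟩)⟩
  choose g hg using hex
  have key : ∀ {a l}, Rx c f a l → g a = l := fun hl => Rx_uniq hD hcub hc hf (hg _) hl
  refine ⟨g, ?_⟩
  have inv' : ∀ a b, (XG Γ A D).Adj a b → c a b = (g a)⁻¹ * g b → c b a = (g b)⁻¹ * g a := by
    intro a b hab he
    rw [cinv hc hab, he]
    group
  intro a b hab
  rcases xg_cases hab with ⟨k, v, ⟨rfl, rfl⟩ | ⟨rfl, rfl⟩⟩ | ⟨k, v, w, h, ⟨rfl, rfl⟩ | ⟨rfl, rfl⟩⟩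
  · rw [key (Or.inl ⟨k, rfl, rfl⟩), key (Or.inr (Or.inl ⟨k, v, rfl, rfl⟩))]
    group
  · refine inv' _ _ hab.symm ?_
    rw [key (Or.inl ⟨k, rfl, rfl⟩), key (Or.inr (Or.inl ⟨k, v, rfl, rfl⟩))]
    group
  · rw [key (Or.inr (Or.inl ⟨k, v, rfl, rfl⟩)), key (Or.inr (Or.inr ⟨k, v, w, h, rfl, rfl⟩)), u1]
    group
  · refine inv' _ _ hab.symm ?_
    rw [key (Or.inr (Or.inl ⟨k, v, rfl, rfl⟩)), key (Or.inr (Or.inr ⟨k, v, w, h, rfl, rfl⟩)), u1]
    group

/-- **colimits over triangle-free graphs** -/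
theorem col_mem {C : ∀ (G : Type) [Group G], Prop} (hC : ClosedE C) (hF : FbC C) (hcat : CatC C)
    (hK : IsCol Γ A D) (htri : ∀ u v w, Γ.Adj u v → Γ.Adj v w → Γ.Adj w u → False)
    [Nonempty W] (hD : ∀ v, D ≤ A v) (hint : ∀ v w, Γ.Adj v w → A v ⊓ A w = D)
    (h1 : ∀ v, ∃ (P : Type) (_ : Group P) (f : K →* P), C P ∧ ∀ g ∈ A v, f g = 1 → g = 1)
    (h2 : ∀ v w, Γ.Adj v w → ∃ (P : Type) (_ : Group P) (f : K →* P), C P ∧
      ∀ g ∈ A v ⊔ A w, f g = 1 → g = 1) : C K := by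
  have hcub := cubX htri hD hint
  refine main0 (T := XG Γ A D) (F := XF Γ A D) hC hF hcat hcub (scX hD hK hcub) acX tydX ?_
  have cj : ∀ {P : Type} [Group P] (f : K →* P) (B : Subgroup K)
      (_ : ∀ g ∈ B, f g = 1 → g = 1) (g k : K), cs (g * k) B = cs k B → f g = 1 → g = 1 := by
    intro P _ f B hf g k hk h
    have h3 : k⁻¹ * (g * k) ∈ B := cs_mem hk
    have h4 := hf _ h3 (by rw [map_mul, map_mul, h, one_mul, ← map_mul, inv_mul_cancel, map_one])
    have h5 : g * k = k := (inv_mul_eq_one.1 h4).symm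
    exact mul_eq_right.1 h5
  intro a
  induction a using Xv.ind with
  | h0 k =>
    obtain ⟨v⟩ := ‹Nonempty W›
    obtain ⟨P, _, f, hP, hf⟩ := h1 v
    refine ⟨P, inferInstance, f, hP, fun g hg h => ?_⟩
    have h3 : ux g (Sum.inl (cs k D) : X K W) = Sum.inl (cs k D) := congrArg Subtype.val hg
    rw [ux0] at h3
    exact cj f D (fun x hx => hf x (hD v hx)) g k (Sum.inl_injective h3) h
  | h1 k v =>
    obtain ⟨P, _, f, hP, hf⟩ := h1 v
    refine ⟨P, inferInstance, f, hP, fun g hg h => ?_⟩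
    have h3 : ux g (Sum.inr (Sum.inl (v, cs k (A v))) : X K W) =
      Sum.inr (Sum.inl (v, cs k (A v))) := congrArg Subtype.val hg
    rw [ux1] at h3
    exact cj f (A v) hf g k (congrArg Prod.snd (inj1 h3)) h
  | h2 k v w hvw =>
    obtain ⟨P, _, f, hP, hf⟩ := h2 v w hvw
    refine ⟨P, inferInstance, f, hP, fun g hg h => ?_⟩
    have h3 : ux g (Sum.inr (Sum.inr (s(v, w), cs k (Eg A s(v, w)))) : X K W) =
      Sum.inr (Sum.inr (s(v, w), cs k (Eg A s(v, w)))) := congrArg Subtype.val hg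
    rw [ux2] at h3
    exact cj f (A v ⊔ A w) hf g k (congrArg Prod.snd (inj2 h3)) h

end

end Run7.h909.SQ
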