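import Pool.Agent.Run7.h909.TT.Cyc

/-!
# Square complexes of nonpositive curvature
-/

set_option autoImplicit false

namespace Run7.h909.SQ

open SimpleGraph Run7.h909.TD Run7.h909.TT
open Pool.Agent.H386R3.CC

/-- A square complex of nonpositive curvature with the graph `T` and the set `F` of squares, given by
their closed boundary paths `φ` with all their shifts and their inverses: two squares with a common
corner are equal, and the links of the vertices contain no triangles. -/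
structure Cub {V : Type} (T : SimpleGraph V) (F : Set (ℤ → V)) : Prop where
  adj : ∀ φ ∈ F, ∀ i : ℤ, T.Adj (φ i) (φ (i + 1))
  per : ∀ φ ∈ F, Per φ 4
  shift : ∀ φ ∈ F, ∀ k : ℤ, (fun i => φ (i + k)) ∈ F
  refl : ∀ φ ∈ F, (fun i => φ (-i)) ∈ F
  corner : ∀ φ ∈ F, ∀ ψ ∈ F, φ 0 = ψ 0 → φ 1 = ψ 1 → φ (-1) = ψ (-1) → φ = ψ
  tri : ∀ φ ∈ F, ∀ ψ ∈ F, ∀ χ ∈ F, φ 0 = ψ 0 → ψ 0 = χ 0 → φ 1 = ψ (-1) → ψ 1 = χ (-1) →
    χ 1 = φ (-1) → False

section

variable {V : Type} {T : SimpleGraph V} {F : Set (ℤ → V)}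

theorem Cub.cx (h : Cub T F) : Cx T F (fun _ _ => 1) (fun _ => Real.pi / 2) := by
  constructor
  · exact h.adj
  · exact fun φ hφ => ⟨4, by norm_num, h.per φ hφ⟩
  · exact h.shift
  · exact h.refl
  · exact fun _ _ _ => ⟨one_pos, rfl⟩
  · intro φ _
    have := Real.pi_pos
    exact ⟨by linarith, by linarith, rfl⟩
  · intro φ hφ n hn
    have hn4 : n = 4 := hn.unique (h.per φ hφ)
    subst hn4
    refine ⟨fun k => k * (Real.pi / 2), ?_, ?_, ?_⟩
    · intro k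
      push_cast
      ring
    · push_cast
      ring
    · have hE : ∀ k : ℕ, Complex.exp ((((k : ℤ) : ℝ) * (Real.pi / 2) : ℝ) * Complex.I) =
          Complex.I ^ k := by
        intro k
        have : ((((k : ℤ) : ℝ) * (Real.pi / 2) : ℝ) : ℂ) * Complex.I =
            (k : ℂ) * (Real.pi / 2 * Complex.I) := by
          push_cast
          ring
        rw [this, Complex.exp_nat_mul, Complex.exp_pi_div_two_mul_I]
      simp only [hE]
      simp [Finset.sum_range_succ, pow_succ]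
  · exact h.corner
  · intro b k hk a ha ψ hψ
    have hpi := Real.pi_pos
    have hk4 : 4 ≤ k := by
      by_contra hlt
      have hk3 : k = 3 := by omega
      subst hk3
      obtain ⟨f0, c0, m0, p0⟩ := hψ 0
      obtain ⟨f1, c1, m1, p1⟩ := hψ 1
      obtain ⟨f2, c2, m2, p2⟩ := hψ 2
      have h3 : a 3 = a 0 := (ha _ _).2 ⟨1, by norm_num⟩
      norm_num at p0 p1 p2
      exact h.tri _ f0 _ f1 _ f2 (c0.trans c1.symm) (c1.trans c2.symm) (p0.trans m1.symm)
        (p1.trans m2.symm) ((p2.trans h3).trans m0.symm)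
    rw [Finset.sum_const, Finset.card_range, nsmul_eq_mul]
    have : (4 : ℝ) ≤ k := by exact_mod_cast hk4
    nlinarith

theorem Cub.m1 (h : Cub T F) {φ : ℤ → V} (hφ : φ ∈ F) : φ (-1) = φ 3 :=
  per4_eq (h.per φ hφ) (by norm_num)

theorem Cub.e4 (h : Cub T F) {φ : ℤ → V} (hφ : φ ∈ F) : φ 4 = φ 0 :=
  per4_eq (h.per φ hφ) (by norm_num)

theorem Cub.sq_rot (h : Cub T F) {x y z w : V} (hs : Sq F x y z w) : Sq F y z w x := by
  obtain ⟨φ, hφ, rfl, rfl, rfl, rfl⟩ := hs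
  refine ⟨_, h.shift φ hφ 1, ?_, ?_, ?_, ?_⟩
  · show φ (0 + 1) = _
    norm_num
  · show φ (1 + 1) = _
    norm_num
  · show φ (2 + 1) = _
    norm_num
  · show φ (3 + 1) = _
    norm_num
    exact h.e4 hφ

theorem Cub.sq_rev (h : Cub T F) {x y z w : V} (hs : Sq F x y z w) : Sq F w z y x := by
  obtain ⟨φ, hφ, rfl, rfl, rfl, rfl⟩ := hs
  refine ⟨_, h.refl _ (h.shift φ hφ 3), ?_, ?_, ?_, ?_⟩
  · show φ (-0 + 3) = _
    norm_num
  · show φ (-1 + 3) = _
    norm_num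
  · show φ (-2 + 3) = _
    norm_num
  · show φ (-3 + 3) = _
    norm_num

theorem Cub.sq_adj (h : Cub T F) {x y z w : V} (hs : Sq F x y z w) : T.Adj x y := by
  obtain ⟨φ, hφ, rfl, rfl, rfl, rfl⟩ := hs
  have := h.adj φ hφ 0
  rwa [zero_add] at this

theorem Cub.sq_ne (h : Cub T F) {x y z w : V} (hs : Sq F x y z w) : x ≠ z := by
  obtain ⟨φ, hφ, rfl, rfl, rfl, rfl⟩ := hs
  intro he
  have := (h.per φ hφ _ _).1 he
  omega

theorem Cub.sq_uniq (h : Cub T F) {x y z z' w : V} (hs : Sq F x y z w) (hs' : Sq F x y z' w) :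
    z = z' := by
  obtain ⟨φ, hφ, h0, h1, h2, h3⟩ := hs
  obtain ⟨ψ, hψ, g0, g1, g2, g3⟩ := hs'
  have := h.corner φ hφ ψ hψ (h0.trans g0.symm) (h1.trans g1.symm)
    (by rw [h.m1 hφ, h.m1 hψ, h3, g3])
  rw [← h2, ← g2, this]

/-- no triangles in the links -/
theorem Cub.sq_tri (h : Cub T F) {x a b c p q r : V} (h1 : Sq F x a p b) (h2 : Sq F x b q c)
    (h3 : Sq F x c r a) : False := by
  obtain ⟨φ, hφ, a0, a1, -, a3⟩ := h1
  obtain ⟨ψ, hψ, b0, b1, -, b3⟩ := h2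
  obtain ⟨χ, hχ, c0, c1, -, c3⟩ := h3
  refine h.tri _ hφ _ hχ _ hψ (a0.trans c0.symm) (c0.trans b0.symm) ?_ ?_ ?_
  · rw [h.m1 hχ, a1, c3]
  · rw [h.m1 hψ, c1, b3]
  · rw [h.m1 hφ, b1, a3]

theorem Cub.sq_tr (h : Cub T F) {x y z w : V} (hs : Sq F x y z w) : Sq F x w z y :=
  h.sq_rot (h.sq_rot (h.sq_rot (h.sq_rev hs)))

/-- the squares, for the theory of flips -/
def Cub.sqs (h : Cub T F) : SqS V where
  sq := Sq F
  rot := h.sq_rot
  rev := h.sq_rev
  ne := h.sq_ne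
  uniq := h.sq_uniq
  cube := by
    intro x a b c p q r h1 h2 h3
    exact (h.sq_tri h1 h2 (h.sq_tr h3)).elim

end

end Run7.h909.SQ
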