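import Pool.Agent.Run7.h909.SQ.Main

/-!
# Actions on square complexes: general actions
-/

set_option autoImplicit false

namespace Run7.h909.SQ

open SimpleGraph Run7.h909.TD
open Pool.Agent.Y110.FJ (ClosedE)
open Pool.Agent.Y462.SS (Closed)
open Pool.Agent.R684.FP (FbC)
open Run7.h909.TT (per4_eq)

section

variable {G V : Type} [Group G] [MulAction G V] {T : SimpleGraph V} {F : Set (ℤ → V)}

/-- two vertices of a cell -/
def InCell (T : SimpleGraph V) (F : Set (ℤ → V)) (x y : V) : Prop :=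
  x = y ∨ T.Adj x y ∨ ∃ φ ∈ F, φ 0 = x ∧ φ 2 = y

/-- the element preserves the pair -/
def Prs {G V : Type} [Group G] [MulAction G V] (g : G) (x y : V) : Prop :=
  (g • x = x ∧ g • y = y) ∨ (g • x = y ∧ g • y = x)

/-- the elements preserving a square -/
theorem pres_sq (hQ : Cub T F) {φ : ℤ → V} (hφ : φ ∈ F) {g : G} (hg : pa g φ ∈ cls φ)
    (h01 : Prs g (φ 0) (φ 1) → g = 1) (h03 : Prs g (φ 0) (φ 3) → g = 1)
    (h02 : Prs g (φ 0) (φ 2) → g = 1) (h02' : Prs (g * g) (φ 0) (φ 2) → g * g = 1) : g = 1 := by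
  have hp := hQ.per φ hφ
  obtain ⟨k, hk | hk⟩ := hg
  · have hk' : ∀ i, g • φ i = φ (i + k) := hk
    have hodd : k % 4 = 1 ∨ k % 4 = 3 → g = 1 := by
      intro ho
      exfalso
      have e0 : (g * g) • φ 0 = φ 2 := by
        rw [mul_smul, hk', hk']
        exact per4_eq hp (by omega)
      have e2 : (g * g) • φ 2 = φ 0 := by
        rw [mul_smul, hk', hk']
        exact per4_eq hp (by omega)
      have e1 := h02' (Or.inr ⟨e0, e2⟩)
      rw [e1, one_smul] at e0
      have := (hp _ _).1 e0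
      omega
    rcases mod4' k with e | e | e | e
    · refine h02 (Or.inl ⟨?_, ?_⟩)
      · rw [hk']; exact per4_eq hp (by omega)
      · rw [hk']; exact per4_eq hp (by omega)
    · exact hodd (Or.inl e)
    · refine h02 (Or.inr ⟨?_, ?_⟩)
      · rw [hk']; exact per4_eq hp (by omega)
      · rw [hk']; exact per4_eq hp (by omega)
    · exact hodd (Or.inr e)
  · have hk' : ∀ i, g • φ i = φ (k - i) := hk
    rcases mod4' k with e | e | e | e
    · refine h02 (Or.inl ⟨?_, ?_⟩)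
      · rw [hk']; exact per4_eq hp (by omega)
      · rw [hk']; exact per4_eq hp (by omega)
    · refine h01 (Or.inr ⟨?_, ?_⟩)
      · rw [hk']; exact per4_eq hp (by omega)
      · rw [hk']; exact per4_eq hp (by omega)
    · refine h02 (Or.inr ⟨?_, ?_⟩)
      · rw [hk']; exact per4_eq hp (by omega)
      · rw [hk']; exact per4_eq hp (by omega)
    · refine h03 (Or.inr ⟨?_, ?_⟩)
      · rw [hk']; exact per4_eq hp (by omega)
      · rw [hk']; exact per4_eq hp (by omega)

/-- **groups acting on square complexes** -/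
theorem squares {C : ∀ (G : Type) [Group G], Prop} (hC : ClosedE C) (hF : FbC C) (hcat : CatC C)
    (hQ : Cub T F) (hs : SC T F) (hA : Ac G T F)
    (h : ∀ x y : V, InCell T F x y → ∃ (P : Type) (_ : Group P) (f : G →* P), C P ∧
      ∀ g : G, Prs g x y → f g = 1 → g = 1) : C G := by
  letI := sAct hA
  refine main0 (T := SG T F) (F := SF T F) hC hF hcat hQ.sub (SC.sub hQ hs) (sAc hA) (sTyd hA) ?_
  intro a
  induction a using Sv.ind with
  | h1 x =>
    obtain ⟨P, _, f, hP, hf⟩ := h x x (Or.inl rfl)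
    refine ⟨P, _, f, hP, fun g hg h1 => ?_⟩
    have hg' : g • x = x := Sum.inl_injective (congrArg Subtype.val hg)
    exact hf g (Or.inl ⟨hg', hg'⟩) h1
  | h2 x y hxy =>
    obtain ⟨P, _, f, hP, hf⟩ := h x y (Or.inr (Or.inl hxy))
    refine ⟨P, _, f, hP, fun g hg h1 => ?_⟩
    have h2 : s(g • x, g • y) = s(x, y) :=
      Sum.inl_injective (Sum.inr_injective (congrArg Subtype.val hg))
    exact hf g (Sym2.eq_iff.1 h2) h1
  | h3 φ hφ =>
    obtain ⟨P1, _, f1, hP1, hf1⟩ := h (φ 0) (φ 1) (Or.inr (Or.inl (hQ.adj01 hφ)))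
    obtain ⟨P3, _, f3, hP3, hf3⟩ := h (φ 0) (φ 3) (Or.inr (Or.inl (by
      rw [← hQ.m1 hφ]; exact hQ.adj0m hφ)))
    obtain ⟨P2, _, f2, hP2, hf2⟩ := h (φ 0) (φ 2) (Or.inr (Or.inr ⟨φ, hφ, rfl, rfl⟩))
    refine ⟨P1 × (P3 × P2), inferInstance, f1.prod (f3.prod f2),
      hC.base.prod _ _ hP1 (hC.base.prod _ _ hP3 hP2), fun g hg h1 => ?_⟩
    have hg' : ua g (Sum.inr (Sum.inr (cls φ)) : U V) = Sum.inr (Sum.inr (cls φ)) :=
      congrArg Subtype.val hg
    rw [ua_s] at hg'
    have hg2 : cls (pa g φ) = cls φ := Sum.inr_injective (Sum.inr_injective hg')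
    have e1 : f1 g = 1 := congrArg Prod.fst h1
    have e3 : f3 g = 1 := congrArg (fun p => p.2.1) h1
    have e2 : f2 g = 1 := congrArg (fun p => p.2.2) h1
    refine pres_sq hQ hφ (by rw [← hg2]; exact mem_cls _) (fun hh => hf1 g hh e1)
      (fun hh => hf3 g hh e3) (fun hh => hf2 g hh e2) (fun hh => hf2 _ hh ?_)
    rw [map_mul, e2, one_mul]

/-- **extensions** -/
theorem squares_ext {C : ∀ (G : Type) [Group G], Prop} (hC : ClosedE C) (hF : FbC C)
    (hcat : CatC C) (hQ : Cub T F) (hs : SC T F) (hA : Ac G T F) (N : Subgroup G) [N.Normal]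
    (hN : C (G ⧸ N)) (h : ∀ x y : V, InCell T F x y → ∀ g ∈ N, Prs g x y → g = 1) : C G :=
  squares hC hF hcat hQ hs hA fun x y hxy => ⟨G ⧸ N, inferInstance, QuotientGroup.mk' N, hN,
    fun g hg h1 => h x y hxy g ((QuotientGroup.eq_one_iff g).1 h1) hg⟩

end

end Run7.h909.SQ
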