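import Pool.Agent.Run7.h909.SQ.SubCc
import Pool.Agent.Run7.h909.TT.Main

/-!
# Actions on square complexes of nonpositive curvature
-/

set_option autoImplicit false

namespace Run7.h909.SQ

open SimpleGraph Run7.h909.TD
open Pool.Agent.Y110.FJ (ClosedE)
open Pool.Agent.Y462.SS (Closed)
open Pool.Agent.R684.FP (FbC)
open Run7.h909.TT (per4_eq per4_ext Jx Hj Sj Fj Fj_shift Fj_refl Aj colJ prJ exists_rep fk_ext fe_cover
  one_inj)

section

variable {V : Type} {S : SimpleGraph V} {Φ : Set (ℤ → V)}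

theorem cub_cover (h : Cub S Φ) (o : V) : Cub (DK S Φ o) (FK S Φ o) := by
  have hx := cx_cover h.cx o
  constructor
  · exact hx.adj
  · intro φ hφ
    have h1 := per_lift h.cx (φ := fun i => (φ i).1) hφ.1 (h.per _ hφ.1) hφ.2
    intro i j
    exact Subtype.ext_iff.trans (h1 i j)
  · exact hx.shift
  · exact hx.refl
  · exact hx.corner
  · intro φ hφ ψ hψ χ hχ a1 a2 a3 a4 a5
    have p : ∀ {z w : KS S Φ o}, z = w → z.1.1 = w.1.1 := fun e => by rw [e]
    exact h.tri _ hφ.1 _ hψ.1 _ hχ.1 (p a1) (p a2) (p a3) (p a4) (p a5)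

end

section

variable {G V : Type} [Group G] [MulAction G V] {T : SimpleGraph V} {F : Set (ℤ → V)}

theorem cub_sub (h : Cub T F) (i : Jx G V) : Cub (Sj T i) (Fj T F i) := by
  constructor
  · exact fun φ hφ k => hφ.2.1 k
  · exact fun φ hφ => h.per φ hφ.1
  · exact fun φ hφ k => Fj_shift h.shift i hφ k
  · exact fun φ hφ => Fj_refl h.refl i hφ
  · exact fun φ hφ ψ hψ => h.corner φ hφ.1 ψ hψ.1
  · exact fun φ hφ ψ hψ χ hχ => h.tri φ hφ.1 ψ hψ.1 χ hχ.1

theorem ff_cover (h : Cub T F) (hA : Ac G T F) (o : V) (i : Jx G V) :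
    ∃ P : Set (ℤ → KS (Sj T i) (Fj T F i) o), P.Finite ∧
      ∀ φ ∈ FK (Sj T i) (Fj T F i) o, ∃ γ : Gam (Aj hA i) o, (fun k => γ • φ k) ∈ P := by
  classical
  obtain ⟨R, s, hR⟩ := exists_rep (Aj hA i) o
  have hfin : {χ : ℤ → V | ∃ ψ ∈ i.2.2, ∃ r ∈ Finset.range 4, (χ = fun k => ψ (k + (r : ℕ))) ∨
      χ = fun k => ψ (-k + (r : ℕ))}.Finite := by
    refine Set.Finite.subset (s := ⋃ ψ ∈ (i.2.2 : Set (ℤ → V)), ⋃ r ∈ (Finset.range 4 : Set ℕ),
      {(fun k : ℤ => ψ (k + (r : ℕ)) : ℤ → V), (fun k : ℤ => ψ (-k + (r : ℕ)) : ℤ → V)}) ?_ ?_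
    · exact Set.Finite.biUnion (Finset.finite_toSet _) fun _ _ =>
        Set.Finite.biUnion (Finset.finite_toSet _) fun _ _ => Set.toFinite _
    · rintro χ ⟨ψ, hψ, r, hr, h1⟩
      simp only [Set.mem_iUnion]
      exact ⟨ψ, hψ, r, hr, h1⟩
  refine ⟨⋃ χ ∈ {χ : ℤ → V | ∃ ψ ∈ i.2.2, ∃ r ∈ Finset.range 4,
      (χ = fun k => ψ (k + (r : ℕ))) ∨ χ = fun k => ψ (-k + (r : ℕ))},
    {φ | φ ∈ FK (Sj T i) (Fj T F i) o ∧ φ 0 = R (χ 0) ∧ ∀ k, (φ k).1.1 = (s (χ 0))⁻¹ • χ k},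
    Set.Finite.biUnion hfin ?_, ?_⟩
  · intro χ _
    refine Set.Subsingleton.finite ?_
    rintro φ ⟨h1, h2, h3⟩ φ' ⟨h1', h2', h3'⟩
    exact fk_ext h1 h1' (h2.trans h2'.symm) fun k => (h3 k).trans (h3' k).symm
  · intro φ hφ
    obtain ⟨a1, a2, g, hg, ψ, hψ, r, h3⟩ := hφ.1
    obtain ⟨γ, h4, h5⟩ := hR (φ 0) ⟨g, hg⟩
    have hper : ∀ k l : ℤ, k % 4 = l % 4 → (φ k).1.1 = (φ l).1.1 := fun k l hkl =>
      per4_eq (h.per _ a1) hkl
    refine ⟨γ, ?_⟩
    simp only [Set.mem_iUnion]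
    refine ⟨fun k => g • (φ k).1.1, ?_, (ac_cover (Aj hA i) o).face γ φ hφ, ?_, ?_⟩
    · refine ⟨ψ, hψ, (r % 4).toNat, Finset.mem_range.2 (by omega), ?_⟩
      have hr : (((r % 4).toNat : ℕ) : ℤ) = r % 4 := Int.toNat_of_nonneg (by omega)
      rw [hr]
      rcases h3 with h3 | h3
      · left
        funext k
        have e1 := h3 (k + (r % 4 - r))
        have e2 : k + (r % 4 - r) + r = k + r % 4 := by ring
        rw [e2] at e1
        rw [← e1, hper k (k + (r % 4 - r)) (by omega)]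
      · right
        funext k
        have e1 := h3 (k - (r % 4 - r))
        have e2 : -(k - (r % 4 - r)) + r = -k + r % 4 := by ring
        rw [e2] at e1
        rw [← e1, hper k (k - (r % 4 - r)) (by omega)]
    · exact h4
    · intro k
      show (γ • φ k).1.1 = _
      rw [smulK_fst, h5, mul_smul]
      rfl

theorem ty_cover (hA : Ac G T F) (ht : Tyd G T F) (o : V) (i : Jx G V) :
    Tyd (Gam (Aj hA i) o) (DK (Sj T i) (Fj T F i) o) (FK (Sj T i) (Fj T F i) o) := by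
  have key : ∀ (γ : Gam (Aj hA i) o) (x y : KS (Sj T i) (Fj T F i) o), γ • x = y →
      ((prH (Aj hA i) o γ : Hj (V := V) i) : G) • x.1.1 = y.1.1 := by
    rintro γ x y rfl
    rw [smulK_fst]
    rfl
  constructor
  · intro γ x y hxy he
    have a1 : (DG (Sj T i) (Fj T F i)).Adj x.1 y.1 := hxy
    exact ht.1 _ _ _ a1.1.1 (key γ x y he)
  · intro φ hφ
    rcases ht.2 _ hφ.1.1 with h1 | h1
    · exact Or.inl fun γ he => h1 _ (key γ _ _ he)
    · exact Or.inr fun γ he => h1 _ (key γ _ _ he)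

/-- **actions with cyclic stabilizers** -/
theorem cyc {C : ∀ (G : Type) [Group G], Prop} (hC : ClosedE C) (hF : FbC C) (hcat : CatC C)
    (h : Cub T F) (hs : SC T F) (hA : Ac G T F) (ht : Tyd G T F)
    (f : G →* Multiplicative ℤ) (hi : ∀ (g : G) (x : V), g • x = x → f g = 1 → g = 1) : C G := by
  obtain ⟨o⟩ := hs.1.nonempty
  refine colJ hC.base h.cx hA hs o fun i => ?_
  refine Cc0.memT (T := DK (Sj T i) (Fj T F i) o) (F := FK (Sj T i) (Fj T F i) o)
    (f := f.comp (prJ hA o i)) hC hF hcat ?_ (ty_cover hA ht o i)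
  exact {
    vh := cub_cover (cub_sub h i) o
    sc := sc_cover (TT.Cj h.cx i) o
    ac := ac_cover (Aj hA i) o
    inj := by
      intro γ z hγ hf
      have h1 : prH (Aj hA i) o γ • z.1.1 = z.1.1 := by rw [← smulK_fst, hγ]
      have h2 : ((prH (Aj hA i) o γ : Hj (V := V) i) : G) = 1 := hi _ _ h1 hf
      refine stab_inj (Aj hA i) o hγ (one_smul _ z) ?_
      rw [map_one]
      exact Subtype.ext h2
    fe := fe_cover hA o i
    ff := ff_cover h hA o i }

/-- **the theorem on square complexes** -/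
theorem main0 {C : ∀ (G : Type) [Group G], Prop} (hC : ClosedE C) (hF : FbC C) (hcat : CatC C)
    (hv : Cub T F) (hs : SC T F) (hA : Ac G T F) (ht : Tyd G T F)
    (h : ∀ x : V, ∃ (P : Type) (_ : Group P) (f : G →* P), C P ∧
      ∀ g : G, g • x = x → f g = 1 → g = 1) : C G := by
  classical
  obtain ⟨o⟩ := hs.1.nonempty
  refine colJ hC.base hv.cx hA hs o fun i => ?_
  have hvi := cub_cover (cub_sub hv i) o
  have hsi := sc_cover (TT.Cj hv.cx i) o
  have hAi := ac_cover (Aj hA i) o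
  have hti := ty_cover hA ht o i
  obtain ⟨P, _, f0, hP, hf0⟩ := one_inj hC.base h
    ({o} ∪ (i.2.1.image (fun e : V × V => e.1) ∪ i.2.1.image (fun e : V × V => e.2)))
  let f : Gam (Aj hA i) o →* P := f0.comp (prJ hA o i)
  have hfk : ∀ (z : KS (Sj T i) (Fj T F i) o) (γ : Gam (Aj hA i) o), γ • z = z → f γ = 1 →
      γ = 1 := by
    intro z γ hγ hf
    have hr := KS_reach o z.2
    have hb : ∃ g : G, g • z.1.1 ∈ ({o} ∪ (i.2.1.image (fun e : V × V => e.1) ∪
        i.2.1.image (fun e : V × V => e.2)) : Finset V) := by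
      rw [reachable_iff_reflTransGen] at hr
      generalize z.1.1 = x at hr
      induction hr with
      | refl => exact ⟨1, by rw [one_smul]; simp⟩
      | tail _ hbc _ =>
        obtain ⟨-, g, hg, h2⟩ := hbc
        refine ⟨g, Finset.mem_union_right _ ?_⟩
        rcases h2 with h2 | h2
        · exact Finset.mem_union_right _ (Finset.mem_image.2 ⟨_, h2, rfl⟩)
        · exact Finset.mem_union_left _ (Finset.mem_image.2 ⟨_, h2, rfl⟩)
    obtain ⟨g, hg⟩ := hb
    have h1 : prJ hA o i γ • z.1.1 = z.1.1 := by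
      have : prH (Aj hA i) o γ • z.1.1 = z.1.1 := by rw [← smulK_fst, hγ]
      exact this
    have h2 : g * prJ hA o i γ * g⁻¹ = 1 := by
      refine hf0 _ hg _ ?_ ?_
      · rw [mul_smul, mul_smul, inv_smul_smul, h1]
      · have h3 : f0 (prJ hA o i γ) = 1 := hf
        rw [map_mul, map_mul, h3, mul_one, ← map_mul, mul_inv_cancel, map_one]
    have h4 : prJ hA o i γ = 1 := by
      have h5 : g * prJ hA o i γ = g := mul_inv_eq_one.1 h2
      exact mul_eq_left.1 h5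
    refine stab_inj (Aj hA i) o hγ (one_smul _ z) ?_
    rw [map_one]
    exact Subtype.ext h4
  have hsub : ∀ (H : Subgroup (Gam (Aj hA i) o)) (κ : H →* Multiplicative ℤ),
      (∀ h : H, κ h = 1 → f (h : Gam (Aj hA i) o) = 1) → C H := by
    intro H κ hκ
    refine cyc (T := DK (Sj T i) (Fj T F i) o) (F := FK (Sj T i) (Fj T F i) o)
      (G := H) hC hF hcat hvi hsi
      ⟨fun g x y hxy => hAi.adj _ x y hxy, fun g φ hφ => hAi.face _ φ hφ⟩ ?_ κ ?_
    · refine ⟨fun g x y hxy => hti.1 _ x y hxy, fun φ hφ => ?_⟩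
      exact (hti.2 φ hφ).imp (fun h g => h _) (fun h g => h _)
    · intro g z hg h1
      exact Subtype.ext (hfk z g hg (hκ g h1))
  refine Pool.Agent.Y529.FJ.t_ext C hC _ f.ker ?_ ?_ ?_
  · exact hsub f.ker 1 fun h _ => h.2
  · exact hC.base.of_injective _ P (QuotientGroup.kerLift f) (QuotientGroup.kerLift_injective f) hP
  · intro g hg
    obtain ⟨κ, hκ⟩ := kap f.ker g hg
    exact hsub _ κ fun h hh => (hκ h).1 hh

end

end Run7.h909.SQ
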