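import Pool.Agent.Run7.h909.SQ.Tree

/-!
# The exponent of the ramification
-/

set_option autoImplicit false

namespace Run7.h909.SQ

open SimpleGraph Run7.h909.TD
open Run7.h909.TT (Orb QT QF Cor Sq)

section

variable {H V : Type} [Group H] [MulAction H V] {T : SimpleGraph V} {F : Set (ℤ → V)}

/-- cocompact actions with a homomorphism to the integers which is injective on the stabilizers -/
structure Cc0 (H : Type) [Group H] {V : Type} [MulAction H V] (T : SimpleGraph V)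
    (F : Set (ℤ → V)) (f : H →* Multiplicative ℤ) : Prop where
  vh : Cub T F
  sc : SC T F
  ac : Ac H T F
  inj : ∀ (h : H) (x : V), h • x = x → f h = 1 → h = 1
  fe : ∃ E : Set (V × V), E.Finite ∧ ∀ x y, T.Adj x y → ∃ g : H, (g • x, g • y) ∈ E
  ff : ∃ P : Set (ℤ → V), P.Finite ∧ ∀ φ ∈ F, ∃ g : H, (fun i => g • φ i) ∈ P

/-- the stabilizer of the pair is trivial -/
def Tv (H : Type) [Group H] {V : Type} [MulAction H V] (x y : V) : Prop :=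
  ∀ g : H, g • x = x → g • y = y → g = 1

variable {f : H →* Multiplicative ℤ}

theorem cj_fix {g a : H} {x : V} (ha : a • g • x = g • x) : (g⁻¹ * a * g) • x = x := by
  rw [mul_smul, mul_smul, ha, inv_smul_smul]

theorem cj_one {g a : H} (h : g⁻¹ * a * g = 1) : a = 1 := by
  have h7 : g⁻¹ * a = g⁻¹ := mul_eq_one_iff_eq_inv.1 h
  exact mul_eq_left.1 h7

theorem Tv.conj {x y : V} (h : Tv H x y) (g : H) : Tv H (g • x) (g • y) :=
  fun _ ha hb => cj_one (h _ (cj_fix ha) (cj_fix hb))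

theorem fin_z {x y : V} (h : Tv H x y) {S : Set V} (hS : S.Finite) :
    {z : H | z • x = x ∧ z • y ∈ S}.Finite := by
  refine Set.Finite.of_finite_image (f := fun z : H => z • y) (hS.subset ?_) ?_
  · rintro _ ⟨z, ⟨-, h2⟩, rfl⟩
    exact h2
  · rintro z ⟨h3, -⟩ z' ⟨h3', -⟩ he
    have he' : z • y = z' • y := he
    have : z'⁻¹ * z = 1 := by
      refine h _ ?_ ?_
      · rw [mul_smul, h3]
        exact inv_fix h3'
      · rw [mul_smul, he', inv_smul_smul]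
    exact (inv_mul_eq_one.1 this).symm

theorem Cc0.ext (D : Cc0 H T F f) {x : V} {g h : H} (hg : g • x = x) (hh : h • x = x)
    (hv : vl f g = vl f h) : g = h := by
  have h1 : (g * h⁻¹) • x = x := mul_fix hg (inv_fix hh)
  have h2 : f (g * h⁻¹) = 1 := by
    rw [← vl_eq_zero, vl_mul, vl_inv, hv, add_neg_cancel]
  exact mul_inv_eq_one.1 (D.inj _ x h1 h2)

theorem Cc0.ex1 (D : Cc0 H T F f) : ∃ m : ℕ, 0 < m ∧ ∀ x y, T.Adj x y →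
    (∃ g : H, g ≠ 1 ∧ g • x = x ∧ g • y = y) → ∀ h : H, h • x = x → (m : ℤ) ∣ vl f h →
      h • y = y := by
  classical
  obtain ⟨E, hE, hE'⟩ := D.fe
  -- an exponent for each pair
  have key : ∀ e : V × V, ∃ m : ℕ, 0 < m ∧ ((∃ g : H, g ≠ 1 ∧ g • e.1 = e.1 ∧ g • e.2 = e.2) →
      ∀ h : H, h • e.1 = e.1 → (m : ℤ) ∣ vl f h → h • e.2 = e.2) := by
    intro e
    by_cases hex : ∃ g : H, g ≠ 1 ∧ g • e.1 = e.1 ∧ g • e.2 = e.2
    · obtain ⟨g, hg, h1, h2⟩ := hex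
      have hv : vl f g ≠ 0 := fun h0 => hg (D.inj g _ h1 ((vl_eq_zero f g).1 h0))
      refine ⟨(vl f g).natAbs, Int.natAbs_pos.2 hv, fun _ h hh hd => ?_⟩
      rw [Int.natCast_natAbs, abs_dvd] at hd
      obtain ⟨m, hm⟩ := hd
      have : h = g ^ m := D.ext hh (zpow_fix h1 m) (by rw [hm, vl_zpow, mul_comm])
      rw [this]
      exact zpow_fix h2 m
    · exact ⟨1, one_pos, fun h => absurd h hex⟩
  choose m hm0 hm using key
  refine ⟨∏ e ∈ hE.toFinset, m e, Finset.prod_pos fun e _ => hm0 e, ?_⟩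
  rintro x y hxy ⟨g, hg, h1, h2⟩ h hh hd
  obtain ⟨g0, hg0⟩ := hE' x y hxy
  have hdv : ((m (g0 • x, g0 • y) : ℕ) : ℤ) ∣ vl f h := by
    refine dvd_trans ?_ hd
    exact_mod_cast Finset.dvd_prod_of_mem m (hE.mem_toFinset.2 hg0)
  have h3 := hm (g0 • x, g0 • y) ⟨g0 * g * g0⁻¹, by
      intro he
      apply hg
      have : g0 * g = g0 := mul_inv_eq_one.1 he
      exact mul_eq_left.1 this, by
      show (g0 * g * g0⁻¹) • g0 • x = g0 • x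
      rw [mul_smul, mul_smul, inv_smul_smul, h1], by
      show (g0 * g * g0⁻¹) • g0 • y = g0 • y
      rw [mul_smul, mul_smul, inv_smul_smul, h2]⟩ (g0 * h * g0⁻¹) (by
      show (g0 * h * g0⁻¹) • g0 • x = g0 • x
      rw [mul_smul, mul_smul, inv_smul_smul, hh]) (by rw [vl_conj]; exact hdv)
  have h4 : (g0 * h * g0⁻¹) • g0 • y = g0 • y := h3
  rw [mul_smul, mul_smul, inv_smul_smul] at h4
  exact smul_left_cancel g0 h4

/-- the faces at an edge with trivial stabilizer -/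
theorem Cc0.fin_face (D : Cc0 H T F f) {x y : V} (hxy : Tv H x y) :
    {ψ | ψ ∈ F ∧ ψ 0 = x ∧ ψ 1 = y}.Finite := by
  classical
  obtain ⟨P, hP, hP'⟩ := D.ff
  choose! g hg using hP'
  refine Set.Finite.of_finite_image (f := fun ψ => (fun i => g ψ • ψ i : ℤ → V))
    (hP.subset ?_) ?_
  · rintro _ ⟨ψ, ⟨h1, h2, h3⟩, rfl⟩
    exact hg ψ h1
  · rintro ψ ⟨h1, h2, h3⟩ ψ' ⟨h1', h2', h3'⟩ he
    have e0 : g ψ • ψ 0 = g ψ' • ψ' 0 := congrFun he 0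
    have e1 : g ψ • ψ 1 = g ψ' • ψ' 1 := congrFun he 1
    rw [h2, h2'] at e0
    rw [h3, h3'] at e1
    have h4 : (g ψ')⁻¹ * g ψ = 1 := by
      refine hxy _ ?_ ?_
      · rw [mul_smul, e0, inv_smul_smul]
      · rw [mul_smul, e1, inv_smul_smul]
    have h5 : g ψ = g ψ' := by
      have := inv_mul_eq_one.1 h4
      exact this.symm
    funext i
    have := congrFun he i
    have h6 : g ψ • ψ i = g ψ' • ψ' i := this
    rw [h5] at h6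
    exact smul_left_cancel _ h6

theorem Cc0.fin_face' (D : Cc0 H T F f) {x y : V} (hxy : Tv H x y) :
    {ψ | ψ ∈ F ∧ ψ 0 = x ∧ ψ (-1) = y}.Finite := by
  refine ((D.fin_face hxy).image fun ψ => (fun i => ψ (-i) : ℤ → V)).subset ?_
  rintro ψ ⟨h1, h2, h3⟩
  refine ⟨_, ⟨D.vh.refl ψ h1, ?_, ?_⟩, ?_⟩
  · show ψ (-0) = x
    rw [neg_zero, h2]
  · exact h3
  · funext i
    show ψ (- -i) = ψ i
    rw [neg_neg]

/-- a bound for finite equivariant sets attached to the faces -/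
theorem Cc0.bdd (D : Cc0 H T F f) (Z : (ℤ → V) → H → Prop)
    (hZ : ∀ (g : H) (φ : ℤ → V) (z : H), Z φ z → Z (fun i => g • φ i) (g * z * g⁻¹))
    (hfin : ∀ φ ∈ F, {z | Z φ z}.Finite) :
    ∃ B : ℕ, ∀ φ ∈ F, ∀ z, Z φ z → (vl f z).natAbs ≤ B := by
  classical
  obtain ⟨P, hP, hP'⟩ := D.ff
  have key : ∀ φ : ℤ → V, ∃ B : ℕ, φ ∈ F → ∀ z, Z φ z → (vl f z).natAbs ≤ B := by
    intro φ
    by_cases h1 : φ ∈ F
    · obtain ⟨B, hB⟩ := ((hfin φ h1).image fun z => (vl f z).natAbs).bddAbove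
      exact ⟨B, fun _ z hz => hB ⟨z, hz, rfl⟩⟩
    · exact ⟨0, fun h => absurd h h1⟩
  choose B hB using key
  refine ⟨∑ φ ∈ hP.toFinset, B φ, ?_⟩
  intro φ hφ z hz
  obtain ⟨g, hg⟩ := hP' φ hφ
  have hle : B (fun i => g • φ i) ≤ ∑ φ ∈ hP.toFinset, B φ :=
    Finset.single_le_sum (f := B) (fun _ _ => Nat.zero_le _) (hP.mem_toFinset.2 hg)
  refine le_trans ?_ hle
  have := hB (fun i => g • φ i) (D.ac.face g φ hφ) (g * z * g⁻¹) (hZ g φ z hz)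
  rwa [vl_conj] at this

theorem cj_act {g z : H} {x y : V} (h : z • x = y) : (g * z * g⁻¹) • g • x = g • y := by
  rw [mul_smul, mul_smul, inv_smul_smul, h]

theorem Cc0.ex2 (D : Cc0 H T F f) : ∃ B : ℕ, ∀ φ ∈ F, Tv H (φ 0) (φ 1) → Tv H (φ 0) (φ (-1)) →
    ∀ ψ ∈ F, φ 0 = ψ 0 → φ 1 = ψ 1 → ∀ z : H, z • φ 0 = φ 0 → z • φ (-1) = ψ (-1) →
      (vl f z).natAbs ≤ B := by
  obtain ⟨B, hB⟩ := D.bdd (fun φ z => Tv H (φ 0) (φ 1) ∧ Tv H (φ 0) (φ (-1)) ∧ z • φ 0 = φ 0 ∧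
    ∃ ψ ∈ F, φ 0 = ψ 0 ∧ φ 1 = ψ 1 ∧ z • φ (-1) = ψ (-1)) (by
      rintro g φ z ⟨h1, h2, h3, ψ, h4, h5, h6, h7⟩
      exact ⟨h1.conj g, h2.conj g, cj_act h3, _, D.ac.face g ψ h4, by
        show g • φ 0 = g • ψ 0
        rw [h5], by
        show g • φ 1 = g • ψ 1
        rw [h6], cj_act h7⟩) (by
      intro φ hφ
      by_cases h1 : Tv H (φ 0) (φ 1)
      · by_cases h2 : Tv H (φ 0) (φ (-1))
        · refine (fin_z h2 ((D.fin_face h1).image fun ψ => ψ (-1))).subset ?_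
          rintro z ⟨-, -, h3, ψ, h4, h5, h6, h7⟩
          exact ⟨h3, ψ, ⟨h4, h5.symm, h6.symm⟩, h7.symm⟩
        · exact Set.finite_empty.subset fun z hz => (h2 hz.2.1).elim
      · exact Set.finite_empty.subset fun z hz => (h1 hz.1).elim)
  exact ⟨B, fun φ hφ h1 h2 ψ h3 h4 h5 z h6 h7 => hB φ hφ z ⟨h1, h2, h6, ψ, h3, h4, h5, h7⟩⟩

theorem Cc0.ex3 (D : Cc0 H T F f) : ∃ B : ℕ, ∀ φ ∈ F, Tv H (φ 0) (φ 1) →
    ∀ z : H, z • φ 0 = φ 0 → z • φ 1 = φ (-1) → (vl f z).natAbs ≤ B := by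
  obtain ⟨B, hB⟩ := D.bdd (fun φ z => Tv H (φ 0) (φ 1) ∧ z • φ 0 = φ 0 ∧
    z • φ 1 = φ (-1)) (by
      rintro g φ z ⟨h1, h2, h3⟩
      exact ⟨h1.conj g, cj_act h2, cj_act h3⟩) (by
      intro φ hφ
      by_cases h1 : Tv H (φ 0) (φ 1)
      · refine (fin_z h1 (Set.finite_singleton (φ (-1)))).subset ?_
        rintro z ⟨-, h3, h4⟩
        exact ⟨h3, h4⟩
      · exact Set.finite_empty.subset fun z hz => (h1 hz.1).elim)
  exact ⟨B, fun φ hφ h1 z h6 h7 => hB φ hφ z ⟨h1, h6, h7⟩⟩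

theorem Cc0.ex4 (D : Cc0 H T F f) : ∃ B : ℕ, ∀ φ ∈ F, Tv H (φ 0) (φ 1) → Tv H (φ 0) (φ (-1)) →
    ∀ ψ ∈ F, ∀ χ ∈ F, φ 0 = ψ 0 → ψ 0 = χ 0 → φ 1 = ψ (-1) → ψ 1 = χ (-1) →
    Tv H (ψ 0) (ψ 1) → ∀ z : H, z • φ 0 = φ 0 → χ 1 = z • φ (-1) →
      (vl f z).natAbs ≤ B := by
  obtain ⟨B, hB⟩ := D.bdd (fun φ z => Tv H (φ 0) (φ 1) ∧ Tv H (φ 0) (φ (-1)) ∧ z • φ 0 = φ 0 ∧
    ∃ ψ ∈ F, ∃ χ ∈ F, φ 0 = ψ 0 ∧ ψ 0 = χ 0 ∧ φ 1 = ψ (-1) ∧ ψ 1 = χ (-1) ∧ Tv H (ψ 0) (ψ 1) ∧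
      χ 1 = z • φ (-1)) (by
      rintro g φ z ⟨h1, h2, h3, ψ, h4, χ, h5, h6, h7, h8, h9, h10, h11⟩
      exact ⟨h1.conj g, h2.conj g, cj_act h3, _, D.ac.face g ψ h4, _, D.ac.face g χ h5, by
        show g • φ 0 = g • ψ 0
        rw [h6], by
        show g • ψ 0 = g • χ 0
        rw [h7], by
        show g • φ 1 = g • ψ (-1)
        rw [h8], by
        show g • ψ 1 = g • χ (-1)
        rw [h9], h10.conj g, (cj_act h11.symm).symm⟩) (by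
      intro φ hφ
      by_cases h1 : Tv H (φ 0) (φ 1)
      · by_cases h2 : Tv H (φ 0) (φ (-1))
        · have hS : {w : V | ∃ ψ ∈ F, ∃ χ ∈ F, φ 0 = ψ 0 ∧ ψ 0 = χ 0 ∧ φ 1 = ψ (-1) ∧
              ψ 1 = χ (-1) ∧ Tv H (ψ 0) (ψ 1) ∧ χ 1 = w}.Finite := by
            refine Set.Finite.subset (s := ⋃ ψ ∈ {ψ | ψ ∈ F ∧ ψ 0 = φ 0 ∧ ψ (-1) = φ 1},
              {w : V | Tv H (ψ 0) (ψ 1) ∧ ∃ χ ∈ F, χ 0 = ψ 0 ∧ χ (-1) = ψ 1 ∧ χ 1 = w}) ?_ ?_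
            · refine Set.Finite.biUnion (D.fin_face' h1) fun ψ _ => ?_
              by_cases h3 : Tv H (ψ 0) (ψ 1)
              · refine ((D.fin_face' h3).image fun χ => χ 1).subset ?_
                rintro w ⟨-, χ, h4, h5, h6, h7⟩
                exact ⟨χ, ⟨h4, h5, h6⟩, h7⟩
              · exact Set.finite_empty.subset fun z hz => (h3 hz.1).elim
            · rintro w ⟨ψ, h4, χ, h5, h6, h7, h8, h9, h10, h11⟩
              simp only [Set.mem_iUnion]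
              exact ⟨ψ, ⟨h4, h6.symm, h8.symm⟩, h10, χ, h5, h7.symm, h9.symm, h11⟩
          refine (fin_z h2 hS).subset ?_
          rintro z ⟨-, -, h3, ψ, h4, χ, h5, h6, h7, h8, h9, h10, h11⟩
          exact ⟨h3, ψ, h4, χ, h5, h6, h7, h8, h9, h10, h11⟩
        · exact Set.finite_empty.subset fun z hz => (h2 hz.2.1).elim
      · exact Set.finite_empty.subset fun z hz => (h1 hz.1).elim)
  exact ⟨B, fun φ hφ h1 h2 ψ h3 χ h4 h5 h6 h7 h8 h9 z h10 h11 =>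
    hB φ hφ z ⟨h1, h2, h10, ψ, h3, χ, h4, h5, h6, h7, h8, h9, h11⟩⟩

/-- the exponent -/
theorem Cc0.exn (D : Cc0 H T F f) (m0 : ℕ) (hm0 : 0 < m0) : ∃ n : ℕ, 0 < n ∧ m0 ∣ n ∧
    (∀ x y, T.Adj x y → ¬ Tv H x y → ∀ h : H, h • x = x →
      (n : ℤ) ∣ vl f h → h • y = y) ∧
    (∀ φ ∈ F, ∀ z : H, z • φ 0 = φ 0 → z • φ 1 = φ (-1) → ¬ (n : ℤ) ∣ vl f z) ∧
    (∀ φ ∈ F, Tv H (φ 0) (φ 1) → Tv H (φ 0) (φ (-1)) →
    ∀ ψ ∈ F, φ 0 = ψ 0 → φ 1 = ψ 1 → ∀ z : H, z • φ 0 = φ 0 → z • φ (-1) = ψ (-1) →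
      (n : ℤ) ∣ vl f z → z = 1) ∧
    (∀ φ ∈ F, ∀ ψ ∈ F, ∀ χ ∈ F, ∀ z : H, φ 0 = ψ 0 → ψ 0 = χ 0 → φ 1 = ψ (-1) →
      ψ 1 = χ (-1) → z • φ 0 = φ 0 → χ 1 = z • φ (-1) → ¬ (n : ℤ) ∣ vl f z) := by
  obtain ⟨m, hm, h1⟩ := D.ex1
  obtain ⟨B2, h2⟩ := D.ex2
  obtain ⟨B3, h3⟩ := D.ex3
  obtain ⟨B4, h4⟩ := D.ex4
  have hpos : 0 < m0 * m * (B2 + B3 + B4 + 1) :=
    Nat.mul_pos (Nat.mul_pos hm0 hm) (Nat.succ_pos _)
  have hz : ∀ (z : H) (x : V), z • x = x → (vl f z).natAbs ≤ B2 + B3 + B4 →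
      ((m0 * m * (B2 + B3 + B4 + 1) : ℕ) : ℤ) ∣ vl f z → z = 1 := by
    intro z x hx hb hd
    have h4 : vl f z = 0 := by
      by_contra hne
      have h5 : m0 * m * (B2 + B3 + B4 + 1) ≤ (vl f z).natAbs :=
        Nat.le_of_dvd (Int.natAbs_pos.2 hne) (Int.natCast_dvd.1 hd)
      have h6 : B2 + B3 + B4 + 1 ≤ m0 * m * (B2 + B3 + B4 + 1) :=
        Nat.le_mul_of_pos_left _ (Nat.mul_pos hm0 hm)
      omega
    exact D.inj z _ hx ((vl_eq_zero f z).1 h4)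
  have h1' : ∀ x y, T.Adj x y → ¬ Tv H x y → ∀ h : H, h • x = x →
      ((m0 * m * (B2 + B3 + B4 + 1) : ℕ) : ℤ) ∣ vl f h → h • y = y := by
    intro x y hxy hg h hh hd
    unfold Tv at hg
    push Not at hg
    obtain ⟨g, hg1, hg2, hg3⟩ := hg
    exact h1 x y hxy ⟨g, hg3, hg1, hg2⟩ h hh (dvd_trans ⟨(m0 * (B2 + B3 + B4 + 1) : ℤ), by
      push_cast; ring⟩ hd)
  have ne1 : ∀ φ ∈ F, φ 1 ≠ φ (-1) := by
    intro φ hφ he
    have := (D.vh.per φ hφ _ _).1 he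
    omega
  refine ⟨m0 * m * (B2 + B3 + B4 + 1), hpos, ⟨m * (B2 + B3 + B4 + 1), by ring⟩, h1', ?_, ?_, ?_⟩
  · intro φ hφ z a1 a2 hd
    by_cases ht : Tv H (φ 0) (φ 1)
    · have := hz z _ a1 (by have := h3 φ hφ ht z a1 a2; omega) hd
      rw [this, one_smul] at a2
      exact ne1 φ hφ a2
    · have := h1' _ _ (D.vh.adj01 hφ) ht z a1 hd
      exact ne1 φ hφ (this.symm.trans a2)
  · intro φ hφ a1 a2 ψ hψ a3 a4 z a5 a6 hd
    exact hz z _ a5 (by have := h2 φ hφ a1 a2 ψ hψ a3 a4 z a5 a6; omega) hd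
  · intro φ hφ ψ hψ χ hχ z a1 a2 a3 a4 a5 a6 hd
    have b1 : (fun i => z • φ i) ∈ F := D.ac.face z φ hφ
    have b2 : (fun i => z • ψ i) ∈ F := D.ac.face z ψ hψ
    by_cases t1 : Tv H (φ 0) (φ (-1))
    · by_cases t2 : Tv H (φ 0) (φ 1)
      · by_cases t3 : Tv H (ψ 0) (ψ 1)
        · have := hz z _ a5 (by
            have := h4 φ hφ t2 t1 ψ hψ χ hχ a1 a2 a3 a4 t3 z a5 a6; omega) hd
          rw [this, one_smul] at a6
          exact D.vh.tri φ hφ ψ hψ χ hχ a1 a2 a3 a4 a6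
        · have e := h1' _ _ (D.vh.adj01 hψ) t3 z (by rw [← a1]; exact a5) hd
          refine D.vh.tri χ hχ _ b1 _ b2 ?_ ?_ a6 ?_ ?_
          · show χ 0 = z • φ 0
            rw [a5, a1, a2]
          · show z • φ 0 = z • ψ 0
            rw [a1]
          · show z • φ 1 = z • ψ (-1)
            rw [a3]
          · show z • ψ 1 = χ (-1)
            rw [e, a4]
      · have e := h1' _ _ (D.vh.adj01 hφ) t2 z a5 hd
        refine D.vh.tri ψ hψ χ hχ _ b1 a2 ?_ a4 a6 ?_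
        · show χ 0 = z • φ 0
          rw [a5, a1, a2]
        · show z • φ 1 = ψ (-1)
          rw [e, a3]
    · have e := h1' _ _ (D.vh.adj0m hφ) t1 z a5 hd
      exact D.vh.tri φ hφ ψ hψ χ hχ a1 a2 a3 a4 (a6.trans e)

end

end Run7.h909.SQ
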