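import Pool.Agent.Run7.h909.SQ.ColSc
import Mathlib.GroupTheory.CoprodI

/-!
# Free products with relators along the edges of a triangle-free graph
-/

set_option autoImplicit false

namespace Run7.h909.SQ

open SimpleGraph Run7.h909.TD
open Pool.Agent.Y110.FJ (ClosedE)
open Pool.Agent.Y462.SS (Closed)
open Pool.Agent.R684.FP (FbC)
open Monoid (CoprodI)

section

variable {W : Type} {G : W → Type} [∀ v, Group (G v)] {Γ : SimpleGraph W} {R : Set (CoprodI G)}

/-- the free product of the two factors of an edge -/
def Two (G : W → Type) [∀ v, Group (G v)] (v w : W) : Subgroup (CoprodI G) :=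
  (CoprodI.of (i := v) : G v →* CoprodI G).range ⊔ (CoprodI.of (i := w) : G w →* CoprodI G).range

open Classical in
/-- the projection of the free product to a factor -/
noncomputable def pj (G : W → Type) [∀ v, Group (G v)] (v : W) : CoprodI G →* G v :=
  CoprodI.lift fun w => if h : w = v then h ▸ MonoidHom.id (G w) else 1

/-- each relator is a word in the two groups of an edge, with trivial image in both -/
def Rels (Γ : SimpleGraph W) (R : Set (CoprodI G)) : Prop :=
  ∀ r ∈ R, ∃ v w, Γ.Adj v w ∧ r ∈ Two G v w ∧ pj G v r = 1 ∧ pj G w r = 1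

theorem pj_same (v : W) (g : G v) : pj G v (CoprodI.of g) = g := by
  rw [pj, CoprodI.lift_of]
  simp

theorem pj_ne {v w : W} (h : w ≠ v) (g : G w) : pj G v (CoprodI.of g) = 1 := by
  rw [pj, CoprodI.lift_of]
  simp [h]

open Classical in
/-- killing the factors outside of a set -/
noncomputable def kl (G : W → Type) [∀ v, Group (G v)] (S : Set W) : CoprodI G →* CoprodI G :=
  CoprodI.lift fun w => if w ∈ S then CoprodI.of else 1

theorem kl_in {S : Set W} {v : W} (h : v ∈ S) (g : G v) :
    kl G S (CoprodI.of g) = CoprodI.of g := by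
  rw [kl, CoprodI.lift_of]
  simp [h]

theorem kl_out {S : Set W} {v : W} (h : v ∉ S) (g : G v) :
    kl G S (CoprodI.of g) = 1 := by
  rw [kl, CoprodI.lift_of]
  simp [h]

/-- two homomorphisms which agree on the two factors -/
theorem two_eq {L : Type} [Group L] {v w : W} {a b : CoprodI G →* L}
    (h1 : ∀ g : G v, a (CoprodI.of g) = b (CoprodI.of g))
    (h2 : ∀ g : G w, a (CoprodI.of g) = b (CoprodI.of g)) {x : CoprodI G} (hx : x ∈ Two G v w) :
    a x = b x := by
  have : Two G v w ≤ a.eqLocus b := by
    refine sup_le ?_ ?_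
    · rintro _ ⟨g, rfl⟩
      exact h1 g
    · rintro _ ⟨g, rfl⟩
      exact h2 g
  exact this hx

theorem kl_rel (hR : Rels Γ R) (S : Set W) {r : CoprodI G} (hr : r ∈ R) :
    kl G S r = r ∨ kl G S r = 1 := by
  obtain ⟨v, w, hvw, hx, hv, hw⟩ := hR r hr
  by_cases h1 : v ∈ S
  · by_cases h2 : w ∈ S
    · left
      exact two_eq (a := kl G S) (b := MonoidHom.id _) (fun g => kl_in h1 g)
        (fun g => kl_in h2 g) hx
    · right
      have := two_eq (a := kl G S) (b := (CoprodI.of (i := v)).comp (pj G v))
        (fun g => by rw [kl_in h1, MonoidHom.comp_apply, pj_same])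
        (fun g => by rw [kl_out h2, MonoidHom.comp_apply, pj_ne hvw.ne', map_one]) hx
      rw [this, MonoidHom.comp_apply, hv, map_one]
  · by_cases h2 : w ∈ S
    · right
      have := two_eq (a := kl G S) (b := (CoprodI.of (i := w)).comp (pj G w))
        (fun g => by rw [kl_out h1, MonoidHom.comp_apply, pj_ne hvw.ne, map_one])
        (fun g => by rw [kl_in h2, MonoidHom.comp_apply, pj_same]) hx
      rw [this, MonoidHom.comp_apply, hw, map_one]
    · right
      exact two_eq (a := kl G S) (b := 1) (fun g => kl_out h1 g) (fun g => kl_out h2 g) hx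

/-- the quotient of the free product -/
abbrev Qt (R : Set (CoprodI G)) : Type := CoprodI G ⧸ Subgroup.normalClosure R

/-- the projection -/
def pr (R : Set (CoprodI G)) : CoprodI G →* Qt R := QuotientGroup.mk' (Subgroup.normalClosure R)

theorem pr_rel {r : CoprodI G} (hr : r ∈ R) : pr R r = 1 :=
  (QuotientGroup.eq_one_iff r).2 (Subgroup.subset_normalClosure hr)

theorem pr_surj : Function.Surjective (pr R) := QuotientGroup.mk'_surjective _

/-- the universal property -/
theorem pr_lift {L : Type} [Group L] (a : CoprodI G →* L) (h : ∀ r ∈ R, a r = 1) :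
    ∃ b : Qt R →* L, ∀ x, b (pr R x) = a x := by
  refine ⟨QuotientGroup.lift _ a ?_, fun x => rfl⟩
  have : Subgroup.normalClosure R ≤ a.ker := Subgroup.normalClosure_le_normal h
  exact fun x hx => this hx

/-- the image of a factor -/
def Fa (R : Set (CoprodI G)) (v : W) : Subgroup (Qt R) :=
  ((pr R).comp (CoprodI.of (i := v) : G v →* CoprodI G)).range

theorem Fa_sup (v w : W) : Fa R v ⊔ Fa R w = (Two G v w).map (pr R) := by
  rw [Two, Subgroup.map_sup, Fa, Fa, MonoidHom.range_comp, MonoidHom.range_comp]

theorem Fa_gen : ⨆ v, Fa R v = (⊤ : Subgroup (Qt R)) := by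
  rw [eq_top_iff]
  rintro x -
  obtain ⟨y, rfl⟩ := pr_surj (R := R) x
  have key : ∀ y : CoprodI G, pr R y ∈ ⨆ v, Fa R v := by
    intro y
    induction y using CoprodI.induction_on with
    | one => rw [map_one]; exact Subgroup.one_mem _
    | of i m =>
      exact Subgroup.mem_iSup_of_mem i ⟨m, rfl⟩
    | mul x y hx hy => rw [map_mul]; exact Subgroup.mul_mem _ hx hy
  exact key y

theorem Qt_col (hR : Rels Γ R) : IsCol Γ (Fa R) ⊥ := by
  refine ⟨Fa_gen, ?_⟩
  intro L _ g _ he
  let a : CoprodI G →* L := CoprodI.lift fun v => (g v).comp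
    ((pr R).comp (CoprodI.of (i := v) : G v →* CoprodI G)).rangeRestrict
  have ha : ∀ (v : W) (x : G v), a (CoprodI.of x) = g v ⟨pr R (CoprodI.of x), x, rfl⟩ := by
    intro v x
    show CoprodI.lift _ (CoprodI.of x) = _
    rw [CoprodI.lift_of]
    rfl
  obtain ⟨b, hb⟩ := pr_lift (R := R) a (by
    intro r hr
    obtain ⟨v, w, hvw, hx, -, -⟩ := hR r hr
    obtain ⟨h, h1, h2⟩ := he v w hvw
    -- the homomorphism through the subgroup
    have key : ∀ x (hx : x ∈ Two G v w), a x = h ⟨pr R x, by
        rw [Fa_sup]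
        exact ⟨x, hx, rfl⟩⟩ := by
      let S : Subgroup (CoprodI G) := {
        carrier := {x | ∃ hx : x ∈ Two G v w, a x = h ⟨pr R x, by
          rw [Fa_sup]
          exact ⟨x, hx, rfl⟩⟩}
        one_mem' := ⟨Subgroup.one_mem _, by
          rw [map_one]
          exact (map_one h).symm⟩
        mul_mem' := fun {x y} hx hy => by
          obtain ⟨hx, e1⟩ := hx
          obtain ⟨hy, e2⟩ := hy
          refine ⟨Subgroup.mul_mem _ hx hy, ?_⟩
          rw [map_mul, e1, e2, ← map_mul]
          congr 1
        inv_mem' := fun {x} hx => by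
          obtain ⟨hx, e1⟩ := hx
          refine ⟨Subgroup.inv_mem _ hx, ?_⟩
          rw [map_inv, e1, ← map_inv]
          congr 1 }
      have hS : Two G v w ≤ S := by
        refine sup_le ?_ ?_
        · rintro _ ⟨y, rfl⟩
          refine ⟨Subgroup.mem_sup_left ⟨y, rfl⟩, ?_⟩
          rw [ha]
          exact (h1 ⟨pr R (CoprodI.of y), y, rfl⟩).symm
        · rintro _ ⟨y, rfl⟩
          refine ⟨Subgroup.mem_sup_right ⟨y, rfl⟩, ?_⟩
          rw [ha]
          exact (h2 ⟨pr R (CoprodI.of y), y, rfl⟩).symm
      intro x hx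
      exact (hS hx).2
    rw [key r hx]
    have : (⟨pr R r, by
        rw [Fa_sup]
        exact ⟨r, hx, rfl⟩⟩ : ↥(Fa R v ⊔ Fa R w)) = 1 := Subtype.ext (pr_rel hr)
    rw [this, map_one])
  refine ⟨b, ?_⟩
  rintro v ⟨_, x, rfl⟩
  show b (pr R (CoprodI.of x)) = _
  rw [hb, ha]
  rfl

/-- the retractions -/
theorem exists_kl (hR : Rels Γ R) (S : Set W) : ∃ b : Qt R →* Qt R,
    ∀ x, b (pr R x) = pr R (kl G S x) := by
  refine pr_lift ((pr R).comp (kl G S)) fun r hr => ?_
  show pr R (kl G S r) = 1
  rcases kl_rel hR S hr with h | h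
  · rw [h, pr_rel hr]
  · rw [h, map_one]

theorem Fa_int (hR : Rels Γ R) {v w : W} (h : v ≠ w) : Fa R v ⊓ Fa R w = ⊥ := by
  rw [eq_bot_iff]
  rintro x ⟨⟨a, ha⟩, ⟨b, hb⟩⟩
  obtain ⟨q, hq⟩ := exists_kl hR {v}
  have h1 : q x = x := by
    rw [← ha]
    show q (pr R (CoprodI.of a)) = pr R (CoprodI.of a)
    rw [hq, kl_in (Set.mem_singleton v)]
  have h2 : q x = 1 := by
    rw [← hb]
    show q (pr R (CoprodI.of b)) = 1
    rw [hq, kl_out (fun hh => h (Set.mem_singleton_iff.1 hh).symm), map_one]
  rw [Subgroup.mem_bot, ← h1, h2]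

/-- a factor embeds -/
theorem of_inj (hR : Rels Γ R) (v : W) :
    Function.Injective ((pr R).comp (CoprodI.of (i := v) : G v →* CoprodI G)) := by
  obtain ⟨b, hb⟩ := pr_lift (R := R) (pj G v) (by
    intro r hr
    obtain ⟨x, y, hxy, hx, h1, h2⟩ := hR r hr
    by_cases e1 : x = v
    · subst e1; exact h1
    · by_cases e2 : y = v
      · subst e2; exact h2
      · exact two_eq (a := pj G v) (b := 1) (fun g => pj_ne e1 g) (fun g => pj_ne e2 g) hx)
  intro g g' hg
  have := congrArg b hg
  have h1 : b (pr R (CoprodI.of g)) = b (pr R (CoprodI.of g')) := this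
  rwa [hb, hb, pj_same, pj_same] at h1

/-- **free products with relators along the edges of a triangle-free graph** -/
theorem pres_mem {C : ∀ (G : Type) [Group G], Prop} (hC : ClosedE C) (hF : FbC C) (hcat : CatC C)
    (htri : ∀ u v w, Γ.Adj u v → Γ.Adj v w → Γ.Adj w u → False) (hR : Rels Γ R) :
    C (Qt R) ↔ (∀ v, C (G v)) ∧ ∀ v w, Γ.Adj v w → C ↥(Fa R v ⊔ Fa R w) := by
  constructor
  · intro h
    exact ⟨fun v => hC.base.of_injective _ _ _ (of_inj hR v) h,
      fun v w _ => hC.base.of_injective _ _ (Fa R v ⊔ Fa R w).subtype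
        (Subgroup.subtype_injective _) h⟩
  · rintro ⟨h1, h2⟩
    rcases isEmpty_or_nonempty W with hW | hW
    · -- the trivial group
      have hbot : (⊤ : Subgroup (Qt R)) = ⊥ := by
        rw [← Fa_gen, iSup_of_empty]
      have hs : Subsingleton (Qt R) := by
        refine ⟨fun x y => ?_⟩
        have hx : x ∈ (⊤ : Subgroup (Qt R)) := Subgroup.mem_top x
        have hy : y ∈ (⊤ : Subgroup (Qt R)) := Subgroup.mem_top y
        rw [hbot, Subgroup.mem_bot] at hx hy
        rw [hx, hy]
      exact hC.base.of_injective (Qt R) (Multiplicative ℤ) 1 (fun x y _ => Subsingleton.elim x y)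
        hC.base.int
    · refine col_mem (Γ := Γ) (A := Fa R) (D := ⊥) hC hF hcat (Qt_col hR) htri
        (fun v => bot_le) (fun v w hvw => Fa_int hR hvw.ne) ?_ ?_
      · intro v
        obtain ⟨b, hb⟩ := exists_kl hR {v}
        have hCv : C ↥(Fa R v) := by
          have e := MonoidHom.ofInjective (of_inj hR v)
          exact hC.base.of_injective _ _ e.symm.toMonoidHom e.symm.injective (h1 v)
        have hr : ∀ x, b x ∈ Fa R v := by
          intro x
          obtain ⟨y, rfl⟩ := pr_surj (R := R) x
          rw [hb]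
          induction y using CoprodI.induction_on with
          | one => rw [map_one, map_one]; exact Subgroup.one_mem _
          | of i m =>
            by_cases hi : i = v
            · subst hi
              rw [kl_in (Set.mem_singleton i)]
              exact ⟨m, rfl⟩
            · rw [kl_out (fun hh => hi (Set.mem_singleton_iff.1 hh)), map_one]
              exact Subgroup.one_mem _
          | mul x y hx hy => rw [map_mul, map_mul]; exact Subgroup.mul_mem _ hx hy
        refine ⟨↥(Fa R v), inferInstance, b.codRestrict (Fa R v) hr, hCv, ?_⟩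
        rintro _ ⟨a, rfl⟩ ha
        have h3 : b (pr R (CoprodI.of a)) = 1 := congrArg Subtype.val ha
        rw [hb, kl_in (Set.mem_singleton v)] at h3
        exact h3
      · intro v w hvw
        obtain ⟨b, hb⟩ := exists_kl hR {v, w}
        have hr : ∀ x, b x ∈ Fa R v ⊔ Fa R w := by
          intro x
          obtain ⟨y, rfl⟩ := pr_surj (R := R) x
          rw [hb]
          induction y using CoprodI.induction_on with
          | one => rw [map_one, map_one]; exact Subgroup.one_mem _
          | of i m =>
            by_cases hi : i ∈ ({v, w} : Set W)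
            · rw [kl_in hi]
              rcases hi with rfl | hi
              · exact Subgroup.mem_sup_left ⟨m, rfl⟩
              · rw [Set.mem_singleton_iff] at hi
                subst hi
                exact Subgroup.mem_sup_right ⟨m, rfl⟩
            · rw [kl_out hi, map_one]
              exact Subgroup.one_mem _
          | mul x y hx hy => rw [map_mul, map_mul]; exact Subgroup.mul_mem _ hx hy
        refine ⟨↥(Fa R v ⊔ Fa R w), inferInstance, b.codRestrict _ hr, h2 v w hvw, ?_⟩
        intro x hx ha
        have h3 : b x = 1 := congrArg Subtype.val ha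
        rw [Fa_sup] at hx
        obtain ⟨y, hy, rfl⟩ := hx
        rw [hb] at h3
        have h4 : kl G {v, w} y = y := two_eq (a := kl G {v, w}) (b := MonoidHom.id _)
          (fun g => kl_in (by simp) g) (fun g => kl_in (by simp) g) hy
        rwa [h4] at h3

end

end Run7.h909.SQ
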