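import Pool.Agent.Run7.h909.SQ.Cat

/-!
# Quotients of square complexes
-/

set_option autoImplicit false

namespace Run7.h909.SQ

open SimpleGraph Run7.h909.TD
open Pool.Agent.H386R3.CC
open Run7.h909.TT (Orb QT QF Cor Sq per4_eq per4_ext)

section

variable {K V W : Type} [Group K] [MulAction K V] {T : SimpleGraph V} {F : Set (ℤ → V)} {q : V → W}

/-- conditions for a good quotient -/
structure Nic (K : Type) [Group K] {V : Type} [MulAction K V] (T : SimpleGraph V)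
    (F : Set (ℤ → V)) : Prop where
  ne : ∀ (k : K) (x y : V), T.Adj x y → k • x ≠ y
  op : ∀ (k : K), ∀ φ ∈ F, k • φ 0 ≠ φ 2
  nb : ∀ (k : K) (x y : V), T.Adj x y → T.Adj x (k • y) → k • x = x ∨ k • y = y
  cor : Cor K F
  tr : ∀ φ ∈ F, ∀ ψ ∈ F, ∀ χ ∈ F, ∀ z : K, φ 0 = ψ 0 → ψ 0 = χ 0 → φ 1 = ψ (-1) →
    ψ 1 = χ (-1) → z • φ 0 = φ 0 → χ 1 = z • φ (-1) → False

theorem q_ne (hN : Nic K T F) (hq : Orb K q) {x y : V} (hxy : T.Adj x y) : q x ≠ q y := by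
  intro he
  obtain ⟨k, hk⟩ := (hq.eq x y).1 he
  exact hN.ne k x y hxy hk

theorem QT_adj (hN : Nic K T F) (hq : Orb K q) {a b : W} :
    (QT T q).Adj a b ↔ ∃ x y, T.Adj x y ∧ q x = a ∧ q y = b := by
  unfold QT
  rw [SimpleGraph.fromRel_adj]
  constructor
  · rintro ⟨-, ⟨x, y, h1, h2, h3⟩ | ⟨x, y, h1, h2, h3⟩⟩
    · exact ⟨x, y, h1, h2, h3⟩
    · exact ⟨y, x, h1.symm, h3, h2⟩
  · rintro ⟨x, y, h1, h2, h3⟩
    refine ⟨?_, Or.inl ⟨x, y, h1, h2, h3⟩⟩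
    rw [← h2, ← h3]
    exact q_ne hN hq h1

/-- lifts of an edge at a vertex are in one orbit of the stabilizer -/
theorem nbr_orb (hN : Nic K T F) {x y : V} {k : K} (hxy : T.Adj x y) (hk : T.Adj x (k • y)) :
    ∃ z : K, z • x = x ∧ z • y = k • y := by
  rcases hN.nb k x y hxy hk with h1 | h1
  · exact ⟨k, h1, rfl⟩
  · exact ⟨1, one_smul _ _, by rw [one_smul, h1]⟩

/-- lifts of an edge are in one orbit -/
theorem lift_edge (hN : Nic K T F) (hA : Ac K T F) (hq : Orb K q) {a b x y : V} (h1 : T.Adj a b)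
    (h2 : T.Adj x y) (h3 : q a = q x) (h4 : q b = q y) : ∃ k : K, k • a = x ∧ k • b = y := by
  obtain ⟨k, hk⟩ := (hq.eq _ _).1 h3
  have h5 := hA.adj k _ _ h1
  rw [hk] at h5
  have hqk : q (k • b) = q y := by rw [← h4]; exact ((hq.eq _ _).2 ⟨k, rfl⟩).symm
  obtain ⟨l, hl⟩ := (hq.eq _ _).1 hqk
  obtain ⟨z, hz1, hz2⟩ := nbr_orb (k := l) hN h5 (by rw [hl]; exact h2)
  exact ⟨z * k, by rw [mul_smul, hk, hz1], by rw [mul_smul, hz2, hl]⟩

theorem Cub.adj01 (h : Cub T F) {φ : ℤ → V} (hφ : φ ∈ F) : T.Adj (φ 0) (φ 1) := by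
  have b1 := h.adj φ hφ 0
  rwa [zero_add] at b1

theorem Cub.adj0m (h : Cub T F) {φ : ℤ → V} (hφ : φ ∈ F) : T.Adj (φ 0) (φ (-1)) := by
  have b2 := (h.adj φ hφ (-1)).symm
  rwa [neg_add_cancel] at b2

theorem mod4' (n : ℤ) : n % 4 = 0 ∨ n % 4 = 1 ∨ n % 4 = 2 ∨ n % 4 = 3 := by omega

theorem q_per (h : Cub T F) (hN : Nic K T F) (hq : Orb K q) {φ : ℤ → V} (hφ : φ ∈ F) :
    Per (fun i => q (φ i)) 4 := by
  intro i j
  constructor
  · intro hij
    obtain ⟨k, hk⟩ := (hq.eq _ _).1 hij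
    have hp := h.per φ hφ
    rcases mod4' (i - j) with hr | hr | hr | hr
    · exact Int.dvd_of_emod_eq_zero hr
    · exfalso
      rw [per4_eq hp (i := i) (j := j + 1) (by omega)] at hk
      exact hN.ne k _ _ (h.adj φ hφ j).symm hk
    · exfalso
      rw [per4_eq hp (i := i) (j := j + 2) (by omega)] at hk
      refine hN.op k _ (h.shift φ hφ (j + 2)) ?_
      show k • φ (0 + (j + 2)) = φ (2 + (j + 2))
      rw [zero_add, hk]
      exact per4_eq hp (by omega)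
    · exfalso
      rw [per4_eq hp (i := i) (j := j + 3) (by omega)] at hk
      have h1 := h.adj φ hφ (j + 3)
      rw [per4_eq hp (i := j + 3 + 1) (j := j) (by omega)] at h1
      exact hN.ne k _ _ h1 hk
  · intro hij
    show q (φ i) = q (φ j)
    rw [(h.per φ hφ i j).2 hij]

theorem cub_quot (h : Cub T F) (hA : Ac K T F) (hq : Orb K q) (hN : Nic K T F) :
    Cub (QT T q) (QF F q) := by
  have hqk : ∀ (k : K) (x : V), q (k • x) = q x := fun k x => ((hq.eq _ _).2 ⟨k, rfl⟩).symm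
  constructor
  · rintro _ ⟨φ, hφ, rfl⟩ i
    exact (QT_adj hN hq).2 ⟨_, _, h.adj φ hφ i, rfl, rfl⟩
  · rintro _ ⟨φ, hφ, rfl⟩
    exact q_per h hN hq hφ
  · rintro _ ⟨φ, hφ, rfl⟩ k
    exact ⟨_, h.shift φ hφ k, rfl⟩
  · rintro _ ⟨φ, hφ, rfl⟩
    exact ⟨_, h.refl φ hφ, rfl⟩
  · rintro _ ⟨φ, hφ, rfl⟩ _ ⟨ψ, hψ, rfl⟩ h0 h1 h2
    obtain ⟨k, hk0, hk1⟩ := lift_edge hN hA hq (h.adj01 hφ) (h.adj01 hψ) h0 h1
    obtain ⟨φ2, hφ2, e2⟩ : ∃ φ2, φ2 ∈ F ∧ φ2 = fun i => k • φ i := ⟨_, hA.face k φ hφ, rfl⟩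
    have q2 : ∀ i, q (φ2 i) = q (φ i) := fun i => by rw [e2]; exact hqk _ _
    have c0 : φ2 0 = ψ 0 := by rw [e2]; exact hk0
    have c1 : φ2 1 = ψ 1 := by rw [e2]; exact hk1
    obtain ⟨y, hy1, hy2⟩ := lift_edge hN hA hq (h.adj0m hφ2) (h.adj0m hψ) (by rw [c0])
      (by rw [q2]; exact h2)
    obtain ⟨w, hw0, hw1, hw2⟩ := hN.cor φ2 hφ2 ψ hψ y c0 c1 (hy1.trans c0.symm) hy2
    have := h.corner _ (hA.face w φ2 hφ2) ψ hψ (hw0.trans c0) (hw1.trans c1) hw2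
    funext i
    show q (φ i) = q (ψ i)
    rw [← q2, ← hqk w]
    exact congrArg q (congrFun this i)
  · rintro _ ⟨φ, hφ, rfl⟩ _ ⟨ψ, hψ, rfl⟩ _ ⟨χ, hχ, rfl⟩ h0 h0' h1 h2 h3
    have h0 : q (φ 0) = q (ψ 0) := h0
    have h0' : q (ψ 0) = q (χ 0) := h0'
    have h1 : q (φ 1) = q (ψ (-1)) := h1
    have h2 : q (ψ 1) = q (χ (-1)) := h2
    have h3 : q (χ 1) = q (φ (-1)) := h3
    obtain ⟨k, hk0, hk1⟩ := lift_edge hN hA hq (h.adj0m hψ) (h.adj01 hφ) h0.symm h1.symm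
    obtain ⟨ψ2, hψ2, e2⟩ : ∃ ψ2, ψ2 ∈ F ∧ ψ2 = fun i => k • ψ i := ⟨_, hA.face k ψ hψ, rfl⟩
    have q2 : ∀ i, q (ψ2 i) = q (ψ i) := fun i => by rw [e2]; exact hqk _ _
    have c0 : ψ2 0 = φ 0 := by rw [e2]; exact hk0
    have c1 : ψ2 (-1) = φ 1 := by rw [e2]; exact hk1
    obtain ⟨l, hl0, hl1⟩ := lift_edge hN hA hq (h.adj0m hχ) (h.adj01 hψ2)
      (by rw [q2]; exact h0'.symm) (by rw [q2]; exact h2.symm)
    obtain ⟨χ2, hχ2, e3⟩ : ∃ χ2, χ2 ∈ F ∧ χ2 = fun i => l • χ i := ⟨_, hA.face l χ hχ, rfl⟩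
    have q3 : ∀ i, q (χ2 i) = q (χ i) := fun i => by rw [e3]; exact hqk _ _
    have d0 : χ2 0 = ψ2 0 := by rw [e3]; exact hl0
    have d1 : χ2 (-1) = ψ2 1 := by rw [e3]; exact hl1
    obtain ⟨z, hz0, hz1⟩ := lift_edge hN hA hq (h.adj0m hφ) (h.adj01 hχ2)
      (by rw [d0, c0]) (by rw [q3]; exact h3.symm)
    exact hN.tr φ hφ ψ2 hψ2 χ2 hχ2 z c0.symm d0.symm c1.symm d1.symm
      (by rw [hz0, d0, c0]) hz1.symm

theorem sc_quot (h : Cub T F) (hA : Ac K T F) (hq : Orb K q) (hN : Nic K T F) (hs : SC T F)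
    (hgen : Subgroup.closure {k : K | ∃ x : V, k • x = x} = ⊤) :
    SC (QT T q) (QF F q) := by
  have hqk : ∀ (k : K) (x : V), q (k • x) = q x := fun k x => ((hq.eq _ _).2 ⟨k, rfl⟩).symm
  have hreach : ∀ x y, (QT T q).Reachable (q x) (q y) := by
    intro x y
    have hr := hs.1.preconnected x y
    rw [reachable_iff_reflTransGen] at hr
    induction hr with
    | refl => exact Reachable.refl _
    | tail _ hbc ih => exact ih.trans ((QT_adj hN hq).2 ⟨_, _, hbc, rfl, rfl⟩).reachable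
  obtain ⟨o⟩ := hs.1.nonempty
  refine ⟨?_, ?_⟩
  · have : Nonempty W := ⟨q o⟩
    refine ⟨fun a b => ?_⟩
    obtain ⟨x, rfl⟩ := hq.surj a
    obtain ⟨y, rfl⟩ := hq.surj b
    exact hreach x y
  · intro L _ c hc
    have hc' : Coc T F (fun x y => c (q x) (q y)) := by
      constructor
      · intro x y hxy
        exact hc.inv _ _ ((QT_adj hN hq).2 ⟨_, _, hxy, rfl, rfl⟩)
      · intro φ hφ n hn
        have hn4 : n = 4 := hn.unique (h.per φ hφ)
        subst hn4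
        have := hc.face _ ⟨φ, hφ, rfl⟩ 4 (q_per h hN hq hφ)
        rw [wrap4] at this ⊢
        exact this
    obtain ⟨f, hf⟩ := hs.2 _ _ hc'
    -- the defect
    have hρ : ∀ (k : K) (x y : V), f (k • x) * (f x)⁻¹ = f (k • y) * (f y)⁻¹ := by
      intro k x y
      have hr := hs.1.preconnected x y
      rw [reachable_iff_reflTransGen] at hr
      induction hr with
      | refl => rfl
      | @tail b d _ hbd ih =>
        rw [ih]
        have e1 := hf b d hbd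
        have e2 := hf _ _ (hA.adj k b d hbd)
        simp only [hqk] at e2
        rw [e1] at e2
        have e3 : f d = f b * ((f (k • b))⁻¹ * f (k • d)) := by
          rw [← e2]
          group
        rw [e3]
        group
    let ρ : K →* L := MonoidHom.mk' (fun k => f (k • o) * (f o)⁻¹) (by
      intro k l
      show f ((k * l) • o) * (f o)⁻¹ = f (k • o) * (f o)⁻¹ * (f (l • o) * (f o)⁻¹)
      rw [hρ k o (l • o), mul_smul]
      group)
    have hρ1 : ∀ k : K, ρ k = 1 := by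
      have : ρ.ker = ⊤ := by
        rw [eq_top_iff, ← hgen, Subgroup.closure_le]
        rintro k ⟨x, hx⟩
        show f (k • o) * (f o)⁻¹ = 1
        rw [hρ k o x, hx, mul_inv_cancel]
      intro k
      have hk : k ∈ ρ.ker := by rw [this]; exact Subgroup.mem_top k
      exact hk
    have hfk : ∀ (k : K) (x : V), f (k • x) = f x := by
      intro k x
      have h1 : f (k • o) * (f o)⁻¹ = 1 := hρ1 k
      rw [hρ k o x] at h1
      exact mul_inv_eq_one.1 h1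
    refine ⟨fun a => f (hq.surj a).choose, ?_⟩
    intro a b hab
    obtain ⟨x, y, h1, rfl, rfl⟩ := (QT_adj hN hq).1 hab
    have key : ∀ x : V, f (hq.surj (q x)).choose = f x := by
      intro x
      obtain ⟨k, hk⟩ := (hq.eq _ _).1 (hq.surj (q x)).choose_spec
      rw [← hfk k, hk]
    show c (q x) (q y) = (f (hq.surj (q x)).choose)⁻¹ * f (hq.surj (q y)).choose
    rw [key, key]
    exact hf x y h1

end

end Run7.h909.SQ
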