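import Pool.Agent.Run7.h909.SQ.Coc

/-!
# The subdivision of a square complex
-/

set_option autoImplicit false

namespace Run7.h909.SQ

open SimpleGraph Run7.h909.TD
open Run7.h909.TT (per4_eq per4_ext)

section

variable {V : Type}

/-- the type of the cells -/
abbrev U (V : Type) : Type := V ⊕ (Sym2 V ⊕ Set (ℤ → V))

/-- a closed path with its shifts and their inverses -/
def cls (φ : ℤ → V) : Set (ℤ → V) :=
  {ψ | ∃ k : ℤ, (∀ i, ψ i = φ (i + k)) ∨ (∀ i, ψ i = φ (k - i))}

theorem mem_cls (φ : ℤ → V) : φ ∈ cls φ := ⟨0, Or.inl fun i => by rw [add_zero]⟩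

theorem cls_sub {φ ψ : ℤ → V} (h : ψ ∈ cls φ) : cls ψ ⊆ cls φ := by
  rintro χ ⟨k, hk⟩
  obtain ⟨m, hm⟩ := h
  rcases hm with hm | hm
  · rcases hk with hk | hk
    · exact ⟨k + m, Or.inl fun i => by rw [hk, hm, add_assoc]⟩
    · exact ⟨k + m, Or.inr fun i => by rw [hk, hm]; congr 1; ring⟩
  · rcases hk with hk | hk
    · exact ⟨m - k, Or.inr fun i => by rw [hk, hm]; congr 1; ring⟩
    · exact ⟨m - k, Or.inl fun i => by rw [hk, hm]; congr 1; ring⟩

theorem cls_symm {φ ψ : ℤ → V} (h : ψ ∈ cls φ) : φ ∈ cls ψ := by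
  obtain ⟨m, hm | hm⟩ := h
  · exact ⟨-m, Or.inl fun i => by rw [hm]; congr 1; ring⟩
  · exact ⟨m, Or.inr fun i => by rw [hm]; congr 1; ring⟩

theorem cls_eq {φ ψ : ℤ → V} (h : ψ ∈ cls φ) : cls ψ = cls φ :=
  Set.Subset.antisymm (cls_sub h) (cls_sub (cls_symm h))

theorem cls_shift (φ : ℤ → V) (k : ℤ) : cls (fun i => φ (i + k)) = cls φ :=
  cls_eq ⟨k, Or.inl fun _ => rfl⟩

theorem cls_neg (φ : ℤ → V) : cls (fun i => φ (-i)) = cls φ :=
  cls_eq ⟨0, Or.inr fun i => by rw [zero_sub]⟩

/-- the cells of a complex -/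
def Good (T : SimpleGraph V) (F : Set (ℤ → V)) : U V → Prop
  | Sum.inl _ => True
  | Sum.inr (Sum.inl p) => p ∈ T.edgeSet
  | Sum.inr (Sum.inr c) => ∃ φ ∈ F, c = cls φ

/-- the incidence of cells -/
def Inc (F : Set (ℤ → V)) : U V → U V → Prop
  | Sum.inl x, Sum.inr (Sum.inl p) => x ∈ p
  | Sum.inr (Sum.inl p), Sum.inr (Sum.inr c) => ∃ φ ∈ F, p = s(φ 0, φ 1) ∧ c = cls φ
  | _, _ => False

/-- the small square at the vertex `φ 0` of the square `φ` -/
def B (φ : ℤ → V) (i : ℤ) : U V :=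
  if i % 4 = 0 then Sum.inl (φ 0) else if i % 4 = 1 then Sum.inr (Sum.inl s(φ 0, φ 1)) else
    if i % 4 = 2 then Sum.inr (Sum.inr (cls φ)) else Sum.inr (Sum.inl s(φ 0, φ (-1)))

theorem B0 (φ : ℤ → V) {i : ℤ} (h : i % 4 = 0) : B φ i = Sum.inl (φ 0) := by
  rw [B, if_pos h]

theorem B1 (φ : ℤ → V) {i : ℤ} (h : i % 4 = 1) : B φ i = Sum.inr (Sum.inl s(φ 0, φ 1)) := by
  rw [B, if_neg (by omega), if_pos h]

theorem B2 (φ : ℤ → V) {i : ℤ} (h : i % 4 = 2) : B φ i = Sum.inr (Sum.inr (cls φ)) := by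
  rw [B, if_neg (by omega), if_neg (by omega), if_pos h]

theorem B3 (φ : ℤ → V) {i : ℤ} (h : i % 4 = 3) : B φ i = Sum.inr (Sum.inl s(φ 0, φ (-1))) := by
  rw [B, if_neg (by omega), if_neg (by omega), if_neg (by omega)]

theorem B_neg (φ : ℤ → V) (i : ℤ) : B φ (-i) = B (fun j => φ (-j)) i := by
  rcases mod4' i with h | h | h | h
  · rw [B0 _ h, B0 _ (i := -i) (by omega)]
    rfl
  · rw [B1 _ h, B3 _ (i := -i) (by omega)]
    rfl
  · rw [B2 _ h, B2 _ (i := -i) (by omega), cls_neg]
  · rw [B3 _ h, B1 _ (i := -i) (by omega)]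
    simp

theorem B_mod (φ : ℤ → V) {i j : ℤ} (h : (4 : ℤ) ∣ i - j) : B φ i = B φ j := by
  unfold B
  have : i % 4 = j % 4 := by omega
  rw [this]

/-- the vertices of the subdivision -/
def Sv (T : SimpleGraph V) (F : Set (ℤ → V)) : Type := {a : U V // Good T F a}

/-- the graph of the subdivision -/
def SG (T : SimpleGraph V) (F : Set (ℤ → V)) : SimpleGraph (Sv T F) where
  Adj a b := Inc F a.1 b.1 ∨ Inc F b.1 a.1
  symm := ⟨fun _ _ h => h.symm⟩
  loopless := ⟨fun a h => by
    obtain ⟨a, ha⟩ := a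
    rcases a with x | p | c
    · exact h.elim id id
    · exact h.elim id id
    · exact h.elim id id⟩

/-- the squares of the subdivision -/
def SF (T : SimpleGraph V) (F : Set (ℤ → V)) : Set (ℤ → Sv T F) :=
  {ψ | ∃ φ ∈ F, ∃ k : ℤ, ∀ i, (ψ i).1 = B φ (i + k)}

variable {T : SimpleGraph V} {F : Set (ℤ → V)}

theorem Cub.ne1 (h : Cub T F) {φ : ℤ → V} (hφ : φ ∈ F) : φ 1 ≠ φ (-1) := by
  intro he
  have := (h.per φ hφ _ _).1 he
  omega

theorem Cub.cls_mem (h : Cub T F) {φ ψ : ℤ → V} (hφ : φ ∈ F) (hψ : ψ ∈ cls φ) : ψ ∈ F := by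
  obtain ⟨k, hk | hk⟩ := hψ
  · have := h.shift φ hφ k
    rwa [show ψ = fun i => φ (i + k) from funext hk]
  · have := h.refl _ (h.shift φ hφ k)
    rw [show ψ = fun i => φ (-i + k) from funext fun i => by rw [hk]; congr 1; ring]
    exact this

theorem Cub.cls_zero (h : Cub T F) {φ ψ : ℤ → V} (hφ : φ ∈ F) (hψ : ψ ∈ cls φ)
    (h0 : ψ 0 = φ 0) : ψ = φ ∨ ψ = fun i => φ (-i) := by
  have hp := h.per φ hφ
  obtain ⟨k, hk | hk⟩ := hψ
  · left
    funext i
    have h1 : φ (0 + k) = φ 0 := by rw [← hk, h0]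
    have h2 := (hp _ _).1 h1
    rw [hk]
    exact per4_eq hp (by omega)
  · right
    funext i
    have h1 : φ (k - 0) = φ 0 := by rw [← hk, h0]
    have h2 := (hp _ _).1 h1
    show ψ i = φ (-i)
    rw [hk]
    exact per4_eq hp (by omega)

/-- a square is determined by a flag -/
theorem Cub.flag (h : Cub T F) {φ ψ : ℤ → V} (hφ : φ ∈ F) (hc : cls ψ = cls φ)
    (h0 : ψ 0 = φ 0) (h1 : ψ 1 = φ 1) : ψ = φ := by
  have hψ : ψ ∈ cls φ := by rw [← hc]; exact mem_cls ψ
  rcases h.cls_zero hφ hψ h0 with h2 | h2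
  · exact h2
  · exfalso
    rw [h2] at h1
    exact h.ne1 hφ h1.symm

theorem Cub.edge_pos (h : Cub T F) {φ : ℤ → V} (hφ : φ ∈ F) {i j : ℤ}
    (he : s(φ i, φ (i + 1)) = s(φ j, φ (j + 1))) : (4 : ℤ) ∣ i - j := by
  have hp := h.per φ hφ
  rw [Sym2.eq_iff] at he
  rcases he with ⟨h1, h2⟩ | ⟨h1, h2⟩
  · exact (hp _ _).1 h1
  · have h3 := (hp _ _).1 h1
    have h4 := (hp _ _).1 h2
    omega

/-- the positions of the edges of a square at a vertex -/
theorem cen {φ ψ : ℤ → V} (hψ : ψ ∈ cls φ) : ∃ j l : ℤ, s(ψ 0, ψ 1) = s(φ j, φ (j + 1)) ∧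
    s(ψ 0, ψ (-1)) = s(φ l, φ (l + 1)) ∧ (j - l) % 2 = 1 := by
  obtain ⟨k, hk | hk⟩ := hψ
  · refine ⟨k, k - 1, ?_, ?_, by omega⟩
    · rw [hk, hk, zero_add, add_comm 1 k]
    · rw [hk, hk, zero_add, Sym2.eq_swap]
      congr 2
      · ring
      · ring
  · refine ⟨k - 1, k, ?_, ?_, by omega⟩
    · rw [hk, hk, sub_zero, Sym2.eq_swap]
      congr 2
      ring
    · rw [hk, hk, sub_zero]
      congr 2

theorem sym_left {x y z : V} (h : s(x, y) = s(x, z)) : y = z := by
  rw [Sym2.eq_iff] at h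
  rcases h with ⟨-, h⟩ | ⟨h1, h2⟩
  · exact h
  · exact h2.trans h1

theorem Cub.sub (h : Cub T F) : Cub (SG T F) (SF T F) := by
  constructor
  · rintro ψ ⟨φ, hφ, k, hk⟩ i
    show Inc F (ψ i).1 (ψ (i + 1)).1 ∨ Inc F (ψ (i + 1)).1 (ψ i).1
    rw [hk, hk]
    rcases mod4' (i + k) with h1 | h1 | h1 | h1
    · rw [B0 _ h1, B1 _ (i := i + 1 + k) (by omega)]
      left
      show φ 0 ∈ s(φ 0, φ 1)
      simp
    · rw [B1 _ h1, B2 _ (i := i + 1 + k) (by omega)]
      left
      exact ⟨φ, hφ, rfl, rfl⟩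
    · rw [B2 _ h1, B3 _ (i := i + 1 + k) (by omega)]
      right
      exact ⟨_, h.refl φ hφ, rfl, (cls_neg φ).symm⟩
    · rw [B3 _ h1, B0 _ (i := i + 1 + k) (by omega)]
      right
      show φ 0 ∈ s(φ 0, φ (-1))
      simp
  · rintro ψ ⟨φ, hφ, k, hk⟩ i j
    have hne : s(φ 0, φ 1) ≠ s(φ 0, φ (-1)) := fun he => h.ne1 hφ (sym_left he)
    constructor
    · intro hij
      have h1 : B φ (i + k) = B φ (j + k) := by rw [← hk, ← hk, hij]
      rcases mod4' (i + k) with h2 | h2 | h2 | h2 <;> rcases mod4' (j + k) with h3 | h3 | h3 | h3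
      · omega
      · rw [B0 _ h2, B1 _ h3] at h1
        cases h1
      · rw [B0 _ h2, B2 _ h3] at h1
        cases h1
      · rw [B0 _ h2, B3 _ h3] at h1
        cases h1
      · rw [B1 _ h2, B0 _ h3] at h1
        cases h1
      · omega
      · rw [B1 _ h2, B2 _ h3] at h1
        cases h1
      · rw [B1 _ h2, B3 _ h3] at h1
        exact absurd (Sum.inl_injective (Sum.inr_injective h1)) hne
      · rw [B2 _ h2, B0 _ h3] at h1
        cases h1
      · rw [B2 _ h2, B1 _ h3] at h1
        cases h1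
      · omega
      · rw [B2 _ h2, B3 _ h3] at h1
        cases h1
      · rw [B3 _ h2, B0 _ h3] at h1
        cases h1
      · rw [B3 _ h2, B1 _ h3] at h1
        exact absurd (Sum.inl_injective (Sum.inr_injective h1)).symm hne
      · rw [B3 _ h2, B2 _ h3] at h1
        cases h1
      · omega
    · intro hij
      refine Subtype.ext ?_
      rw [hk, hk]
      exact B_mod φ (by omega)
  · rintro ψ ⟨φ, hφ, k, hk⟩ m
    exact ⟨φ, hφ, m + k, fun i => by rw [hk, add_assoc]⟩
  · rintro ψ ⟨φ, hφ, k, hk⟩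
    refine ⟨_, h.refl φ hφ, -k, fun i => ?_⟩
    rw [hk, ← B_neg]
    congr 1
    ring
  · rintro ψ ⟨φ, hφ, k, hk⟩ ψ' ⟨φ', hφ', k', hk'⟩ h0 h1 h2
    have e0 : B φ (0 + k) = B φ' (0 + k') := by rw [← hk, ← hk', h0]
    have e1 : B φ (1 + k) = B φ' (1 + k') := by rw [← hk, ← hk', h1]
    have e2 : B φ (-1 + k) = B φ' (-1 + k') := by rw [← hk, ← hk', h2]
    have key : φ = φ' → (4 : ℤ) ∣ k - k' → ψ = ψ' := by
      rintro rfl hkk
      funext i
      refine Subtype.ext ?_
      rw [hk, hk']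
      exact B_mod φ (by omega)
    rcases mod4' k with a | a | a | a <;> rcases mod4' k' with b | b | b | b
    · rw [B0 _ (i := 0 + k) (by omega), B0 _ (i := 0 + k') (by omega)] at e0
      rw [B1 _ (i := 1 + k) (by omega), B1 _ (i := 1 + k') (by omega)] at e1
      rw [B3 _ (i := -1 + k) (by omega), B3 _ (i := -1 + k') (by omega)] at e2
      have f0 := Sum.inl_injective e0
      have f1 := Sum.inl_injective (Sum.inr_injective e1)
      have f2 := Sum.inl_injective (Sum.inr_injective e2)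
      rw [f0] at f1 f2
      exact key (h.corner φ hφ φ' hφ' f0 (sym_left f1) (sym_left f2)) (by omega)
    · rw [B0 _ (i := 0 + k) (by omega), B1 _ (i := 0 + k') (by omega)] at e0
      cases e0
    · rw [B0 _ (i := 0 + k) (by omega), B2 _ (i := 0 + k') (by omega)] at e0
      cases e0
    · rw [B0 _ (i := 0 + k) (by omega), B3 _ (i := 0 + k') (by omega)] at e0
      cases e0
    · rw [B1 _ (i := 0 + k) (by omega), B0 _ (i := 0 + k') (by omega)] at e0
      cases e0
    · rw [B1 _ (i := 0 + k) (by omega), B1 _ (i := 0 + k') (by omega)] at e0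
      rw [B2 _ (i := 1 + k) (by omega), B2 _ (i := 1 + k') (by omega)] at e1
      rw [B0 _ (i := -1 + k) (by omega), B0 _ (i := -1 + k') (by omega)] at e2
      have f0 := Sum.inl_injective (Sum.inr_injective e0)
      have f1 := Sum.inr_injective (Sum.inr_injective e1)
      have f2 := Sum.inl_injective e2
      rw [f2] at f0
      exact key (h.flag hφ' f1 f2 (sym_left f0)) (by omega)
    · rw [B1 _ (i := 0 + k) (by omega), B2 _ (i := 0 + k') (by omega)] at e0
      cases e0
    · rw [B2 _ (i := 1 + k) (by omega), B0 _ (i := 1 + k') (by omega)] at e1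
      cases e1
    · rw [B2 _ (i := 0 + k) (by omega), B0 _ (i := 0 + k') (by omega)] at e0
      cases e0
    · rw [B2 _ (i := 0 + k) (by omega), B1 _ (i := 0 + k') (by omega)] at e0
      cases e0
    · rw [B2 _ (i := 0 + k) (by omega), B2 _ (i := 0 + k') (by omega)] at e0
      rw [B3 _ (i := 1 + k) (by omega), B3 _ (i := 1 + k') (by omega)] at e1
      rw [B1 _ (i := -1 + k) (by omega), B1 _ (i := -1 + k') (by omega)] at e2
      have f0 := Sum.inr_injective (Sum.inr_injective e0)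
      have f1 := Sum.inl_injective (Sum.inr_injective e1)
      have f2 := Sum.inl_injective (Sum.inr_injective e2)
      have g1 : φ 0 ∈ s(φ' 0, φ' 1) := by rw [← f2]; simp
      have g2 : φ 0 ∈ s(φ' 0, φ' (-1)) := by rw [← f1]; simp
      rw [Sym2.mem_iff] at g1 g2
      have g3 : φ 0 = φ' 0 := by
        rcases g1 with g1 | g1
        · exact g1
        · rcases g2 with g2 | g2
          · exact g2
          · exact absurd (g1.symm.trans g2) (h.ne1 hφ')
      rw [g3] at f2
      exact key (h.flag hφ' f0 g3 (sym_left f2)) (by omega)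
    · rw [B2 _ (i := 0 + k) (by omega), B3 _ (i := 0 + k') (by omega)] at e0
      cases e0
    · rw [B3 _ (i := 0 + k) (by omega), B0 _ (i := 0 + k') (by omega)] at e0
      cases e0
    · rw [B0 _ (i := 1 + k) (by omega), B2 _ (i := 1 + k') (by omega)] at e1
      cases e1
    · rw [B3 _ (i := 0 + k) (by omega), B2 _ (i := 0 + k') (by omega)] at e0
      cases e0
    · rw [B3 _ (i := 0 + k) (by omega), B3 _ (i := 0 + k') (by omega)] at e0
      rw [B0 _ (i := 1 + k) (by omega), B0 _ (i := 1 + k') (by omega)] at e1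
      rw [B2 _ (i := -1 + k) (by omega), B2 _ (i := -1 + k') (by omega)] at e2
      have f0 := Sum.inl_injective (Sum.inr_injective e0)
      have f1 := Sum.inl_injective e1
      have f2 := Sum.inr_injective (Sum.inr_injective e2)
      rw [f1] at f0
      have g := sym_left f0
      have h3 : (fun i => φ (-i)) = fun i => φ' (-i) := by
        refine h.flag (h.refl φ' hφ') ?_ ?_ ?_
        · rw [cls_neg, cls_neg, f2]
        · show φ (-0) = φ' (-0)
          rw [neg_zero, f1]
        · exact g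
      refine key ?_ (by omega)
      funext i
      have := congrFun h3 (-i)
      have h4 : φ (- -i) = φ' (- -i) := this
      rwa [neg_neg] at h4
  · rintro ψ1 ⟨φ1, hφ1, k1, hk1⟩ ψ2 ⟨φ2, hφ2, k2, hk2⟩ ψ3 ⟨φ3, hφ3, k3, hk3⟩ h1 h2 h3 h4 h5
    have e1 : B φ1 (0 + k1) = B φ2 (0 + k2) := by rw [← hk1, ← hk2, h1]
    have e2 : B φ2 (0 + k2) = B φ3 (0 + k3) := by rw [← hk2, ← hk3, h2]
    have e3 : B φ1 (1 + k1) = B φ2 (-1 + k2) := by rw [← hk1, ← hk2, h3]
    have e4 : B φ2 (1 + k2) = B φ3 (-1 + k3) := by rw [← hk2, ← hk3, h4]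
    have e5 : B φ3 (1 + k3) = B φ1 (-1 + k1) := by rw [← hk3, ← hk1, h5]
    clear h1 h2 h3 h4 h5 hk1 hk2 hk3
    rcases mod4' k1 with a | a | a | a
    · -- a vertex
      rw [B0 φ1 (i := 0 + k1) (by omega)] at e1
      rw [B1 φ1 (i := 1 + k1) (by omega)] at e3
      rw [B3 φ1 (i := -1 + k1) (by omega)] at e5
      rcases mod4' k2 with b | b | b | b
      · rw [B0 φ2 (i := 0 + k2) (by omega)] at e1 e2
        rw [B3 φ2 (i := -1 + k2) (by omega)] at e3
        rw [B1 φ2 (i := 1 + k2) (by omega)] at e4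
        rcases mod4' k3 with c | c | c | c
        · rw [B0 φ3 (i := 0 + k3) (by omega)] at e2
          rw [B3 φ3 (i := -1 + k3) (by omega)] at e4
          rw [B1 φ3 (i := 1 + k3) (by omega)] at e5
          have f1 := Sum.inl_injective e1
          have f2 := Sum.inl_injective e2
          have f3 := Sum.inl_injective (Sum.inr_injective e3)
          have f4 := Sum.inl_injective (Sum.inr_injective e4)
          have f5 := Sum.inl_injective (Sum.inr_injective e5)
          rw [← f1] at f3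
          rw [← f2] at f4
          rw [f1, f2] at f5
          exact h.tri φ1 hφ1 φ2 hφ2 φ3 hφ3 f1 f2 (sym_left f3) (sym_left f4) (sym_left f5)
        · rw [B1 φ3 (i := 0 + k3) (by omega)] at e2
          cases e2
        · rw [B2 φ3 (i := 0 + k3) (by omega)] at e2
          cases e2
        · rw [B3 φ3 (i := 0 + k3) (by omega)] at e2
          cases e2
      · rw [B1 φ2 (i := 0 + k2) (by omega)] at e1
        cases e1
      · rw [B2 φ2 (i := 0 + k2) (by omega)] at e1
        cases e1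
      · rw [B3 φ2 (i := 0 + k2) (by omega)] at e1
        cases e1
    · -- an edge
      rw [B1 φ1 (i := 0 + k1) (by omega)] at e1
      rw [B2 φ1 (i := 1 + k1) (by omega)] at e3
      rw [B0 φ1 (i := -1 + k1) (by omega)] at e5
      rcases mod4' k2 with b | b | b | b
      · rw [B0 φ2 (i := 0 + k2) (by omega)] at e1
        cases e1
      · rw [B0 φ2 (i := -1 + k2) (by omega)] at e3
        cases e3
      · rw [B2 φ2 (i := 0 + k2) (by omega)] at e1
        cases e1
      · rw [B3 φ2 (i := 0 + k2) (by omega)] at e2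
        rw [B0 φ2 (i := 1 + k2) (by omega)] at e4
        rcases mod4' k3 with c | c | c | c
        · rw [B0 φ3 (i := 0 + k3) (by omega)] at e2
          cases e2
        · rw [B2 φ3 (i := 1 + k3) (by omega)] at e5
          cases e5
        · rw [B2 φ3 (i := 0 + k3) (by omega)] at e2
          cases e2
        · rw [B2 φ3 (i := -1 + k3) (by omega)] at e4
          cases e4
    · -- a square
      rw [B2 φ1 (i := 0 + k1) (by omega)] at e1
      rw [B3 φ1 (i := 1 + k1) (by omega)] at e3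
      rw [B1 φ1 (i := -1 + k1) (by omega)] at e5
      rcases mod4' k2 with b | b | b | b
      · rw [B0 φ2 (i := 0 + k2) (by omega)] at e1
        cases e1
      · rw [B1 φ2 (i := 0 + k2) (by omega)] at e1
        cases e1
      · rw [B2 φ2 (i := 0 + k2) (by omega)] at e1 e2
        rw [B1 φ2 (i := -1 + k2) (by omega)] at e3
        rw [B3 φ2 (i := 1 + k2) (by omega)] at e4
        rcases mod4' k3 with c | c | c | c
        · rw [B0 φ3 (i := 0 + k3) (by omega)] at e2
          cases e2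
        · rw [B1 φ3 (i := 0 + k3) (by omega)] at e2
          cases e2
        · rw [B2 φ3 (i := 0 + k3) (by omega)] at e2
          rw [B1 φ3 (i := -1 + k3) (by omega)] at e4
          rw [B3 φ3 (i := 1 + k3) (by omega)] at e5
          have f1 := Sum.inr_injective (Sum.inr_injective e1)
          have f2 := Sum.inr_injective (Sum.inr_injective e2)
          have f3 := Sum.inl_injective (Sum.inr_injective e3)
          have f4 := Sum.inl_injective (Sum.inr_injective e4)
          have f5 := Sum.inl_injective (Sum.inr_injective e5)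
          obtain ⟨j1, l1, p1, q1, r1⟩ := cen (mem_cls φ1)
          obtain ⟨j2, l2, p2, q2, r2⟩ := cen (φ := φ1) (ψ := φ2) (by
            rw [f1]; exact mem_cls φ2)
          obtain ⟨j3, l3, p3, q3, r3⟩ := cen (φ := φ1) (ψ := φ3) (by
            rw [f1, f2]; exact mem_cls φ3)
          have g1 := h.edge_pos hφ1 ((q1.symm.trans f3).trans p2)
          have g2 := h.edge_pos hφ1 ((q2.symm.trans f4).trans p3)
          have g3 := h.edge_pos hφ1 ((q3.symm.trans f5).trans p1)
          omega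
        · rw [B3 φ3 (i := 0 + k3) (by omega)] at e2
          cases e2
      · rw [B3 φ2 (i := 0 + k2) (by omega)] at e1
        cases e1
    · -- an edge
      rw [B3 φ1 (i := 0 + k1) (by omega)] at e1
      rw [B0 φ1 (i := 1 + k1) (by omega)] at e3
      rw [B2 φ1 (i := -1 + k1) (by omega)] at e5
      rcases mod4' k2 with b | b | b | b
      · rw [B0 φ2 (i := 0 + k2) (by omega)] at e1
        cases e1
      · rw [B1 φ2 (i := 0 + k2) (by omega)] at e2
        rw [B2 φ2 (i := 1 + k2) (by omega)] at e4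
        rcases mod4' k3 with c | c | c | c
        · rw [B0 φ3 (i := 0 + k3) (by omega)] at e2
          cases e2
        · rw [B0 φ3 (i := -1 + k3) (by omega)] at e4
          cases e4
        · rw [B2 φ3 (i := 0 + k3) (by omega)] at e2
          cases e2
        · rw [B0 φ3 (i := 1 + k3) (by omega)] at e5
          cases e5
      · rw [B2 φ2 (i := 0 + k2) (by omega)] at e1
        cases e1
      · rw [B2 φ2 (i := -1 + k2) (by omega)] at e3
        cases e3

end

end Run7.h909.SQ
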