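import Pool.Agent.Run7.h909.SQ.SubSc

/-!
# Group actions on the subdivision
-/

set_option autoImplicit false

namespace Run7.h909.SQ

open SimpleGraph Run7.h909.TD
open Run7.h909.TT (per4_eq per4_ext)

section

variable {H V : Type} [Group H] [MulAction H V] {T : SimpleGraph V} {F : Set (ℤ → V)}

/-- the action on closed paths -/
def pa (h : H) (φ : ℤ → V) : ℤ → V := fun i => h • φ i

theorem pa_one (φ : ℤ → V) : pa (1 : H) φ = φ := funext fun _ => one_smul _ _

theorem pa_mul (g h : H) (φ : ℤ → V) : pa (g * h) φ = pa g (pa h φ) :=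
  funext fun _ => mul_smul _ _ _

theorem pa_cls {h : H} {φ ψ : ℤ → V} (hψ : ψ ∈ cls φ) : pa h ψ ∈ cls (pa h φ) := by
  obtain ⟨k, hk | hk⟩ := hψ
  · exact ⟨k, Or.inl fun i => by show h • ψ i = h • φ (i + k); rw [hk]⟩
  · exact ⟨k, Or.inr fun i => by show h • ψ i = h • φ (k - i); rw [hk]⟩

theorem image_cls (h : H) (φ : ℤ → V) : pa h '' cls φ = cls (pa h φ) := by
  ext ψ
  constructor
  · rintro ⟨χ, hχ, rfl⟩
    exact pa_cls hχ
  · intro hψ
    refine ⟨pa h⁻¹ ψ, ?_, by rw [← pa_mul, mul_inv_cancel, pa_one]⟩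
    have := pa_cls (h := h⁻¹) hψ
    rwa [← pa_mul, inv_mul_cancel, pa_one] at this

/-- the action on cells -/
def ua (h : H) : U V → U V :=
  Sum.map (fun x => h • x) (Sum.map (Sym2.map fun x => h • x) fun c => pa h '' c)

theorem ua_v (h : H) (x : V) : ua h (Sum.inl x : U V) = Sum.inl (h • x) := rfl

theorem ua_e (h : H) (x y : V) :
    ua h (Sum.inr (Sum.inl s(x, y)) : U V) = Sum.inr (Sum.inl s(h • x, h • y)) := rfl

theorem ua_s (h : H) (φ : ℤ → V) :
    ua h (Sum.inr (Sum.inr (cls φ)) : U V) = Sum.inr (Sum.inr (cls (pa h φ))) := by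
  show Sum.inr (Sum.inr (pa h '' cls φ)) = _
  rw [image_cls]

theorem ua_B (h : H) (φ : ℤ → V) (i : ℤ) : ua h (B φ i) = B (pa h φ) i := by
  rcases mod4' i with a | a | a | a
  · rw [B0 _ a, B0 _ a]
    rfl
  · rw [B1 _ a, B1 _ a]
    rfl
  · rw [B2 _ a, B2 _ a, ua_s]
  · rw [B3 _ a, B3 _ a]
    rfl

theorem good_ua (hA : Ac H T F) (h : H) {a : U V} (ha : Good T F a) : Good T F (ua h a) := by
  rcases a with x | p | c
  · trivial
  · induction p using Sym2.ind with
    | _ x y => exact hA.adj h x y ha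
  · obtain ⟨φ, hφ, rfl⟩ := ha
    exact ⟨pa h φ, hA.face h φ hφ, image_cls h φ⟩

theorem ua_one (hA : Ac H T F) {a : U V} (ha : Good T F a) : ua (1 : H) a = a := by
  rcases a with x | p | c
  · rw [ua_v, one_smul]
  · induction p using Sym2.ind with
    | _ x y => rw [ua_e, one_smul, one_smul]
  · obtain ⟨φ, hφ, rfl⟩ := ha
    rw [ua_s, pa_one]

theorem ua_mul (hA : Ac H T F) (g h : H) {a : U V} (ha : Good T F a) :
    ua (g * h) a = ua g (ua h a) := by
  rcases a with x | p | c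
  · rw [ua_v, ua_v, ua_v, mul_smul]
  · induction p using Sym2.ind with
    | _ x y => rw [ua_e, ua_e, ua_e, mul_smul, mul_smul]
  · obtain ⟨φ, hφ, rfl⟩ := ha
    rw [ua_s, ua_s, ua_s, pa_mul]

/-- the action on the subdivision -/
@[reducible] def sAct (hA : Ac H T F) : MulAction H (Sv T F) where
  smul h a := ⟨ua h a.1, good_ua hA h a.2⟩
  one_smul a := Subtype.ext (ua_one hA a.2)
  mul_smul g h a := Subtype.ext (ua_mul hA g h a.2)

theorem inc_ua (hA : Ac H T F) (h : H) {a b : U V} (hab : Inc F a b) : Inc F (ua h a) (ua h b) := by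
  rcases a with x | p | c
  · rcases b with y | p' | c'
    · exact hab.elim
    · have hx : x ∈ p' := hab
      obtain ⟨y, rfl⟩ := hx
      show h • x ∈ s(h • x, h • y)
      simp
    · exact hab.elim
  · rcases b with y | p' | c'
    · exact hab.elim
    · exact hab.elim
    · obtain ⟨φ, hφ, rfl, rfl⟩ := hab
      exact ⟨pa h φ, hA.face h φ hφ, rfl, image_cls h φ⟩
  · rcases b with y | p' | c'
    · exact hab.elim
    · exact hab.elim
    · exact hab.elim

theorem sAc (hA : Ac H T F) : letI := sAct hA; Ac H (SG T F) (SF T F) := by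
  letI := sAct hA
  constructor
  · intro g a b hab
    exact hab.imp (inc_ua hA g) (inc_ua hA g)
  · rintro g ψ ⟨φ, hφ, k, hk⟩
    refine ⟨pa g φ, hA.face g φ hφ, k, fun i => ?_⟩
    show ua g (ψ i).1 = _
    rw [hk, ua_B]

/-- no element takes a vertex to an adjacent vertex, or both pairs of opposite vertices of a square are
not in one orbit -/
def Tyd (H : Type) [Group H] {V : Type} [MulAction H V] (T : SimpleGraph V) (F : Set (ℤ → V)) :
    Prop :=
  (∀ (h : H) (x y : V), T.Adj x y → h • x ≠ y) ∧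
    ∀ φ ∈ F, (∀ h : H, h • φ 0 ≠ φ 2) ∨ (∀ h : H, h • φ 1 ≠ φ 3)

theorem sTyd (hA : Ac H T F) : letI := sAct hA; Tyd H (SG T F) (SF T F) := by
  letI := sAct hA
  constructor
  · intro h a b hab he
    have he' : ua h a.1 = b.1 := congrArg Subtype.val he
    have key : ∀ a b : U V, ua h a = b → (Inc F a b → False) ∧ (Inc F b a → False) := by
      rintro (x | p | c) b rfl
      · exact ⟨id, id⟩
      · exact ⟨id, id⟩
      · exact ⟨id, id⟩
    exact hab.elim (key _ _ he').1 (key _ _ he').2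
  · rintro ψ ⟨φ, hφ, k, hk⟩
    rcases mod4' k with a | a | a | a
    · left
      intro h he
      have he' : ua h (ψ 0).1 = (ψ 2).1 := congrArg Subtype.val he
      rw [hk, hk, B0 _ (i := 0 + k) (by omega), B2 _ (i := 2 + k) (by omega)] at he'
      cases he'
    · right
      intro h he
      have he' : ua h (ψ 1).1 = (ψ 3).1 := congrArg Subtype.val he
      rw [hk, hk, B2 _ (i := 1 + k) (by omega), B0 _ (i := 3 + k) (by omega), ua_s] at he'
      cases he'
    · left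
      intro h he
      have he' : ua h (ψ 0).1 = (ψ 2).1 := congrArg Subtype.val he
      rw [hk, hk, B2 _ (i := 0 + k) (by omega), B0 _ (i := 2 + k) (by omega), ua_s] at he'
      cases he'
    · right
      intro h he
      have he' : ua h (ψ 1).1 = (ψ 3).1 := congrArg Subtype.val he
      rw [hk, hk, B0 _ (i := 1 + k) (by omega), B2 _ (i := 3 + k) (by omega)] at he'
      cases he'

/-- an element which fixes a cell fixes a vertex -/
theorem ell (hQ : Cub T F) (hA : Ac H T F) (ht : Tyd H T F) {h : H} {a : Sv T F}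
    (ha : (letI := sAct hA; h • a = a)) : ∃ x : V, h • x = x := by
  have ha' : ua h a.1 = a.1 := congrArg Subtype.val ha
  clear ha
  induction a using Sv.ind with
  | h1 x => exact ⟨x, Sum.inl_injective ha'⟩
  | h2 x y hxy =>
    have h1 : s(h • x, h • y) = s(x, y) := Sum.inl_injective (Sum.inr_injective ha')
    rw [Sym2.eq_iff] at h1
    rcases h1 with ⟨h1, -⟩ | ⟨h1, -⟩
    · exact ⟨x, h1⟩
    · exact (ht.1 h x y hxy h1).elim
  | h3 φ hφ =>
    have h0 : ua h (Sum.inr (Sum.inr (cls φ)) : U V) = Sum.inr (Sum.inr (cls φ)) := ha'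
    rw [ua_s] at h0
    have h1 : cls (pa h φ) = cls φ := Sum.inr_injective (Sum.inr_injective h0)
    have h2 : pa h φ ∈ cls φ := by rw [← h1]; exact mem_cls _
    have hp := hQ.per φ hφ
    have hadj : ∀ i j : ℤ, (j - i) % 4 = 1 ∨ (j - i) % 4 = 3 → T.Adj (φ i) (φ j) := by
      rintro i j (hij | hij)
      · rw [per4_eq hp (i := j) (j := i + 1) (by omega)]
        exact hQ.adj φ hφ i
      · rw [per4_eq hp (i := i) (j := j + 1) (by omega)]
        exact (hQ.adj φ hφ j).symm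
    rcases ht.2 φ hφ with h3 | h3
    · have h4 : ∃ m : ℤ, h • φ 0 = φ m := by
        obtain ⟨k, hk | hk⟩ := h2
        · exact ⟨_, hk 0⟩
        · exact ⟨_, hk 0⟩
      obtain ⟨m, hm⟩ := h4
      rcases mod4' m with e | e | e | e
      · exact ⟨φ 0, by rw [hm]; exact per4_eq hp (by omega)⟩
      · exact (ht.1 h _ _ (hadj 0 m (by omega)) hm).elim
      · exact (h3 h (by rw [hm]; exact per4_eq hp (by omega))).elim
      · exact (ht.1 h _ _ (hadj 0 m (by omega)) hm).elim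
    · have h4 : ∃ m : ℤ, h • φ 1 = φ m := by
        obtain ⟨k, hk | hk⟩ := h2
        · exact ⟨_, hk 1⟩
        · exact ⟨_, hk 1⟩
      obtain ⟨m, hm⟩ := h4
      rcases mod4' m with e | e | e | e
      · exact (ht.1 h _ _ (hadj 1 m (by omega)) hm).elim
      · exact ⟨φ 1, by rw [hm]; exact per4_eq hp (by omega)⟩
      · exact (ht.1 h _ _ (hadj 1 m (by omega)) hm).elim
      · exact (h3 h (by rw [hm]; exact per4_eq hp (by omega))).elim

/-- opposite vertices of a small square -/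
theorem s_op (hQ : Cub T F) (hA : Ac H T F) (ht : Tyd H T F) {k : H} {ψ : ℤ → Sv T F}
    (hψ : ψ ∈ SF T F) (hk : (letI := sAct hA; k • ψ 0 = ψ 2)) :
    ∃ φ ∈ F, k • φ 0 = φ 0 ∧ k • φ 1 = φ (-1) := by
  have hk' : ua k (ψ 0).1 = (ψ 2).1 := congrArg Subtype.val hk
  clear hk
  obtain ⟨φ, hφ, m, hm⟩ := hψ
  rw [hm, hm, ua_B] at hk'
  rcases mod4' m with a | a | a | a
  · rw [B0 _ (i := 0 + m) (by omega), B2 _ (i := 2 + m) (by omega)] at hk'
    cases hk'
  · rw [B1 _ (i := 0 + m) (by omega), B3 _ (i := 2 + m) (by omega)] at hk'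
    have h1 : s(k • φ 0, k • φ 1) = s(φ 0, φ (-1)) := Sum.inl_injective (Sum.inr_injective hk')
    rw [Sym2.eq_iff] at h1
    rcases h1 with ⟨h1, h2⟩ | ⟨h1, -⟩
    · exact ⟨φ, hφ, h1, h2⟩
    · exact (ht.1 k _ _ (hQ.adj0m hφ) h1).elim
  · rw [B2 _ (i := 0 + m) (by omega), B0 _ (i := 2 + m) (by omega)] at hk'
    cases hk'
  · rw [B3 _ (i := 0 + m) (by omega), B1 _ (i := 2 + m) (by omega)] at hk'
    have h1 : s(k • φ 0, k • φ (-1)) = s(φ 0, φ 1) := Sum.inl_injective (Sum.inr_injective hk')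
    rw [Sym2.eq_iff] at h1
    rcases h1 with ⟨h1, h2⟩ | ⟨h1, -⟩
    · refine ⟨_, hQ.refl φ hφ, ?_, ?_⟩
      · show k • φ (-0) = φ (-0)
        rw [neg_zero, h1]
      · show k • φ (-1) = φ (- -1)
        rw [neg_neg, h2]
    · exact (ht.1 k _ _ (hQ.adj01 hφ) h1).elim

/-- edges of a square in one orbit are equal -/
theorem s_edges (hQ : Cub T F) (ht : Tyd H T F) {k : H} (hop : ∀ φ ∈ F, k • φ 0 ≠ φ 2)
    {φ ψ : ℤ → V} (hφ : φ ∈ F) (hψ : ψ ∈ cls φ) (he : s(k • φ 0, k • φ 1) = s(ψ 0, ψ 1)) :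
    s(k • φ 0, k • φ 1) = s(φ 0, φ 1) := by
  have hp := hQ.per φ hφ
  have hadj : ∀ i j : ℤ, (j - i) % 4 = 1 ∨ (j - i) % 4 = 3 → T.Adj (φ i) (φ j) := by
    rintro i j (hij | hij)
    · rw [per4_eq hp (i := j) (j := i + 1) (by omega)]
      exact hQ.adj φ hφ i
    · rw [per4_eq hp (i := i) (j := j + 1) (by omega)]
      exact (hQ.adj φ hφ j).symm
  have key : ∀ i m : ℤ, k • φ i = φ m → k • φ i = φ i := by
    intro i m hm
    have hr : (m - i) % 4 = 0 ∨ (m - i) % 4 = 1 ∨ (m - i) % 4 = 2 ∨ (m - i) % 4 = 3 := mod4' _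
    rcases hr with e | e | e | e
    · rw [hm]
      exact per4_eq hp (by omega)
    · exact (ht.1 k _ _ (hadj i m (Or.inl e)) hm).elim
    · exfalso
      refine hop _ (hQ.shift φ hφ i) ?_
      show k • φ (0 + i) = φ (2 + i)
      rw [zero_add, hm]
      exact per4_eq hp (by omega)
    · exact (ht.1 k _ _ (hadj i m (Or.inr e)) hm).elim
  have hψm : ∀ i : ℤ, ∃ m : ℤ, ψ i = φ m := by
    intro i
    obtain ⟨l, hl | hl⟩ := hψ
    · exact ⟨_, hl i⟩
    · exact ⟨_, hl i⟩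
  obtain ⟨m0, hm0⟩ := hψm 0
  obtain ⟨m1, hm1⟩ := hψm 1
  rw [Sym2.eq_iff] at he
  rcases he with ⟨h1, h2⟩ | ⟨h1, h2⟩
  · rw [key 0 m0 (h1.trans hm0), key 1 m1 (h2.trans hm1)]
  · rw [key 0 m1 (h1.trans hm1), key 1 m0 (h2.trans hm0)]

/-- neighbours in one orbit -/
theorem s_nb (hQ : Cub T F) (hA : Ac H T F) (ht : Tyd H T F) {k : H}
    (hop : ∀ φ ∈ F, k • φ 0 ≠ φ 2) {a b : Sv T F} (hab : (SG T F).Adj a b)
    (hk : (letI := sAct hA; (SG T F).Adj a (k • b))) :
    (letI := sAct hA; k • a = a ∨ k • b = b) := by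
  letI := sAct hA
  have hk' : Inc F a.1 (ua k b.1) ∨ Inc F (ua k b.1) a.1 := hk
  have hop' : ∀ φ ∈ F, k⁻¹ • φ 0 ≠ φ 2 := by
    intro φ hφ he
    refine hop _ (hQ.shift φ hφ 2) ?_
    show k • φ (0 + 2) = φ (2 + 2)
    rw [zero_add, ← he, smul_inv_smul]
    exact (hQ.e4 hφ).symm
  rcases sg_cases hQ hab with ⟨x, y, hxy, ⟨rfl, rfl⟩ | ⟨rfl, rfl⟩⟩ | ⟨φ, hφ, h01, ⟨rfl, rfl⟩ | ⟨rfl, rfl⟩⟩
  · -- a vertex, b edge
    left
    have h1 : x ∈ s(k • x, k • y) := by
      rcases hk' with h | h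
      · exact h
      · exact h.elim
    rw [Sym2.mem_iff] at h1
    refine Subtype.ext ?_
    show Sum.inl (k • x) = Sum.inl x
    rcases h1 with h1 | h1
    · rw [← h1]
    · exfalso
      exact ht.1 k _ _ hxy.symm h1.symm
  · -- b vertex, a edge
    right
    have h1 : k • x ∈ s(x, y) := by
      rcases hk' with h | h
      · exact h.elim
      · exact h
    rw [Sym2.mem_iff] at h1
    refine Subtype.ext ?_
    show Sum.inl (k • x) = Sum.inl x
    rcases h1 with h1 | h1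
    · rw [h1]
    · exact (ht.1 k _ _ hxy h1).elim
  · -- a edge, b square
    left
    have h1 : Inc F (Sum.inr (Sum.inl s(φ 0, φ 1))) (Sum.inr (Sum.inr (cls (pa k φ)))) := by
      rcases hk' with h | h
      · have h' : Inc F (Sum.inr (Sum.inl s(φ 0, φ 1))) (ua k (Sum.inr (Sum.inr (cls φ)))) := h
        rwa [ua_s] at h'
      · have h' : Inc F (ua k (Sum.inr (Sum.inr (cls φ)))) (Sum.inr (Sum.inl s(φ 0, φ 1))) := h
        rw [ua_s] at h'
        exact h'.elim
    obtain ⟨ψ, hψ, e1, e2⟩ := h1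
    have e3 : pa k⁻¹ ψ ∈ cls φ := by
      have : ψ ∈ cls (pa k φ) := by rw [e2]; exact mem_cls ψ
      have := pa_cls (h := k⁻¹) this
      rwa [← pa_mul, inv_mul_cancel, pa_one] at this
    have e4 : s(k⁻¹ • φ 0, k⁻¹ • φ 1) = s(pa k⁻¹ ψ 0, pa k⁻¹ ψ 1) := by
      have := congrArg (Sym2.map fun x => k⁻¹ • x) e1
      exact this
    have ht' := s_edges (k := k⁻¹) hQ ht hop' hφ e3 e4
    refine Subtype.ext ?_
    show Sum.inr (Sum.inl s(k • φ 0, k • φ 1)) = Sum.inr (Sum.inl s(φ 0, φ 1))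
    have := congrArg (Sym2.map fun x => k • x) ht'
    have e5 : s(k • k⁻¹ • φ 0, k • k⁻¹ • φ 1) = s(k • φ 0, k • φ 1) := this
    rw [smul_inv_smul, smul_inv_smul] at e5
    rw [e5]
  · -- a square, b edge
    right
    have h1 : Inc F (Sum.inr (Sum.inl s(k • φ 0, k • φ 1))) (Sum.inr (Sum.inr (cls φ))) := by
      rcases hk' with h | h
      · exact h.elim
      · exact h
    obtain ⟨ψ, hψ, e1, e2⟩ := h1
    have e3 : ψ ∈ cls φ := by rw [e2]; exact mem_cls ψ
    have := s_edges hQ ht hop hφ e3 e1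
    refine Subtype.ext ?_
    show Sum.inr (Sum.inl s(k • φ 0, k • φ 1)) = Sum.inr (Sum.inl s(φ 0, φ 1))
    rw [this]

end

end Run7.h909.SQ
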