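import Pool.Agent.Run7.h909.SQ.SubAct

/-!
# Cocompact actions: passage to the subdivision
-/

set_option autoImplicit false

namespace Run7.h909.SQ

open SimpleGraph Run7.h909.TD
open Pool.Agent.Y110.FJ (ClosedE)
open Pool.Agent.Y462.SS (Closed)
open Pool.Agent.R684.FP (FbC)
open Run7.h909.TT (per4_eq per4_ext)

section

variable {H V : Type} [Group H] [MulAction H V] {T : SimpleGraph V} {F : Set (ℤ → V)}
  {f : H →* Multiplicative ℤ}

theorem Cc0.sub (D : Cc0 H T F f) (ht : Tyd H T F) :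
    (letI := sAct D.ac; Cc0 H (SG T F) (SF T F) f) := by
  classical
  letI := sAct D.ac
  refine ⟨D.vh.sub, SC.sub D.vh D.sc, sAc D.ac, ?_, ?_, ?_⟩
  · intro h a ha h1
    obtain ⟨x, hx⟩ := ell D.vh D.ac ht ha
    exact D.inj h x hx h1
  · obtain ⟨E, hE, hE'⟩ := D.fe
    obtain ⟨P, hP, hP'⟩ := D.ff
    let m1 : V × V → Set (Sv T F × Sv T F) := fun e => {p | ∃ h : T.Adj e.1 e.2,
      p = (vv T F e.1, ee F h) ∨ p = (ee F h, vv T F e.1)}
    let m2 : (ℤ → V) → Set (Sv T F × Sv T F) := fun φ => {p | ∃ hφ : φ ∈ F,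
      p = (ee F (D.vh.adj01 hφ), ss T hφ) ∨ p = (ss T hφ, ee F (D.vh.adj01 hφ))}
    have f1 : ∀ e, (m1 e).Finite := by
      intro e
      by_cases h : T.Adj e.1 e.2
      · refine (Set.toFinite {(vv T F e.1, ee F h), (ee F h, vv T F e.1)}).subset ?_
        rintro p ⟨_, hp⟩
        exact hp
      · exact Set.finite_empty.subset fun p hp => (h hp.1).elim
    have f2 : ∀ φ, (m2 φ).Finite := by
      intro φ
      by_cases h : φ ∈ F
      · refine (Set.toFinite {(ee F (D.vh.adj01 h), ss T h),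
          (ss T h, ee F (D.vh.adj01 h))}).subset ?_
        rintro p ⟨_, hp⟩
        exact hp
      · exact Set.finite_empty.subset fun p hp => (h hp.1).elim
    refine ⟨(⋃ e ∈ E, m1 e) ∪ ⋃ φ ∈ P, m2 φ,
      (Set.Finite.biUnion hE fun e _ => f1 e).union (Set.Finite.biUnion hP fun φ _ => f2 φ), ?_⟩
    intro a b hab
    rcases sg_cases D.vh hab with ⟨x, y, hxy, hc⟩ | ⟨φ, hφ, h01, hc⟩
    · obtain ⟨g, hg⟩ := hE' x y hxy
      have e1 : g • vv T F x = vv T F (g • x) := rfl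
      have e2 : g • ee F hxy = ee F (D.ac.adj g _ _ hxy) := rfl
      refine ⟨g, Or.inl ?_⟩
      simp only [Set.mem_iUnion]
      refine ⟨_, hg, D.ac.adj g _ _ hxy, ?_⟩
      rcases hc with ⟨rfl, rfl⟩ | ⟨rfl, rfl⟩
      · left
        rw [e1, e2]
      · right
        rw [e1, e2]
    · obtain ⟨g, hg⟩ := hP' φ hφ
      have hφ' : (fun i => g • φ i) ∈ F := D.ac.face g φ hφ
      have e1 : g • ee F h01 = ee F (D.vh.adj01 hφ') := rfl
      have e2 : g • ss T hφ = ss T hφ' := Subtype.ext (ua_s g φ)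
      refine ⟨g, Or.inr ?_⟩
      simp only [Set.mem_iUnion]
      refine ⟨_, hg, hφ', ?_⟩
      rcases hc with ⟨rfl, rfl⟩ | ⟨rfl, rfl⟩
      · left
        rw [e1, e2]
      · right
        rw [e1, e2]
  · obtain ⟨P, hP, hP'⟩ := D.ff
    refine ⟨⋃ φ ∈ P, ⋃ r ∈ (Finset.range 4 : Set ℕ), {ψ : ℤ → Sv T F | ∀ i, (ψ i).1 =
      B φ (i + (r : ℤ))}, Set.Finite.biUnion hP fun φ _ =>
        Set.Finite.biUnion (Finset.finite_toSet _) fun r _ => ?_, ?_⟩
    · refine Set.Subsingleton.finite ?_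
      intro ψ hψ ψ' hψ'
      funext i
      exact Subtype.ext ((hψ i).trans (hψ' i).symm)
    · rintro ψ ⟨φ, hφ, k, hk⟩
      obtain ⟨g, hg⟩ := hP' φ hφ
      refine ⟨g, ?_⟩
      simp only [Set.mem_iUnion]
      refine ⟨_, hg, (k % 4).toNat, by simp; omega, ?_⟩
      intro i
      show ua g (ψ i).1 = _
      rw [hk, ua_B]
      have hk : (((k % 4).toNat : ℕ) : ℤ) = k % 4 := Int.toNat_of_nonneg (by omega)
      rw [hk]
      exact B_mod _ (by omega)

/-- the second subdivision has good quotients -/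
theorem Cc0.memT {C : ∀ (G : Type) [Group G], Prop} (hC : ClosedE C) (hF : FbC C) (hcat : CatC C)
    (D : Cc0 H T F f) (ht : Tyd H T F) : C H := by
  letI a1 := sAct D.ac
  have D1 : Cc0 H (SG T F) (SF T F) f := D.sub ht
  have t1 : Tyd H (SG T F) (SF T F) := sTyd D.ac
  letI a2 := sAct D1.ac
  have D2 : Cc0 H (SG (SG T F) (SF T F)) (SF (SG T F) (SF T F)) f := D1.sub t1
  have t2 : Tyd H (SG (SG T F) (SF T F)) (SF (SG T F) (SF T F)) := sTyd D1.ac
  refine D2.mem hC hF hcat ?_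
  obtain ⟨n, hn, -, -, h3, -, -⟩ := D.exn 1 one_pos
  refine ⟨n, hn, fun k hk => ?_⟩
  have op1 : ∀ ψ ∈ SF T F, k • ψ 0 ≠ ψ 2 := by
    intro ψ hψ he
    obtain ⟨φ, hφ, e1, e2⟩ := s_op D.vh D.ac ht hψ he
    exact h3 φ hφ k e1 e2 hk
  refine ⟨fun x y hxy => t2.1 k x y hxy, ?_, ?_⟩
  · intro χ hχ he
    obtain ⟨ψ, hψ, e1, e2⟩ := s_op D1.vh D1.ac t1 hχ he
    refine op1 _ (D1.vh.shift ψ hψ 1) ?_
    show k • ψ (0 + 1) = ψ (2 + 1)
    norm_num
    rw [e2]
    exact D1.vh.m1 hψ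
  · intro x y hxy hk'
    exact s_nb D1.vh D1.ac t1 op1 hxy hk'

end

end Run7.h909.SQ
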