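import Pool.Agent.Run7.h909.SQ.Sub

/-!
# The subdivision is simply connected
-/

set_option autoImplicit false

namespace Run7.h909.SQ

open SimpleGraph Run7.h909.TD
open Run7.h909.TT (per4_eq per4_ext)

section

variable {V : Type} {T : SimpleGraph V} {F : Set (ℤ → V)}

/-- a vertex as a cell -/
def vv (T : SimpleGraph V) (F : Set (ℤ → V)) (x : V) : Sv T F := ⟨Sum.inl x, trivial⟩

/-- an edge as a cell -/
def ee (F : Set (ℤ → V)) {x y : V} (h : T.Adj x y) : Sv T F := ⟨Sum.inr (Sum.inl s(x, y)), h⟩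

/-- a square as a cell -/
def ss (T : SimpleGraph V) {φ : ℤ → V} (h : φ ∈ F) : Sv T F :=
  ⟨Sum.inr (Sum.inr (cls φ)), φ, h, rfl⟩

theorem ee_symm {x y : V} (h : T.Adj x y) (h' : T.Adj y x) : ee F h = ee F h' :=
  Subtype.ext (by show Sum.inr (Sum.inl s(x, y)) = Sum.inr (Sum.inl s(y, x)); rw [Sym2.eq_swap])

theorem ss_eq {φ ψ : ℤ → V} (h : φ ∈ F) (h' : ψ ∈ F) (hc : cls φ = cls ψ) : ss T h = ss T h' :=
  Subtype.ext (by show Sum.inr (Sum.inr (cls φ)) = Sum.inr (Sum.inr (cls ψ)); rw [hc])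

theorem adj_ve {x y : V} (h : T.Adj x y) : (SG T F).Adj (vv T F x) (ee F h) := by
  left
  show x ∈ s(x, y)
  simp

theorem adj_es {φ : ℤ → V} (hφ : φ ∈ F) (h : T.Adj (φ 0) (φ 1)) :
    (SG T F).Adj (ee F h) (ss T hφ) := Or.inl ⟨φ, hφ, rfl, rfl⟩

theorem Sv.ind {P : Sv T F → Prop} (h1 : ∀ x, P (vv T F x)) (h2 : ∀ x y (h : T.Adj x y), P (ee F h))
    (h3 : ∀ φ (h : φ ∈ F), P (ss T h)) (a : Sv T F) : P a := by
  obtain ⟨a, ha⟩ := a
  rcases a with x | p | c
  · exact h1 x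
  · induction p using Sym2.ind with
    | _ x y => exact h2 x y ha
  · obtain ⟨φ, hφ, rfl⟩ := ha
    exact h3 φ hφ

/-- adjacent cells -/
theorem sg_cases (h : Cub T F) {a b : Sv T F} (hab : (SG T F).Adj a b) :
    (∃ x y, ∃ h : T.Adj x y, (a = vv T F x ∧ b = ee F h) ∨ (b = vv T F x ∧ a = ee F h)) ∨
    (∃ φ, ∃ hφ : φ ∈ F, ∃ h : T.Adj (φ 0) (φ 1), (a = ee F h ∧ b = ss T hφ) ∨
      (b = ee F h ∧ a = ss T hφ)) := by
  have key : ∀ a b : Sv T F, Inc F a.1 b.1 →
      (∃ x y, ∃ h : T.Adj x y, a = vv T F x ∧ b = ee F h) ∨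
      (∃ φ, ∃ hφ : φ ∈ F, ∃ h : T.Adj (φ 0) (φ 1), a = ee F h ∧ b = ss T hφ) := by
    intro a b hab
    obtain ⟨a, ha⟩ := a
    obtain ⟨b, hb⟩ := b
    rcases a with x | p | c
    · rcases b with y | p' | c'
      · exact hab.elim
      · left
        have hx : x ∈ p' := hab
        obtain ⟨y, rfl⟩ := hx
        exact ⟨x, y, hb, rfl, rfl⟩
      · exact hab.elim
    · rcases b with y | p' | c'
      · exact hab.elim
      · exact hab.elim
      · right
        obtain ⟨φ, hφ, rfl, rfl⟩ := hab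
        exact ⟨φ, hφ, ha, rfl, rfl⟩
    · rcases b with y | p' | c'
      · exact hab.elim
      · exact hab.elim
      · exact hab.elim
  rcases hab with h1 | h1
  · rcases key a b h1 with ⟨x, y, h2, h3, h4⟩ | ⟨φ, hφ, h2, h3, h4⟩
    · exact Or.inl ⟨x, y, h2, Or.inl ⟨h3, h4⟩⟩
    · exact Or.inr ⟨φ, hφ, h2, Or.inl ⟨h3, h4⟩⟩
  · rcases key b a h1 with ⟨x, y, h2, h3, h4⟩ | ⟨φ, hφ, h2, h3, h4⟩
    · exact Or.inl ⟨x, y, h2, Or.inr ⟨h3, h4⟩⟩
    · exact Or.inr ⟨φ, hφ, h2, Or.inr ⟨h3, h4⟩⟩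

theorem sc_conn (h : Cub T F) (hc : T.Connected) : (SG T F).Connected := by
  obtain ⟨o⟩ := hc.nonempty
  have hne : Nonempty (Sv T F) := ⟨vv T F o⟩
  have h1 : ∀ x, (SG T F).Reachable (vv T F x) (vv T F o) := by
    intro x
    have hr := hc.preconnected x o
    rw [reachable_iff_reflTransGen] at hr
    induction hr using Relation.ReflTransGen.head_induction_on with
    | refl => exact Reachable.refl _
    | @head a b hab _ ih =>
      refine ((adj_ve hab).reachable.trans ?_).trans ih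
      rw [ee_symm hab hab.symm]
      exact (adj_ve hab.symm).symm.reachable
  have h2 : ∀ a, (SG T F).Reachable a (vv T F o) := by
    refine Sv.ind h1 ?_ ?_
    · intro x y hxy
      exact (adj_ve hxy).symm.reachable.trans (h1 x)
    · intro φ hφ
      have h01 := h.adj01 hφ
      exact ((adj_es hφ h01).symm.reachable.trans (adj_ve h01).symm.reachable).trans (h1 _)
  exact ⟨fun a b => (h2 a).trans (h2 b).symm⟩

open Classical in
/-- the cocycle of the complex given by a cocycle of the subdivision -/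
noncomputable def c0 {L : Type} [Group L] (c : Sv T F → Sv T F → L) (x y : V) : L :=
  if h : T.Adj x y then c (vv T F x) (ee F h) * c (ee F h) (vv T F y) else 1

open Classical in
/-- the value of a cocycle from a vertex to the square -/
noncomputable def dd0 {L : Type} [Group L] (h : Cub T F) (c : Sv T F → Sv T F → L) (φ : ℤ → V) : L :=
  if hφ : φ ∈ F then c (vv T F (φ 0)) (ee F (h.adj01 hφ)) * c (ee F (h.adj01 hφ)) (ss T hφ) else 1

theorem c0_eq {L : Type} [Group L] {c : Sv T F → Sv T F → L} {x y : V} (h : T.Adj x y) :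
    c0 c x y = c (vv T F x) (ee F h) * c (ee F h) (vv T F y) := by
  rw [c0, dif_pos h]

theorem dd0_eq {L : Type} [Group L] (h : Cub T F) {c : Sv T F → Sv T F → L} {φ : ℤ → V}
    (hφ : φ ∈ F) : dd0 h c φ =
      c (vv T F (φ 0)) (ee F (h.adj01 hφ)) * c (ee F (h.adj01 hφ)) (ss T hφ) := by
  rw [dd0, dif_pos hφ]

section

variable {L : Type} [Group L] {c : Sv T F → Sv T F → L}

theorem dd0_neg (h : Cub T F) (hc : Coc (SG T F) (SF T F) c) {φ : ℤ → V} (hφ : φ ∈ F) :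
    dd0 h c (fun i => φ (-i)) = dd0 h c φ := by
  have hn := h.refl φ hφ
  rw [dd0_eq h hφ, dd0_eq h hn]
  have h01 := h.adj01 hφ
  have h0m := h.adj01 hn
  let ψ : ℤ → Sv T F := fun i => if i % 4 = 0 then vv T F (φ 0) else if i % 4 = 1 then ee F h01
    else if i % 4 = 2 then ss T hφ else ee F h0m
  have hψ : ψ ∈ SF T F := by
    refine ⟨φ, hφ, 0, fun i => ?_⟩
    show (if i % 4 = 0 then vv T F (φ 0) else if i % 4 = 1 then ee F h01
      else if i % 4 = 2 then ss T hφ else ee F h0m : Sv T F).1 = _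
    rw [add_zero, B]
    split_ifs
    · rfl
    · rfl
    · rfl
    · rfl
  have := hc.face ψ hψ 4 (h.sub.per ψ hψ)
  rw [wrap4] at this
  have w0 : ψ 0 = vv T F (φ 0) := rfl
  have w1 : ψ 1 = ee F h01 := rfl
  have w2 : ψ 2 = ss T hφ := rfl
  have w3 : ψ 3 = ee F h0m := rfl
  have w4 : ψ 4 = vv T F (φ 0) := rfl
  rw [w0, w1, w2, w3, w4] at this
  have e1 := hc.inv _ _ (adj_ve (F := F) h0m)
  have e2 := hc.inv _ _ (adj_es hn h0m)
  have hs : ss T hn = ss T hφ := ss_eq hn hφ (cls_neg φ)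
  rw [hs] at e2 ⊢
  have hv : vv T F ((fun i => φ (-i)) 0) = vv T F (φ 0) := by
    show vv T F (φ (-0)) = _
    rw [neg_zero]
  have e1' : c (vv T F (φ 0)) (ee F h0m) * c (ee F h0m) (vv T F (φ 0)) = 1 := by
    rw [← hv]; exact e1
  rw [hv]
  have i1 : c (ee F h0m) (vv T F (φ 0)) = (c (vv T F (φ 0)) (ee F h0m))⁻¹ :=
    (inv_eq_of_mul_eq_one_right e1').symm
  have i2 : c (ss T hφ) (ee F h0m) = (c (ee F h0m) (ss T hφ))⁻¹ :=
    (inv_eq_of_mul_eq_one_right e2).symm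
  rw [i1, i2] at this
  have i3 : c (vv T F (φ 0)) (ee F h01) * c (ee F h01) (ss T hφ) *
      (c (vv T F (φ 0)) (ee F h0m) * c (ee F h0m) (ss T hφ))⁻¹ = 1 := by
    rw [← this]
    group
  exact (mul_inv_eq_one.1 i3).symm

theorem c0_dd0 (h : Cub T F) (hc : Coc (SG T F) (SF T F) c) {φ : ℤ → V} (hφ : φ ∈ F) :
    c0 c (φ 0) (φ 1) = dd0 h c φ * (dd0 h c fun i => φ (i + 1))⁻¹ := by
  have hs := h.shift φ hφ 1
  have h01 := h.adj01 hφ
  rw [← dd0_neg h hc hs]
  have hr := h.refl _ hs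
  rw [dd0_eq h hr, dd0_eq h hφ, c0_eq h01]
  have hv : vv T F ((fun i => (fun i => φ (i + 1)) (-i)) 0) = vv T F (φ 1) := by
    show vv T F (φ (-0 + 1)) = _
    norm_num
  have he : ee F (h.adj01 hr) = ee F h01 := by
    refine Subtype.ext ?_
    show Sum.inr (Sum.inl s(φ (-0 + 1), φ (-1 + 1))) = Sum.inr (Sum.inl s(φ 0, φ 1))
    rw [Sym2.eq_swap]
    norm_num
  have hss : ss T hr = ss T hφ := ss_eq _ _ (by rw [cls_neg (fun i => φ (i + 1)), cls_shift])
  rw [hv, he, hss]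
  have e1 := hc.inv _ _ (adj_ve (F := F) h01.symm)
  rw [ee_symm h01.symm h01] at e1
  have i1 : c (ee F h01) (vv T F (φ 1)) = (c (vv T F (φ 1)) (ee F h01))⁻¹ :=
    (inv_eq_of_mul_eq_one_right e1).symm
  rw [i1]
  group

theorem coc_c0 (h : Cub T F) (hc : Coc (SG T F) (SF T F) c) : Coc T F (c0 c) := by
  constructor
  · intro x y hxy
    rw [c0_eq hxy, c0_eq hxy.symm, ee_symm hxy.symm hxy]
    have e1 := hc.inv _ _ (adj_ve (F := F) hxy)
    have e2 := hc.inv _ _ (adj_ve (F := F) hxy.symm)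
    rw [ee_symm hxy.symm hxy] at e2
    have i1 := (inv_eq_of_mul_eq_one_right e1).symm
    have i2 := (inv_eq_of_mul_eq_one_right e2).symm
    rw [i1, i2]
    group
  · intro φ hφ n hn
    have hn4 : n = 4 := hn.unique (h.per φ hφ)
    subst hn4
    rw [wrap4]
    have t0 := c0_dd0 h hc hφ
    have t1 := c0_dd0 h hc (h.shift φ hφ 1)
    have t2 := c0_dd0 h hc (h.shift φ hφ 2)
    have t3 := c0_dd0 h hc (h.shift φ hφ 3)
    have s1 : (fun i => (fun i => φ (i + 1)) (i + 1)) = fun i => φ (i + 2) := by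
      funext i
      show φ (i + 1 + 1) = φ (i + 2)
      congr 1
      ring
    have s2 : (fun i => (fun i => φ (i + 2)) (i + 1)) = fun i => φ (i + 3) := by
      funext i
      show φ (i + 1 + 2) = φ (i + 3)
      congr 1
      ring
    have s3 : (fun i => (fun i => φ (i + 3)) (i + 1)) = φ := by
      funext i
      show φ (i + 1 + 3) = φ i
      exact per4_eq (h.per φ hφ) (by omega)
    rw [s1] at t1
    rw [s2] at t2
    rw [s3] at t3
    have u1 : c0 c (φ 1) (φ 2) = _ := t1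
    have u2 : c0 c (φ 2) (φ 3) = _ := t2
    have u3 : c0 c (φ 3) (φ 4) = _ := t3
    rw [t0, u1, u2, u3]
    group

/-- the extension of the potential -/
def Rl (h : Cub T F) (c : Sv T F → Sv T F → L) (f : V → L) (a : Sv T F) (l : L) : Prop :=
  (∃ x, a = vv T F x ∧ l = f x) ∨
  (∃ x y, ∃ hxy : T.Adj x y, a = ee F hxy ∧ l = f x * c (vv T F x) (ee F hxy)) ∨
  (∃ φ, ∃ hφ : φ ∈ F, a = ss T hφ ∧ l = f (φ 0) * dd0 h c φ)

theorem f_shift (h : Cub T F) (hc : Coc (SG T F) (SF T F) c) {f : V → L}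
    (hf : ∀ x y, T.Adj x y → c0 c x y = (f x)⁻¹ * f y) {φ : ℤ → V} (hφ : φ ∈ F) :
    f (φ 1) * dd0 h c (fun i => φ (i + 1)) = f (φ 0) * dd0 h c φ := by
  have h1 := hf _ _ (h.adj01 hφ)
  rw [c0_dd0 h hc hφ] at h1
  have h2 : f (φ 1) = f (φ 0) * (dd0 h c φ * (dd0 h c fun i => φ (i + 1))⁻¹) := by
    rw [h1]
    group
  rw [h2]
  group

theorem f_shiftk (h : Cub T F) (hc : Coc (SG T F) (SF T F) c) {f : V → L}
    (hf : ∀ x y, T.Adj x y → c0 c x y = (f x)⁻¹ * f y) {φ : ℤ → V} (hφ : φ ∈ F) (k : ℕ) :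
    f (φ k) * dd0 h c (fun i => φ (i + k)) = f (φ 0) * dd0 h c φ := by
  induction k with
  | zero => simp
  | succ k ih =>
    rw [← ih]
    have := f_shift h hc hf (h.shift φ hφ k)
    have e1 : (fun i => (fun i => φ (i + (k : ℤ))) (i + 1)) = fun i => φ (i + ((k + 1 : ℕ) : ℤ)) := by
      funext i
      show φ (i + 1 + k) = _
      congr 1
      push_cast
      ring
    rw [e1] at this
    have e2 : φ (1 + (k : ℤ)) = φ ((k + 1 : ℕ) : ℤ) := by
      congr 1
      push_cast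
      ring
    have e3 : φ (0 + (k : ℤ)) = φ k := by
      rw [zero_add]
    have this' : f (φ (1 + (k : ℤ))) * dd0 h c (fun i => φ (i + ((k + 1 : ℕ) : ℤ))) =
        f (φ (0 + (k : ℤ))) * dd0 h c (fun i => φ (i + (k : ℤ))) := this
    rw [e2, e3] at this'
    exact this'

theorem f_cls (h : Cub T F) (hc : Coc (SG T F) (SF T F) c) {f : V → L}
    (hf : ∀ x y, T.Adj x y → c0 c x y = (f x)⁻¹ * f y) {φ ψ : ℤ → V} (hφ : φ ∈ F)
    (hψ : ψ ∈ cls φ) : f (ψ 0) * dd0 h c ψ = f (φ 0) * dd0 h c φ := by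
  have key : ∀ (k : ℤ), f (φ k) * dd0 h c (fun i => φ (i + k)) = f (φ 0) * dd0 h c φ := by
    intro k
    have := f_shiftk h hc hf hφ (k % 4).toNat
    have hk : (((k % 4).toNat : ℕ) : ℤ) = k % 4 := Int.toNat_of_nonneg (by omega)
    rw [hk] at this
    rw [← this]
    have e1 : φ k = φ (k % 4) := per4_eq (h.per φ hφ) (by omega)
    have e2 : (fun i => φ (i + k)) = fun i => φ (i + k % 4) := by
      funext i
      exact per4_eq (h.per φ hφ) (by omega)
    rw [e1, e2]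
  obtain ⟨k, hk | hk⟩ := hψ
  · have e : ψ = fun i => φ (i + k) := funext hk
    rw [e]
    show f (φ (0 + k)) * _ = _
    rw [zero_add]
    exact key k
  · have e : ψ = fun i => (fun i => φ (i + k)) (-i) := by
      funext i
      rw [hk]
      show _ = φ (-i + k)
      congr 1
      ring
    rw [e, dd0_neg h hc (h.shift φ hφ k)]
    show f (φ (-0 + k)) * _ = _
    rw [neg_zero, zero_add]
    exact key k

theorem Rl_uniq (h : Cub T F) (hc : Coc (SG T F) (SF T F) c) {f : V → L}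
    (hf : ∀ x y, T.Adj x y → c0 c x y = (f x)⁻¹ * f y) {a : Sv T F} {l l' : L}
    (h1 : Rl h c f a l) (h2 : Rl h c f a l') : l = l' := by
  rcases h1 with ⟨x, rfl, rfl⟩ | ⟨x, y, hxy, rfl, rfl⟩ | ⟨φ, hφ, rfl, rfl⟩
  · rcases h2 with ⟨x', e, rfl⟩ | ⟨x', y', hxy', e, rfl⟩ | ⟨φ', hφ', e, rfl⟩
    · have := congrArg Subtype.val e
      rw [Sum.inl_injective this]
    · have := congrArg Subtype.val e
      cases this
    · have := congrArg Subtype.val e
      cases this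
  · rcases h2 with ⟨x', e, rfl⟩ | ⟨x', y', hxy', e, rfl⟩ | ⟨φ', hφ', e, rfl⟩
    · have := congrArg Subtype.val e
      cases this
    · have e' : s(x, y) = s(x', y') :=
        Sum.inl_injective (Sum.inr_injective (congrArg Subtype.val e))
      rw [Sym2.eq_iff] at e'
      rcases e' with ⟨rfl, rfl⟩ | ⟨rfl, rfl⟩
      · rfl
      · have h3 := hf _ _ hxy
        rw [c0_eq hxy] at h3
        have e2 := hc.inv _ _ (adj_ve (F := F) hxy.symm)
        rw [ee_symm hxy.symm hxy] at e2 ⊢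
        have i2 := (inv_eq_of_mul_eq_one_right e2).symm
        rw [i2] at h3
        have h4 : f y = f x * (c (vv T F x) (ee F hxy) * (c (vv T F y) (ee F hxy))⁻¹) := by
          rw [h3]
          group
        rw [h4]
        group
    · have := congrArg Subtype.val e
      have := Sum.inr_injective this
      cases this
  · rcases h2 with ⟨x', e, rfl⟩ | ⟨x', y', hxy', e, rfl⟩ | ⟨φ', hφ', e, rfl⟩
    · have := congrArg Subtype.val e
      cases this
    · have := congrArg Subtype.val e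
      have := Sum.inr_injective this
      cases this
    · have e' : cls φ = cls φ' := Sum.inr_injective (Sum.inr_injective (congrArg Subtype.val e))
      exact f_cls h hc hf hφ' (by rw [← e']; exact mem_cls φ)

end

theorem SC.sub (h : Cub T F) (hs : SC T F) : SC (SG T F) (SF T F) := by
  refine ⟨sc_conn h hs.1, ?_⟩
  intro L _ c hc
  obtain ⟨f, hf⟩ := hs.2 _ _ (coc_c0 h hc)
  have hex : ∀ a, ∃ l, Rl h c f a l := by
    refine Sv.ind ?_ ?_ ?_
    · exact fun x => ⟨_, Or.inl ⟨x, rfl, rfl⟩⟩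
    · exact fun x y hxy => ⟨_, Or.inr (Or.inl ⟨x, y, hxy, rfl, rfl⟩)⟩
    · exact fun φ hφ => ⟨_, Or.inr (Or.inr ⟨φ, hφ, rfl, rfl⟩)⟩
  choose g hg using hex
  have key : ∀ {a l}, Rl h c f a l → g a = l := fun hl => Rl_uniq h hc hf (hg _) hl
  refine ⟨g, ?_⟩
  have inv' : ∀ a b, (SG T F).Adj a b → c a b = (g a)⁻¹ * g b → c b a = (g b)⁻¹ * g a := by
    intro a b hab he
    have := hc.inv a b hab
    rw [he] at this
    have := (inv_eq_of_mul_eq_one_right this).symm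
    rw [this]
    group
  intro a b hab
  rcases sg_cases h hab with ⟨x, y, hxy, ⟨rfl, rfl⟩ | ⟨rfl, rfl⟩⟩ | ⟨φ, hφ, h01, ⟨rfl, rfl⟩ | ⟨rfl, rfl⟩⟩
  · rw [key (Or.inl ⟨x, rfl, rfl⟩), key (Or.inr (Or.inl ⟨x, y, hxy, rfl, rfl⟩))]
    group
  · refine inv' _ _ hab.symm ?_
    rw [key (Or.inl ⟨x, rfl, rfl⟩), key (Or.inr (Or.inl ⟨x, y, hxy, rfl, rfl⟩))]
    group
  · rw [key (Or.inr (Or.inl ⟨_, _, h01, rfl, rfl⟩)), key (Or.inr (Or.inr ⟨φ, hφ, rfl, rfl⟩)),
      dd0_eq h hφ]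
    group
  · refine inv' _ _ hab.symm ?_
    rw [key (Or.inr (Or.inl ⟨_, _, h01, rfl, rfl⟩)), key (Or.inr (Or.inr ⟨φ, hφ, rfl, rfl⟩)),
      dd0_eq h hφ]
    group

end

end Run7.h909.SQ
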